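import Pool.Agent.Helper47.ZQ.Block
import Pool.Graph.R_pool_sql_team_seeded_b677cdb8.E8helper2.ZB.Stm3
import Pool.Graph.R_seed8.H185.ZM.AbP
import Pool.Graph.R_seed8.H185.ZM.FI
import Pool.Graph.R_seed8.H185.ZM.Hom
import Pool.Graph.R_seed8.H185.ZM.Iso

/-!
# Lattices containing powers of Frobenius groups: definitions and statements of the modules

`p` is an odd prime, `F` a finite group with an element `z` of order `p` and a homomorphism
`c : F → (ℤ/p)ˣ` with `g z g⁻¹ = z ^ c(g)`; the order `k` of the image of `c` is odd and `> 1`.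
-/

set_option autoImplicit false

namespace Pool.Agent.Helper47.FB

open Module Pool.Agent.Helper381 Pool.Agent.H185.ZM Pool.Agent.Helper47.ZQ Matrix
  Pool.Agent.X183.ZM
open scoped Manifold ContDiff Topology

/-- the diagonal matrices with entries in `u(F)` -/
def fD {O : Type} [Ring O] {F : Type} [Group F] (u : F →* O) (n : ℕ) :
    (Fin n → F) →* (Matrix (Fin n) (Fin n) O)ˣ :=
  MonoidHom.toHomUnits
    { toFun := fun q => diagonal (fun i => u (q i))
      map_one' := by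
        show diagonal (fun i : Fin n => u ((1 : Fin n → F) i)) = 1
        simp only [Pi.one_apply, map_one]
        exact diagonal_one
      map_mul' := fun p q => by
        show diagonal (fun i => u ((p * q) i)) = diagonal (fun i => u (p i)) *
          diagonal (fun i => u (q i))
        rw [diagonal_mul_diagonal]
        simp only [Pi.mul_apply, map_mul] }

/-- the element `(z ^ v_i)_i` of `F ^ n` -/
def iv {F : Type} [Group F] (z : F) {p n : ℕ} (v : Fin n → ZMod p) : Fin n → F :=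
  fun i => z ^ (v i).val

/-- the data `F`, `z`, `c`, with `k` the order of the image of `c` -/
structure Frob (p k : ℕ) {F : Type} [Group F] (z : F) (c : F →* (ZMod p)ˣ) : Prop where
  prime : p.Prime
  ord : orderOf z = p
  conj : ∀ g, g * z * g⁻¹ = z ^ (c g : ZMod p).val
  card : Nat.card c.range = k
  odd : Odd k
  one_lt : 1 < k

/-- the trace of `T g` on the tangent space at `x` (composed with the orthogonal projection) -/
noncomputable def chr (E : Type) [NormedAddCommGroup E] [NormedSpace ℝ E] [FiniteDimensional ℝ E]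
    {M : Type} [TopologicalSpace M] [ChartedSpace E M] {W : Type} [NormedAddCommGroup W]
    [InnerProductSpace ℝ W] {P : Type} (F : M → W) (T : P → W →L[ℝ] W) (x : M) (g : P) : ℝ :=
  LinearMap.trace ℝ (TS E F x)
    (((TS E F x).orthogonalProjectionOnto : W →ₗ[ℝ] TS E F x) ∘ₗ (T g : W →ₗ[ℝ] W) ∘ₗ
      (TS E F x).subtype)

/-- **SMP.** Smith inequality for a map of order `p` of a finite poset. -/
def S_SMP : Prop := ∀ (p : ℕ) [Fact p.Prime] (P : Type) [PartialOrder P] (Q : Set P), Q.Finite →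
  ∀ g : P → P, StrictMono g → (∀ x, g^[p] x = x) → (∀ x ∈ Q, g x ∈ Q) → ∀ N, Q.ncard ≤ N →
    ∑ n ∈ Finset.range N, finrank (ZMod p) (OrdCoh (ZMod p) {x | x ∈ Q ∧ g x = x} n) ≤
      ∑ n ∈ Finset.range N, finrank (ZMod p) (OrdCoh (ZMod p) Q n)

/-- **ORB.** A function on the fixed points of an elementary abelian `p`-group, constant on
comparable pairs, takes at most as many values as the total mod `p` Betti number. -/
def S_ORB : Prop := ∀ (p : ℕ) [Fact p.Prime] (A : Type) [CommGroup A] [Finite A],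
  (∀ a : A, a ^ p = 1) → ∀ (P : Type) [PartialOrder P] [MulAction A P] (Q : Set P), Q.Finite →
    (∀ a : A, StrictMono (fun x : P => a • x)) → (∀ (a : A), ∀ x ∈ Q, a • x ∈ Q) →
      ∀ (S : Type) (v : P → S), (∀ x ∈ Q, ∀ y ∈ Q, (∀ a : A, a • x = x) → (∀ a : A, a • y = y) →
        x < y → v x = v y) →
        (v '' {x | x ∈ Q ∧ ∀ a : A, a • x = x}).ncard ≤
          ∑ n ∈ Finset.range Q.ncard, finrank (ZMod p) (OrdCoh (ZMod p) Q n)

/-- **LOC.** The character of the isotropy representation is locally constant on the fixed set. -/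
def S_LOC : Prop := ∀ (E : Type) [NormedAddCommGroup E] [NormedSpace ℝ E] [FiniteDimensional ℝ E]
  (M : Type) [TopologicalSpace M] [ChartedSpace E M] [IsManifold 𝓘(ℝ, E) ∞ M] [T2Space M]
  (P : Type) [Group P] (a : P → M → M) (W : Type) [NormedAddCommGroup W] [InnerProductSpace ℝ W]
  [FiniteDimensional ℝ W] (F : M → W) (T : P → W →L[ℝ] W), EquiEmb E a W F T → SmoothAction E a →
    ∀ (A : Set P) (x : M), (∀ g ∈ A, a g x = x) →
      ∀ᶠ y in 𝓝 x, (∀ g ∈ A, a g y = y) → ∀ g ∈ A, chr E F T y g = chr E F T x g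

/-- **EQV.** Equivariance of the character. -/
def S_EQV : Prop := ∀ (E : Type) [NormedAddCommGroup E] [NormedSpace ℝ E] [FiniteDimensional ℝ E]
  (M : Type) [TopologicalSpace M] [ChartedSpace E M] [IsManifold 𝓘(ℝ, E) ∞ M]
  (P : Type) [Group P] (a : P → M → M) (W : Type) [NormedAddCommGroup W] [InnerProductSpace ℝ W]
  [FiniteDimensional ℝ W] (F : M → W) (T : P → W →L[ℝ] W), EquiEmb E a W F T → SmoothAction E a →
    ∀ (x : M) (q g : P), chr E F T (a q x) (q * g * q⁻¹) = chr E F T x g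

/-- **GEO.** -/
def S_GEO : Prop := ∀ (E : Type) [NormedAddCommGroup E] [NormedSpace ℝ E] [FiniteDimensional ℝ E]
  (M : Type) [TopologicalSpace M] [ChartedSpace E M] [IsManifold 𝓘(ℝ, E) ∞ M] [CompactSpace M]
  [T2Space M] [ConnectedSpace M] (p : ℕ) [Fact p.Prime] (P A : Type) [Group P] [Finite P]
  [CommGroup A] (j : A →* P), Function.Injective j → (∀ a : A, a ^ p = 1) →
  ∀ φ : P → A → A, (∀ g v, g * j v * g⁻¹ = j (φ g v)) →
  ∀ a : P → M → M, SmoothAction E a → ¬ (p : ℤ) ∣ eulerChar M →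
    ∃ (H : Subgroup P) (V : Type) (_ : AddCommGroup V) (_ : Module ℝ V)
      (_ : FiniteDimensional ℝ V) (ρ : A →* (V →ₗ[ℝ] V)),
      H.index ≤ (totalBetti (ZMod p) M).toNat ∧ finrank ℝ V = finrank ℝ E ∧
        (∀ v : A, ρ v = 1 → ∀ y, a (j v) y = y) ∧
        ∀ h ∈ H, ∀ v : A, LinearMap.trace ℝ V (ρ (φ h v)) = LinearMap.trace ℝ V (ρ v)

/-- **RPW.** The weights of a real representation of `(ℤ/p) ^ n`. -/
def S_RPW : Prop := ∀ (p : ℕ) [Fact p.Prime] (n : ℕ) (V : Type) [AddCommGroup V]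
  [Module ℝ V] [FiniteDimensional ℝ V] (ρ : Multiplicative (Fin n → ZMod p) →* (V →ₗ[ℝ] V)),
    ∃ S : Finset (Fin n → ZMod p), S.card ≤ finrank ℝ V ∧ 0 ∉ S ∧ (∀ w ∈ S, -w ∈ S) ∧
      (∀ v : Fin n → ZMod p, (∀ w ∈ S, ∑ i, w i * v i = 0) →
        ρ (Multiplicative.ofAdd v) = 1) ∧
      ∀ u : Fin n → (ZMod p)ˣ,
        (∀ v : Fin n → ZMod p, LinearMap.trace ℝ V
          (ρ (Multiplicative.ofAdd (fun i => (u i : ZMod p) * v i))) =
            LinearMap.trace ℝ V (ρ (Multiplicative.ofAdd v))) →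
          ∀ w ∈ S, (fun i => (u i : ZMod p) * w i) ∈ S

/-- **CMB.** A symmetric spanning set of nonzero vectors of `F_p ^ n`, stable under a subgroup `H` of
index at most `N` of `U ^ n`, `U` of odd order `k > 1`, has at least `2 k (n - c)` elements. -/
def S_CMB : Prop := ∀ (p : ℕ) [Fact p.Prime] (k n : ℕ) (U : Subgroup (ZMod p)ˣ),
  Nat.card U = k → Odd k → 1 < k → ∀ H : Subgroup (Fin n → (ZMod p)ˣ), (∀ h ∈ H, ∀ i, h i ∈ U) →
    ∀ N c : ℕ, k ^ n ≤ Nat.card H * N → N < k.minFac ^ (c + 1) →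
      ∀ S : Finset (Fin n → ZMod p), 0 ∉ S → (∀ w ∈ S, -w ∈ S) →
        (∀ h ∈ H, ∀ w ∈ S, (fun i => (h i : ZMod p) * w i) ∈ S) →
        (∀ v : Fin n → ZMod p, (∀ w ∈ S, ∑ i, w i * v i = 0) → v = 0) →
          2 * k * n ≤ S.card + 2 * k * c

/-- **IDX.** -/
def S_IDX : Prop := ∀ (G : Type) [Group G] (Γ Δ : Subgroup G) (p : ℕ) [Fact p.Prime] (K : Type)
  [Group K] [Finite K] (φ : K →* G), (∀ q, φ q ∈ Γ) → ∀ A : Subgroup K, A.Normal → IsPGroup p A →
    ¬ p ∣ Δ.relIndex Γ → ∃ γ ∈ Γ, ∃ Q : Subgroup K, A ≤ Q ∧ Q.index ≤ Δ.relIndex Γ ∧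
      ∀ q ∈ Q, γ⁻¹ * φ q * γ ∈ Δ

/-- **WHT.** The group `E_n(O)` contains `(z ^ v_i)_i` and many other elements of `F ^ n`. -/
def S_WHT : Prop := ∀ (O : Type) [Ring O] (F : Type) [Group F] [Finite F] (p k : ℕ) (z : F)
  (c : F →* (ZMod p)ˣ), Frob p k z c → ∀ (u : F →* O) (n : ℕ), 2 ≤ n →
    (∀ v : Fin n → ZMod p, fD u n (iv z v) ∈ EL n O) ∧
    k ^ n ≤ Nat.card ((((EL n O).comap (fD u n)).map (MonoidHom.compLeft c (Fin n)) :
      Subgroup (Fin n → (ZMod p)ˣ))) * k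

/-- **EVP.** A subgroup normalized by the elementary matrices which contains `(z ^ v_i)_i` for some
`v ≠ 0` contains the elementary matrices with entries in `p O`. -/
def S_EVP : Prop := ∀ (O : Type) [Ring O] (F : Type) [Group F] [Finite F] (p k : ℕ) (z : F)
  (c : F →* (ZMod p)ˣ), Frob p k z c → ∀ (u : F →* O), ∑ i ∈ Finset.range p, u z ^ i = 0 →
    ∀ n : ℕ, 3 ≤ n → ∀ N : Subgroup (Matrix (Fin n) (Fin n) O)ˣ, ZQ.ENorm N →
      ∀ v : Fin n → ZMod p, v ≠ 0 → fD u n (iv z v) ∈ N →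
        ∀ (i j : Fin n) (h : i ≠ j) (x : O), El i j h ((p : O) * x) ∈ N

/-- **ELB.** If the elementary matrices with entries in `p O` act trivially and
`⌊dim M / 2⌋ < ⌊n / 2⌋ ^ 2`, `p ∤ χ(M)`, then `E_n(O)` acts trivially. -/
def S_ELB : Prop := ∀ (E : Type) [NormedAddCommGroup E] [NormedSpace ℝ E] [FiniteDimensional ℝ E]
  (M : Type) [TopologicalSpace M] [ChartedSpace E M] [IsManifold 𝓘(ℝ, E) ∞ M] [CompactSpace M]
  [T2Space M] [ConnectedSpace M] (O : Type) [Ring O] (p : ℕ) [Fact p.Prime] (n : ℕ), p ≠ 2 →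
    4 ≤ n → ∀ (Γ : Subgroup (Matrix (Fin n) (Fin n) O)ˣ) (hΓ : EL n O ≤ Γ)
    (α : Γ → (M ≃ₘ^∞⟮𝓘(ℝ, E), 𝓘(ℝ, E)⟯ M)), IsHom α →
    (∀ (i j : Fin n) (h : i ≠ j) (x : O) (y : M),
      α ⟨El i j h ((p : O) * x), hΓ (El_mem h _)⟩ y = y) →
    ¬ (p : ℤ) ∣ eulerChar M → finrank ℝ E / 2 < (n / 2) * (n / 2) →
      ∀ (g : (Matrix (Fin n) (Fin n) O)ˣ) (hg : g ∈ EL n O) (x : M), α ⟨g, hΓ hg⟩ x = x

end Pool.Agent.Helper47.FB
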