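import Pool.Agent.Helper47.FB.Base
import Pool.Graph.R_pool_sql_team_seeded_b677cdb8.E8helper86.ZB.Man2

/-!
# Arbitrary closed manifolds: statements of the modules

`A = (ℤ/p) ^ n` acts on `M`, and `s` acts on `A` by `v ↦ v ^ m`, `m` of odd order `k` modulo `p`.
-/

set_option autoImplicit false

namespace Pool.Agent.Helper47.FB

open Module Pool.Agent.Helper381 Pool.Agent.H185.ZM Pool.Agent.Helper47.ZQ Matrix
  Pool.Agent.X183.ZM Pool.Agent.E8helper2.ZB
open scoped Manifold ContDiff Topology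

/-- **CNA.** Algebraic form of **CNP**: two fixed vertices `x`, `y` of a finite semisimplicial set
with an action of `(ℤ/p) ^ k`, such that `[y] - [x]` is the boundary of the chain `c`, are connected
by edges `e` such that the characters vanishing on the stabilizer of `e` belong to `W`,
`dim W ≤ (total Betti number) - 1`. -/
def S_CNA : Prop := ∀ (p k : ℕ) [Fact p.Prime] (C : ℕ → Type) [∀ q, Fintype (C q)]
  [∀ q, DecidableEq (C q)] [∀ q, MulAction (GG p k) (C q)]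
  (face : ∀ n, Fin (n + 2) → C (n + 1) → C n),
  (∀ n (i j : Fin (n + 2)) (σ : C (n + 2)), i ≤ j →
    face n i (face (n + 1) j.succ σ) = face n j (face (n + 1) i.castSucc σ)) →
  (∀ n i (g : GG p k) σ, face n i (g • σ) = g • face n i σ) →
  ∀ x y : C 0, (∀ g : GG p k, g • x = x) → (∀ g : GG p k, g • y = y) →
  ∀ c : C 1 → ZMod p,
    (∀ τ : C 0, ∑ σ : C 1, (∑ i : Fin 2, if face 0 i σ = τ then (-1 : ZMod p) ^ (i : ℕ) else 0) *
      c σ = (if τ = y then 1 else 0) - (if τ = x then 1 else 0)) →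
  ∀ N, (∀ q, N ≤ q → IsEmpty (C q)) →
    ∃ W : Submodule (ZMod p) (Fin k → ZMod p),
      finrank (ZMod p) W + 1 ≤ ∑ n ∈ Finset.range N, finrank (ZMod p)
          (Coh (ZMod p) (fun n => C n → ZMod p) (fun n => altd (ZMod p) face n) n) ∧
      Relation.EqvGen (fun u v => ∃ e : C 1, face 0 0 e = u ∧ face 0 1 e = v ∧
        ∀ χ : Fin k → ZMod p, (∀ g : GG p k, g • e = e → ∑ i, χ i * g.toAdd i = 0) → χ ∈ W) x y

/-- **CNP.** Two points of the finite poset `Q`, fixed by the elementary abelian `p`-group `A` and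
connected in `Q`, are connected in the fixed set of a subgroup of index at most `p ^ (β - 1)`, `β`
the total mod `p` Betti number of `Q`. -/
def S_CNP : Prop := ∀ (p : ℕ) [Fact p.Prime] (A : Type) [CommGroup A] [Finite A],
  (∀ a : A, a ^ p = 1) → ∀ (P : Type) [PartialOrder P] [MulAction A P] (Q : Set P), Q.Finite →
    (∀ a : A, StrictMono (fun x : P => a • x)) → (∀ (a : A), ∀ x ∈ Q, a • x ∈ Q) →
      ∀ x ∈ Q, ∀ y ∈ Q, (∀ a : A, a • x = x) → (∀ a : A, a • y = y) →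
        Relation.EqvGen (fun u v => u ∈ Q ∧ v ∈ Q ∧ u < v) x y →
          ∃ B : Subgroup A,
            B.index ∣ p ^ (∑ n ∈ Finset.range Q.ncard,
              finrank (ZMod p) (OrdCoh (ZMod p) Q n) - 1) ∧
            Relation.EqvGen (fun u v => u ∈ Q ∧ v ∈ Q ∧ u < v ∧
              ∀ b ∈ B, b • u = u ∧ b • v = v) x y

/-- **SPN.** A symmetric spanning set of nonzero vectors of `F_p ^ n`, stable under the scalar `m` of
odd order `k`, has at least `2 k n` elements. -/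
def S_SPN : Prop := ∀ (p : ℕ) [Fact p.Prime] (n k : ℕ) (m : (ZMod p)ˣ), orderOf m = k → Odd k →
  p ≠ 2 → ∀ S : Finset (Fin n → ZMod p), 0 ∉ S → (∀ w ∈ S, -w ∈ S) →
    (∀ w ∈ S, (fun i => (m : ZMod p) * w i) ∈ S) →
    (∀ v : Fin n → ZMod p, (∀ w ∈ S, ∑ i, w i * v i = 0) → v = 0) → 2 * k * n ≤ S.card

/-- **EL2.** As **ELB**, for arbitrary closed manifolds. -/
def S_EL2 : Prop := ∀ (E : Type) [NormedAddCommGroup E] [NormedSpace ℝ E] [FiniteDimensional ℝ E]
  (M : Type) [TopologicalSpace M] [ChartedSpace E M] [IsManifold 𝓘(ℝ, E) ∞ M] [CompactSpace M]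
  [T2Space M] [ConnectedSpace M] (O : Type) [Ring O] (p : ℕ) [Fact p.Prime] (n : ℕ), p ≠ 2 →
    4 ≤ n → ∀ (Γ : Subgroup (Matrix (Fin n) (Fin n) O)ˣ) (hΓ : EL n O ≤ Γ)
    (α : Γ → (M ≃ₘ^∞⟮𝓘(ℝ, E), 𝓘(ℝ, E)⟯ M)), IsHom α →
    (∀ (i j : Fin n) (h : i ≠ j) (x : O) (y : M),
      α ⟨El i j h ((p : O) * x), hΓ (El_mem h _)⟩ y = y) →
    finrank ℝ E / 2 + ((totalBetti (ZMod p) M).toNat - 1) < (n / 2) * (n / 2) →
      ∀ (g : (Matrix (Fin n) (Fin n) O)ˣ) (hg : g ∈ EL n O) (x : M), α ⟨g, hΓ hg⟩ x = x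

/-- **WH2.** The element `(t, …, t, t ^ (-(n - 1)))` is in `E_n(O)`. -/
def S_WH2 : Prop := ∀ (O : Type) [Ring O] (F : Type) [Group F] (u : F →* O) (n : ℕ) (t : F),
  fD u (n + 1) (fun i => if i = Fin.last n then (t ^ n)⁻¹ else t) ∈ EL (n + 1) O

/-- **GE2.** The geometric part for arbitrary closed manifolds. -/
def S_GE2 : Prop := ∀ (E : Type) [NormedAddCommGroup E] [NormedSpace ℝ E] [FiniteDimensional ℝ E]
  (M : Type) [TopologicalSpace M] [ChartedSpace E M] [IsManifold 𝓘(ℝ, E) ∞ M] [CompactSpace M]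
  [T2Space M] [ConnectedSpace M] (p : ℕ) [Fact p.Prime] (P A : Type) [Group P] [Finite P]
  [CommGroup A] (j : A →* P), Function.Injective j → (∀ a : A, a ^ p = 1) →
  ∀ (s : P) (m : ℕ), (∀ v, s * j v * s⁻¹ = j (v ^ m)) →
  ∀ a : P → M → M, SmoothAction E a →
    ∃ (B : Subgroup A) (V : Type) (_ : AddCommGroup V) (_ : Module ℝ V)
      (_ : FiniteDimensional ℝ V) (ρ : B →* (V →ₗ[ℝ] V)),
      B.index ∣ p ^ (2 * ((totalBetti (ZMod p) M).toNat - 1)) ∧ finrank ℝ V = finrank ℝ E ∧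
        (∀ v : B, ρ v = 1 → ∀ y, a (j v) y = y) ∧
        ∀ v : B, LinearMap.trace ℝ V (ρ (v ^ m)) = LinearMap.trace ℝ V (ρ v)

end Pool.Agent.Helper47.FB
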