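import Pool.Agent.Helper47.FB.Base

/-!
# CMB: symmetric spanning sets stable under many diagonal matrices (co-author: helper17)
-/

set_option autoImplicit false

namespace Pool.Agent.Helper47.FB.CMB

open Finset

/-- the group `U ^ ι` -/
def pw {p : ℕ} (U : Subgroup (ZMod p)ˣ) (ι : Type) : Subgroup (ι → (ZMod p)ˣ) :=
  Subgroup.pi Set.univ fun _ => U

lemma mem_pw {p : ℕ} {U : Subgroup (ZMod p)ˣ} {ι : Type} {h : ι → (ZMod p)ˣ} :
    h ∈ pw U ι ↔ ∀ i, h i ∈ U := by
  unfold pw
  rw [Subgroup.mem_pi]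
  simp

lemma card_pw {p : ℕ} (U : Subgroup (ZMod p)ˣ) (ι : Type) [Fintype ι] :
    Nat.card (pw U ι) = Nat.card U ^ Fintype.card ι := by
  have e : pw U ι ≃ (ι → U) :=
    { toFun := fun h i => ⟨h.1 i, mem_pw.1 h.2 i⟩
      invFun := fun h => ⟨fun i => (h i).1, mem_pw.2 fun i => (h i).2⟩
      left_inv := fun h => rfl
      right_inv := fun h => rfl }
  rw [Nat.card_congr e, Nat.card_fun, Nat.card_eq_fintype_card (α := ι)]

lemma exists_compl {p : ℕ} {U : Subgroup (ZMod p)ˣ} {ι : Type} [Fintype ι]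
    {H : Subgroup (ι → (ZMod p)ˣ)} (hH : ∀ h ∈ H, ∀ i, h i ∈ U) :
    ∃ a, Nat.card H * a = Nat.card U ^ Fintype.card ι := by
  have h1 : H ≤ pw U ι := fun h hh => mem_pw.2 (hH h hh)
  obtain ⟨a, ha⟩ := Subgroup.card_dvd_of_le h1
  exact ⟨a, by rw [← card_pw, ha]⟩

lemma le_pow_card {k j a b : ℕ} (hk : 1 < k) (h : b * a = k ^ j) :
    a ≤ k ^ a.primeFactorsList.length := by
  have ha : a ≠ 0 := by
    rintro rfl
    rw [mul_zero] at h
    exact absurd h.symm (pow_ne_zero j (by omega))
  conv_lhs => rw [← Nat.prod_primeFactorsList ha]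
  apply List.prod_le_pow_card
  intro q hq
  have hqp := Nat.prime_of_mem_primeFactorsList hq
  have hqa := Nat.dvd_of_mem_primeFactorsList hq
  have : q ∣ k ^ j := by rw [← h]; exact hqa.mul_left b
  exact Nat.le_of_dvd (by omega) (hqp.dvd_of_dvd_pow this)

lemma pow_card_le {k j a b : ℕ} (hk : 1 < k) (h : b * a = k ^ j) :
    k.minFac ^ a.primeFactorsList.length ≤ a := by
  have ha : a ≠ 0 := by
    rintro rfl
    rw [mul_zero] at h
    exact absurd h.symm (pow_ne_zero j (by omega))
  conv_rhs => rw [← Nat.prod_primeFactorsList ha]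
  apply List.pow_card_le_prod
  intro q hq
  have hqp := Nat.prime_of_mem_primeFactorsList hq
  have hqa := Nat.dvd_of_mem_primeFactorsList hq
  have : q ∣ k ^ j := by rw [← h]; exact hqa.mul_left b
  exact Nat.minFac_le_of_dvd hqp.two_le (hqp.dvd_of_dvd_pow this)

lemma num {k j a b : ℕ} (hk : 1 < k) (h : b * a = k ^ j) :
    k * j ≤ b + k * a.primeFactorsList.length := by
  rcases Nat.lt_or_ge a.primeFactorsList.length j with h1 | h1
  · have h2 := le_pow_card hk h
    obtain ⟨t, ht⟩ : ∃ t, j = a.primeFactorsList.length + (t + 1) := ⟨j - a.primeFactorsList.length - 1, by omega⟩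
    generalize a.primeFactorsList.length = l at h1 h2 ht ⊢
    subst ht
    have ha : 0 < a := by
      rcases Nat.eq_zero_or_pos a with h0 | h0
      · subst h0
        rw [mul_zero] at h
        exact absurd h.symm (pow_ne_zero _ (by omega))
      · exact h0
    have h3 : k ^ (t + 1) ≤ b := by
      have h4 : k ^ (t + 1) * a ≤ b * a := by
        calc k ^ (t + 1) * a ≤ k ^ (t + 1) * k ^ l := Nat.mul_le_mul_left _ h2
          _ = b * a := by rw [h]; ring
      exact Nat.le_of_mul_le_mul_right h4 ha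
    have h5 : t + 1 ≤ k ^ t := Nat.lt_pow_self hk
    have h6 : k * (t + 1) ≤ k ^ (t + 1) := by
      rw [pow_succ, mul_comm]
      exact Nat.mul_le_mul_right k h5
    calc k * (l + (t + 1)) = k * l + k * (t + 1) := by ring
      _ ≤ b + k * l := by omega
  · have := Nat.mul_le_mul_left k h1
    omega

theorem key (p : ℕ) [Fact p.Prime] (k : ℕ) (U : Subgroup (ZMod p)ˣ) (hU : Nat.card U = k)
    (hodd : Odd k) (hk : 1 < k) : ∀ (m : ℕ) (ι : Type) [Fintype ι] [DecidableEq ι],
    Fintype.card ι = m → ∀ H : Subgroup (ι → (ZMod p)ˣ), (∀ h ∈ H, ∀ i, h i ∈ U) →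
    ∀ S : Finset (ι → ZMod p), 0 ∉ S → (∀ w ∈ S, -w ∈ S) →
    (∀ h ∈ H, ∀ w ∈ S, (fun i => (h i : ZMod p) * w i) ∈ S) →
    (∀ v : ι → ZMod p, (∀ w ∈ S, ∑ i, w i * v i = 0) → v = 0) →
    ∀ a, Nat.card H * a = k ^ Fintype.card ι →
      2 * k * Fintype.card ι ≤ S.card + 2 * k * a.primeFactorsList.length := by
  classical
  have hneg : ∀ u ∈ U, u ≠ -1 := by
    intro u hu h1
    have h2 : (⟨u, hu⟩ : U) ^ k = 1 := by rw [← hU]; exact pow_card_eq_one'
    have h3 : u ^ k = 1 := congrArg Subtype.val h2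
    rw [h1, hodd.neg_one_pow] at h3
    have h4 : (-1 : ZMod p) = 1 := by
      have := congrArg Units.val h3
      simpa using this
    have hp2 : p = 2 := by
      have h5 : (2 : ZMod p) = 0 := by
        have : (1 : ZMod p) + 1 = 0 := by
          nth_rewrite 1 [← h4]
          ring
        rw [← this]
        norm_num
      have h6 : ((2 : ℕ) : ZMod p) = 0 := by exact_mod_cast h5
      rw [ZMod.natCast_eq_zero_iff] at h6
      exact (Nat.prime_dvd_prime_iff_eq (Fact.out : p.Prime) Nat.prime_two).1 h6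
    subst hp2
    have h7 : Nat.card U ≤ Nat.card (ZMod 2)ˣ := Nat.card_le_card_of_injective _ U.subtype_injective
    rw [Nat.card_eq_fintype_card (α := (ZMod 2)ˣ), ZMod.card_units_eq_totient, Nat.totient_two, hU] at h7
    omega
  intro m
  induction m using Nat.strong_induction_on with
  | _ m ih =>
  intro ι _ _ hm H hHU S h0 hsym hst hsp a ha
  rcases Nat.eq_zero_or_pos m with hm0 | hmpos
  · rw [hm, hm0]
    simp
  -- a vector of `S`
  obtain ⟨i0⟩ : Nonempty ι := Fintype.card_pos_iff.1 (by omega)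
  obtain ⟨w, hw⟩ : ∃ w, w ∈ S := by
    by_contra hcon
    push Not at hcon
    have h1 := hsp (Pi.single i0 1) (fun w hw => absurd hw (hcon w))
    have h2 := congrFun h1 i0
    simp at h2
  obtain ⟨i1, hi1⟩ : ∃ i, w i ≠ 0 := by
    by_contra hcon
    push Not at hcon
    have : w = 0 := funext hcon
    exact h0 (this ▸ hw)
  -- the two parts
  obtain ⟨n', hn'⟩ : ∃ n', n' = Fintype.card {i // w i = 0} := ⟨_, rfl⟩
  obtain ⟨n'', hn''⟩ : ∃ n'', n'' = Fintype.card {i // ¬ w i = 0} := ⟨_, rfl⟩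
  have hnn : n' + n'' = Fintype.card ι := by
    rw [hn', hn'', ← Fintype.card_sum]
    exact Fintype.card_congr (Equiv.sumCompl _)
  have hn1 : n' < m := by
    rw [hn', ← hm]
    exact Fintype.card_subtype_lt (x := i1) hi1
  let r1 : (ι → (ZMod p)ˣ) →* ({i // w i = 0} → (ZMod p)ˣ) :=
    { toFun := fun h i => h i.1
      map_one' := rfl
      map_mul' := fun _ _ => rfl }
  let r2 : (ι → (ZMod p)ˣ) →* ({i // ¬ w i = 0} → (ZMod p)ˣ) :=
    { toFun := fun h i => h i.1
      map_one' := rfl
      map_mul' := fun _ _ => rfl }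
  let H2 : Subgroup ({i // ¬ w i = 0} → (ZMod p)ˣ) := H.map r2
  let H1 : Subgroup ({i // w i = 0} → (ZMod p)ˣ) := (H ⊓ r2.ker).map r1
  have hH2 : ∀ h ∈ H2, ∀ i, h i ∈ U := by
    rintro _ ⟨h, hh, rfl⟩ i
    exact hHU h hh i.1
  have hH1 : ∀ h ∈ H1, ∀ i, h i ∈ U := by
    rintro _ ⟨h, hh, rfl⟩ i
    exact hHU h hh.1 i.1
  -- the cardinalities
  have hcard : Nat.card H1 * Nat.card H2 = Nat.card H := by
    have e1 : Nat.card H2 = (r2.comp H.subtype).ker.index := by
      rw [Subgroup.index_ker, MonoidHom.range_comp, Subgroup.range_subtype]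
    have e2 : Nat.card H1 = Nat.card (r2.comp H.subtype).ker := by
      symm
      refine Nat.card_congr (Equiv.ofBijective (fun x => (⟨r1 x.1.1, ⟨x.1.1, ⟨x.1.2, x.2⟩, rfl⟩⟩ : H1)) ⟨?_, ?_⟩)
      · rintro ⟨⟨x, hx⟩, hx2⟩ ⟨⟨y, hy⟩, hy2⟩ hxy
        have h1 : r1 x = r1 y := congrArg Subtype.val hxy
        have h2 : r2 x = 1 := hx2
        have h3 : r2 y = 1 := hy2
        have h4 : x = y := by
          funext i
          by_cases hi : w i = 0
          · exact congrFun h1 ⟨i, hi⟩
          · exact (congrFun h2 ⟨i, hi⟩).trans (congrFun h3 ⟨i, hi⟩).symm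
        subst h4
        rfl
      · rintro ⟨_, ⟨x, ⟨hx1, hx2⟩, rfl⟩⟩
        exact ⟨⟨⟨x, hx1⟩, hx2⟩, rfl⟩
    rw [e1, e2, Subgroup.card_mul_index]
  obtain ⟨a1, ha1⟩ := exists_compl hH1
  obtain ⟨a2, ha2⟩ := exists_compl hH2
  rw [hU] at ha1 ha2
  have hkpos : ∀ t, 0 < k ^ t := fun t => pow_pos (by omega) t
  have hcH : 0 < Nat.card H := by
    rcases Nat.eq_zero_or_pos (Nat.card H) with h | h
    · rw [h, zero_mul] at ha
      have := hkpos (Fintype.card ι)
      omega
    · exact h
  have haa : a = a1 * a2 := by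
    apply Nat.eq_of_mul_eq_mul_left hcH
    rw [ha, ← hcard, ← hnn, pow_add, hn', hn'', ← ha1, ← ha2]
    ring
  have ha1' : a1 ≠ 0 := by
    rintro rfl
    rw [mul_zero] at ha1
    exact (hkpos _).ne ha1
  have ha2' : a2 ≠ 0 := by
    rintro rfl
    rw [mul_zero] at ha2
    exact (hkpos _).ne ha2
  have hlen : a.primeFactorsList.length = a1.primeFactorsList.length + a2.primeFactorsList.length := by
    rw [haa, (Nat.perm_primeFactorsList_mul ha1' ha2').length_eq, List.length_append]
  have hnum := num hk ha2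
  -- the elements of `S` with support in the support of `w`
  have hA : 2 * Nat.card H2 ≤ (S.filter (fun x => ∀ i, w i = 0 → x i = 0)).card := by
    haveI : Fintype H2 := Fintype.ofFinite _
    let g : H2 → (ι → ZMod p) := fun h i => if hi : w i = 0 then 0 else (h.1 ⟨i, hi⟩ : ZMod p) * w i
    have hg : ∀ (h : H2) (i : ι) (hi : ¬ w i = 0), g h i = (h.1 ⟨i, hi⟩ : ZMod p) * w i := by
      intro h i hi
      simp only [g, dif_neg hi]
    have hg0 : ∀ (h : H2) (i : ι), w i = 0 → g h i = 0 := by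
      intro h i hi
      simp only [g, dif_pos hi]
    have hgS : ∀ h, g h ∈ S := by
      rintro ⟨_, ⟨h, hh, rfl⟩⟩
      have h1 := hst h hh w hw
      convert h1 using 1
      funext i
      by_cases hi : w i = 0
      · rw [hg0 _ _ hi, hi, mul_zero]
      · rw [hg _ _ hi]
        rfl
    have hginj : Function.Injective g := by
      rintro h h' hhh
      apply Subtype.ext
      funext i
      have h1 := congrFun hhh i.1
      rw [hg _ _ i.2, hg _ _ i.2] at h1
      exact Units.ext (mul_right_cancel₀ i.2 h1)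
    have hdisj : Disjoint (univ.image g) (univ.image fun h => - g h) := by
      rw [disjoint_left]
      intro x hx hx'
      obtain ⟨h, -, rfl⟩ := mem_image.1 hx
      obtain ⟨h', -, hh'⟩ := mem_image.1 hx'
      have h1 := congrFun hh' i1
      rw [Pi.neg_apply, hg _ _ hi1, hg _ _ hi1, ← neg_mul] at h1
      have h2 := mul_right_cancel₀ hi1 h1
      have h3 : h.1 ⟨i1, hi1⟩ * (h'.1 ⟨i1, hi1⟩)⁻¹ = -1 := by
        apply Units.ext
        rw [Units.val_mul, ← h2, neg_mul, Units.mul_inv]
        simp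
      exact hneg _ (U.mul_mem (hH2 _ h.2 _) (U.inv_mem (hH2 _ h'.2 _))) h3
    have hsub : univ.image g ∪ univ.image (fun h => - g h) ⊆
        S.filter (fun x => ∀ i, w i = 0 → x i = 0) := by
      intro x hx
      rw [mem_filter]
      rw [mem_union, mem_image, mem_image] at hx
      rcases hx with ⟨h, -, rfl⟩ | ⟨h, -, rfl⟩
      · exact ⟨hgS h, fun i hi => hg0 h i hi⟩
      · refine ⟨hsym _ (hgS h), fun i hi => ?_⟩
        rw [Pi.neg_apply, hg0 h i hi, neg_zero]
    have h1 := card_le_card hsub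
    rw [card_union_of_disjoint hdisj, card_image_of_injective _ hginj,
      card_image_of_injective _ (fun a b h => hginj (neg_injective h)), card_univ,
      ← Nat.card_eq_fintype_card] at h1
    omega
  -- the other elements
  let T : Finset ({i // w i = 0} → ZMod p) :=
    (S.filter (fun x => ¬ ∀ i, w i = 0 → x i = 0)).image (fun x i => x i.1)
  have hT : T.card ≤ (S.filter (fun x => ¬ ∀ i, w i = 0 → x i = 0)).card := card_image_le
  have hIH := ih n' hn1 {i // w i = 0} hn'.symm H1 hH1 T (by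
      intro h
      obtain ⟨x, hx, hx0⟩ := mem_image.1 h
      rw [mem_filter] at hx
      apply hx.2
      intro i hi
      exact congrFun hx0 ⟨i, hi⟩) (by
      intro t ht
      obtain ⟨x, hx, rfl⟩ := mem_image.1 ht
      rw [mem_filter] at hx
      refine mem_image.2 ⟨-x, mem_filter.2 ⟨hsym x hx.1, fun h => hx.2 fun i hi => ?_⟩, rfl⟩
      have := h i hi
      rwa [Pi.neg_apply, neg_eq_zero] at this) (by
      rintro _ ⟨h, hh, rfl⟩ t ht
      obtain ⟨x, hx, rfl⟩ := mem_image.1 ht
      rw [mem_filter] at hx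
      refine mem_image.2 ⟨fun i => (h i : ZMod p) * x i,
        mem_filter.2 ⟨hst h hh.1 x hx.1, fun h' => hx.2 fun i hi => ?_⟩, rfl⟩
      exact (mul_eq_zero.1 (h' i hi)).resolve_left (Units.ne_zero _)) (by
      intro v hv
      have h1 := hsp (fun i => if hi : w i = 0 then v ⟨i, hi⟩ else 0) (by
        intro x hx
        have h2 : ∑ i, x i * (if hi : w i = 0 then v ⟨i, hi⟩ else 0) = ∑ i : {i // w i = 0}, x i.1 * v i := by
          rw [← sum_filter_add_sum_filter_not univ (fun i => w i = 0), sum_eq_zero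
            (s := univ.filter fun i => ¬ w i = 0) (fun i hi => by
              rw [dif_neg (mem_filter.1 hi).2, mul_zero]), add_zero,
            Finset.sum_subtype (univ.filter fun i => w i = 0) (p := fun i => w i = 0) (fun i => by simp)]
          exact sum_congr rfl fun i _ => by rw [dif_pos i.2]
        rw [h2]
        by_cases hP : ∀ i, w i = 0 → x i = 0
        · exact sum_eq_zero fun i _ => by rw [hP i.1 i.2, zero_mul]
        · exact hv _ (mem_image.2 ⟨x, mem_filter.2 ⟨hx, hP⟩, rfl⟩))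
      funext i
      have h2 := congrFun h1 i.1
      simpa [i.2] using h2) a1 ha1
  have hsplit := card_filter_add_card_filter_not (s := S) (fun x => ∀ i, w i = 0 → x i = 0)
  rw [hlen, ← hnn]
  rw [← hn'] at hIH
  rw [← hn''] at hnum
  have e : 2 * k * (n' + n'') = 2 * k * n' + 2 * (k * n'') := by ring
  have e' : 2 * k * (a1.primeFactorsList.length + a2.primeFactorsList.length) =
    2 * k * a1.primeFactorsList.length + 2 * (k * a2.primeFactorsList.length) := by ring
  rw [e, e']
  omega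

theorem main : S_CMB := by
  classical
  intro p _ k n U hU hodd hk H hHU N c hN hNc S h0 hsym hst hsp
  obtain ⟨a, ha⟩ := exists_compl hHU
  rw [hU] at ha
  have hcH : 0 < Nat.card H := by
    rcases Nat.eq_zero_or_pos (Nat.card H) with h | h
    · rw [h, zero_mul] at ha
      have : 0 < k ^ Fintype.card (Fin n) := pow_pos (by omega) _
      omega
    · exact h
  have h1 := key p k U hU hodd hk n (Fin n) (Fintype.card_fin n) H hHU S h0 hsym hst hsp a ha
  rw [Fintype.card_fin] at h1
  have h2 : a ≤ N := by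
    rw [Fintype.card_fin] at ha
    rw [← ha] at hN
    exact Nat.le_of_mul_le_mul_left hN hcH
  have h3 := pow_card_le hk ha
  have h4 : a.primeFactorsList.length < c + 1 := by
    apply (Nat.pow_lt_pow_iff_right (Nat.minFac_prime (by omega : k ≠ 1)).one_lt).1
    omega
  have h5 : 2 * k * a.primeFactorsList.length ≤ 2 * k * c := Nat.mul_le_mul_left _ (by omega)
  omega

end Pool.Agent.Helper47.FB.CMB

namespace Pool.Agent.Helper47.FB

theorem cmb : S_CMB := CMB.main

end Pool.Agent.Helper47.FB
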