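import Pool.Agent.Helper47.FB.Base2
import Pool.Graph.R_pool_sql_team_seeded_b677cdb8.E8helper2.ZB.Pos

/-!
# Module CNA (helper40): connected fixed points, algebraic core

Adapted from `E8helper2/ZB/Core.lean` and `E8helper2/ZB/Pos.lean`.
-/

set_option autoImplicit false
set_option linter.unusedSectionVars false

namespace Pool.Agent.Helper47.FB

open Module Pool.Agent.Helper381 Pool.Agent.E8helper2.ZB

section rel

variable {p k : ℕ} {K : Type} [Field K] [Algebra (ZMod p) K]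

/-- every character vanishing on the stabilizer of `σ` is a relation between the `ξ i` -/
def cYc (p : ℕ) {k : ℕ} {K : Type} [Field K] [Algebra (ZMod p) K] (ξ : Fin k → K) {X : Type}
    [MulAction (GG p k) X] (σ : X) : Prop :=
  ∀ χ : Fin k → ZMod p, (∀ g : GG p k, g • σ = σ → ∑ i, χ i * g.toAdd i = 0) →
    ∑ i, algebraMap (ZMod p) K (χ i) * ξ i = 0

theorem cYc_of_smul (ξ : Fin k → K) {X : Type} [MulAction (GG p k) X] (g : GG p k) (σ : X)
    (h : cYc p ξ (g • σ)) : cYc p ξ σ := by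
  intro χ hχ
  refine h χ fun g' hg' => hχ g' ?_
  have h1 : g • g' • σ = g • σ := by
    rw [← mul_smul, mul_comm, mul_smul]
    exact hg'
  exact smul_left_cancel g h1

/-- the simplices not in the subcomplex -/
def cRS (p : ℕ) {k : ℕ} {K : Type} [Field K] [Algebra (ZMod p) K] (ξ : Fin k → K) (X : Type)
    [MulAction (GG p k) X] : SubMulAction (GG p k) X where
  carrier := {σ | ¬ cYc p ξ σ}
  smul_mem' g σ h h' := h (cYc_of_smul ξ g σ h')

theorem cres_eta (ξ : Fin k → K) {X : Type} [MulAction (GG p k) X] (f : X → K) (σ : cRS p ξ X) :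
    eta p (cRS p ξ X) ξ (fun τ => f τ.1) σ = eta p X ξ f σ.1 := rfl

theorem cres_eta_pow (ξ : Fin k → K) {X : Type} [MulAction (GG p k) X] (n : ℕ) (f : X → K) :
    ((eta p (cRS p ξ X) ξ) ^ n) (fun τ => f τ.1) = fun σ => ((eta p X ξ) ^ n) f σ.1 := by
  induction n generalizing f with
  | zero => rfl
  | succ n ih =>
    rw [pow_succ, pow_succ]
    show ((eta p (cRS p ξ X) ξ) ^ n) (eta p (cRS p ξ X) ξ (fun τ => f τ.1)) =
      fun σ => ((eta p X ξ) ^ n) (eta p X ξ f) σ.1
    rw [← ih]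
    rfl

theorem cres_th (ξ : Fin k → K) {X : Type} [MulAction (GG p k) X] (j : ℕ) (f : X → K) :
    th p (cRS p ξ X) ξ j (fun τ => f τ.1) = fun σ => th p X ξ j f σ.1 := by
  unfold th
  split_ifs
  · rfl
  · exact cres_eta_pow ξ (p - 1) f

theorem cth_sub (ξ : Fin k → K) {X : Type} [MulAction (GG p k) X] (j : ℕ) (f g : X → K)
    (h : ∀ σ, ¬ cYc p ξ σ → f σ = g σ) (σ : X) (hσ : ¬ cYc p ξ σ) :
    th p X ξ j f σ = th p X ξ j g σ := by
  have h1 := congrFun (cres_th ξ j f) (⟨σ, hσ⟩ : cRS p ξ X)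
  have h2 := congrFun (cres_th ξ j g) (⟨σ, hσ⟩ : cRS p ξ X)
  have h3 : (fun τ : cRS p ξ X => f τ.1) = fun τ => g τ.1 := funext fun τ => h τ.1 τ.2
  rw [h3] at h1
  exact h1.symm.trans h2

variable [Fact p.Prime]

open Classical in
theorem crelker (hEX : S_EX) (ξ : Fin k → K) {X : Type} [MulAction (GG p k) X] (j : ℕ) (f : X → K)
    (hf : ∀ σ, ¬ cYc p ξ σ → th p X ξ j f σ = 0) :
    ∃ g : X → K, ∀ σ, ¬ cYc p ξ σ → th p X ξ (j + 1) g σ = f σ := by
  have hex := hEX p k K (cRS p ξ X) ξ (fun σ => by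
    have h1 : ¬ cYc p ξ σ.1 := σ.2
    unfold cYc at h1
    push Not at h1
    obtain ⟨χ, h2, h3⟩ := h1
    exact ⟨χ, fun g hg => h2 g (congrArg Subtype.val hg), h3⟩)
  have hf' : th p (cRS p ξ X) ξ j (fun τ => f τ.1) = 0 := by
    rw [cres_th]
    funext σ
    exact hf σ.1 σ.2
  have hg : ∃ g : cRS p ξ X → K, th p (cRS p ξ X) ξ (j + 1) g = fun τ => f τ.1 := by
    unfold th at hf' ⊢
    by_cases hj : Even j
    · rw [if_pos hj] at hf'
      rw [if_neg (by rw [Nat.even_add_one]; exact fun h => h hj)]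
      exact hex.1 _ hf'
    · rw [if_neg hj] at hf'
      rw [if_pos (by rw [Nat.even_add_one]; exact hj)]
      exact hex.2 _ hf'
  obtain ⟨g, hg⟩ := hg
  refine ⟨fun σ => if h : ¬ cYc p ξ σ then g ⟨σ, h⟩ else 0, fun σ hσ => ?_⟩
  have h1 := congrFun (cres_th ξ (j + 1) (fun σ => if h : ¬ cYc p ξ σ then g ⟨σ, h⟩ else 0))
    (⟨σ, hσ⟩ : cRS p ξ X)
  have h2 : (fun τ : cRS p ξ X => (fun σ => if h : ¬ cYc p ξ σ then g ⟨σ, h⟩ else 0) τ.1) = g := by
    funext τ
    exact dif_pos τ.2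
  rw [h2, hg] at h1
  exact h1.symm

end rel

section main

variable {p k : ℕ} {X : ℕ → Type} [∀ q, Fintype (X q)] [∀ q, DecidableEq (X q)]
  [∀ q, MulAction (GG p k) (X q)]

/-- the recursion -/
noncomputable def cLam (R : Type) [CommRing R] [Algebra (ZMod p) R] (ξ : Fin k → R)
    (S : ∀ q, Matrix (X (q + 2)) (X (q + 1)) (ZMod p)) (c : X 1 → ZMod p) : ∀ q, X (q + 1) → R
  | 0 => fun σ => algebraMap (ZMod p) R (c σ)
  | q + 1 => ex R (S q) (th p (X (q + 1)) ξ q (cLam R ξ S c q))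

omit [∀ q, DecidableEq (X q)] in
theorem cLam_nat {R R' : Type} [CommRing R] [Algebra (ZMod p) R] [CommRing R']
    [Algebra (ZMod p) R'] (φ : R →ₐ[ZMod p] R') (ξ : Fin k → R)
    (S : ∀ q, Matrix (X (q + 2)) (X (q + 1)) (ZMod p)) (c : X 1 → ZMod p) (q : ℕ) :
    (fun σ => φ (cLam R ξ S c q σ)) = cLam R' (fun i => φ (ξ i)) S c q := by
  induction q with
  | zero =>
    funext σ
    show φ (algebraMap (ZMod p) R (c σ)) = algebraMap (ZMod p) R' (c σ)
    exact AlgHom.commutes _ _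
  | succ q ih =>
    show (fun σ => φ (ex R (S q) (th p (X (q + 1)) ξ q (cLam R ξ S c q)) σ)) =
      ex R' (S q) (th p (X (q + 1)) (fun i => φ (ξ i)) q (cLam R' (fun i => φ (ξ i)) S c q))
    rw [ex_nat, ← ih]
    have := th_nat (p := p) (X := X (q + 1)) (φ : R →+* R') ξ q (cLam R ξ S c q)
    exact congrArg _ this

variable [Fact p.Prime]

theorem cex_sub {K : Type} [Field K] [Algebra (ZMod p) K] (ξ : Fin k → K)
    (bd : ∀ q, Matrix (X q) (X (q + 1)) (ZMod p))
    (hsub : ∀ q τ σ, bd q τ σ ≠ 0 → ∀ g : GG p k, g • σ = σ → g • τ = τ) (q : ℕ)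
    (f g : X (q + 1) → K) (h : ∀ σ, ¬ cYc p ξ σ → f σ = g σ) (τ : X q) (hτ : ¬ cYc p ξ τ) :
    ex K (bd q) f τ = ex K (bd q) g τ := by
  rw [ex_apply, ex_apply]
  refine Finset.sum_congr rfl fun σ _ => ?_
  by_cases h0 : bd q τ σ = 0
  · rw [h0, map_zero, zero_mul, zero_mul]
  · rw [h σ fun hσ => hτ fun χ hχ => hσ χ fun g' hg' => hχ g' (hsub q τ σ h0 g' hg')]

theorem ccontra (hEX : S_EX) (K : Type) [Field K] [Algebra (ZMod p) K] (ξ : Fin k → K)
    (bd : ∀ q, Matrix (X q) (X (q + 1)) (ZMod p)) (hbd : ∀ q, bd q * bd (q + 1) = 0)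
    (hequi : ∀ q (g : GG p k) τ σ, bd q (g • τ) (g • σ) = bd q τ σ)
    (hsub : ∀ q τ σ, bd q τ σ ≠ 0 → ∀ g : GG p k, g • σ = σ → g • τ = τ)
    (c : X 1 → ZMod p)
    (hc : ∀ (g : GG p k) (τ : X 0), ∑ σ, bd 0 (g • τ) σ * c σ = ∑ σ, bd 0 τ σ * c σ) (N : ℕ)
    (hN : ∀ q, N ≤ q → IsEmpty (X (q + 1))) (b : ℕ → ℕ)
    (S : ∀ q, Matrix (X (q + 2)) (X (q + 1)) (ZMod p))
    (T : ∀ q, Matrix (X (q + 1)) (X q) (ZMod p)) (U : ∀ q, Matrix (X (q + 1)) (Fin (b q)) (ZMod p))
    (Φ : ∀ q, Matrix (Fin (b q)) (X (q + 1)) (ZMod p))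
    (hsp : ∀ q, bd (q + 1) * S q + T q * bd q + U q * Φ q = 1)
    (hΦ : ∀ q, ex K (Φ q) (th p (X (q + 1)) ξ q (cLam K ξ S c q)) = 0) :
    ∃ (μ : X 0 → K) (d : X 1 → K), (∀ σ, ¬ cYc p ξ σ → d σ = 0) ∧
      ∀ τ, algebraMap (ZMod p) K (∑ σ, bd 0 τ σ * c σ) = eta p (X 0) ξ μ τ + ex K (bd 0) d τ := by
  set L := cLam K ξ S c with hL
  -- the cycle identities
  have hbb : ∀ q (f : X (q + 2) → K), ex K (bd q) (ex K (bd (q + 1)) f) = 0 := by
    intro q f
    rw [← ex_mul, hbd, ex_zero]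
  have hL0 : ∀ τ, ex K (bd 0) (L 0) τ = algebraMap (ZMod p) K (∑ σ, bd 0 τ σ * c σ) := by
    intro τ
    rw [ex_apply, map_sum]
    refine Finset.sum_congr rfl fun σ _ => ?_
    rw [map_mul]
    rfl
  have hcyc : ∀ q, ex K (bd q) (th p (X (q + 1)) ξ q (L q)) = 0 ∧
      ex K (bd (q + 1)) (L (q + 1)) = th p (X (q + 1)) ξ q (L q) := by
    intro q
    have step : ∀ q, ex K (bd q) (th p (X (q + 1)) ξ q (L q)) = 0 →
        ex K (bd (q + 1)) (L (q + 1)) = th p (X (q + 1)) ξ q (L q) := by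
      intro q h1
      have h2 : ex K (bd (q + 1) * S q + T q * bd q + U q * Φ q) (th p (X (q + 1)) ξ q (L q)) =
          th p (X (q + 1)) ξ q (L q) := by rw [hsp, ex_one]
      rw [ex_add, ex_add, ex_mul, ex_mul, ex_mul, h1, hΦ, map_zero, map_zero, add_zero,
        add_zero] at h2
      exact h2
    induction q with
    | zero =>
      have h1 : ex K (bd 0) (th p (X 1) ξ 0 (L 0)) = 0 := by
        rw [th_comm ξ (bd 0) (hequi 0)]
        have h2 : th p (X 0) ξ 0 = eta p (X 0) ξ := if_pos (by simp)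
        rw [h2]
        funext τ
        rw [eta_apply]
        refine Finset.sum_eq_zero fun i _ => ?_
        rw [hL0, hL0, hc, sub_self, mul_zero]
      exact ⟨h1, step 0 h1⟩
    | succ q ih =>
      have h1 : ex K (bd (q + 1)) (th p (X (q + 1 + 1)) ξ (q + 1) (L (q + 1))) = 0 := by
        rw [th_comm ξ (bd (q + 1)) (hequi (q + 1)), ih.2, th_th]
      exact ⟨h1, step (q + 1) h1⟩
  -- descent
  have hdesc : ∀ j q, N ≤ q + j → ∃ (μ : X (q + 1) → K) (ν : X (q + 2) → K),
      ∀ σ, ¬ cYc p ξ σ → L q σ = (th p (X (q + 1)) ξ (q + 1) μ + ex K (bd (q + 1)) ν) σ := by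
    intro j
    induction j with
    | zero =>
      intro q hq
      have := hN q (by omega)
      exact ⟨0, 0, fun σ => isEmptyElim σ⟩
    | succ j ih =>
      intro q hq
      obtain ⟨μ, ν, h⟩ := ih (q + 1) (by omega)
      have h1 := (hcyc q).2
      have e : th p (X (q + 1)) ξ (q + 1 + 1) = th p (X (q + 1)) ξ q := th_add_two ξ q
      have h2 : ∀ σ, ¬ cYc p ξ σ →
          th p (X (q + 1)) ξ q (L q - ex K (bd (q + 1)) μ) σ = 0 := by
        intro σ hσ
        have h3 := cex_sub ξ bd hsub (q + 1) _ _ h σ hσ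
        rw [map_add, hbb (q + 1), add_zero, th_comm ξ (bd (q + 1)) (hequi (q + 1)), e] at h3
        rw [map_sub, Pi.sub_apply, ← h3, h1, sub_self]
      obtain ⟨μ', h3⟩ := crelker hEX ξ q _ h2
      refine ⟨μ', μ, fun σ hσ => ?_⟩
      rw [Pi.add_apply, h3 σ hσ, Pi.sub_apply, sub_add_cancel]
  obtain ⟨μ, ν, h⟩ := hdesc N 0 (by omega)
  have hp2 : 2 ≤ p := (Fact.out : p.Prime).two_le
  refine ⟨((eta p (X 0) ξ) ^ (p - 2)) (ex K (bd 0) μ),
    L 0 - th p (X 1) ξ 1 μ - ex K (bd 1) ν, ?_, ?_⟩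
  · intro σ hσ
    rw [Pi.sub_apply, Pi.sub_apply, h σ hσ, Pi.add_apply]
    ring
  · intro τ
    rw [← hL0, map_sub, map_sub, hbb 0, sub_zero, th_comm ξ (bd 0) (hequi 0)]
    have h2 : th p (X 0) ξ 1 = (eta p (X 0) ξ) ^ (p - 1) := if_neg (by simp)
    have h3 : (eta p (X 0) ξ) ^ (p - 1) = eta p (X 0) ξ * (eta p (X 0) ξ) ^ (p - 2) := by
      rw [← pow_succ']
      congr 1
      omega
    rw [h2, h3, Pi.sub_apply]
    show _ = _ + (_ - eta p (X 0) ξ (((eta p (X 0) ξ) ^ (p - 2)) (ex K (bd 0) μ)) τ)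
    ring

/-- the boundary of a chain supported on the subcomplex, summed over a component -/
theorem cfinish {K : Type} [Field K] [Algebra (ZMod p) K] (ξ : Fin k → K)
    (Z : X 0 → Prop) [DecidablePred Z] (hZ : ∀ (g : GG p k) τ, Z (g • τ) ↔ Z τ) (μ : X 0 → K) :
    ∑ τ ∈ Finset.univ.filter Z, eta p (X 0) ξ μ τ = 0 := by
  simp only [eta_apply]
  rw [Finset.sum_comm]
  refine Finset.sum_eq_zero fun i _ => ?_
  rw [← Finset.mul_sum, Finset.sum_sub_distrib]
  have h1 : ∑ τ ∈ Finset.univ.filter Z, μ (gen p k i • τ) = ∑ τ ∈ Finset.univ.filter Z, μ τ := by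
    rw [Finset.sum_filter, Finset.sum_filter, ← Equiv.sum_comp (MulAction.toPerm (gen p k i))
      (fun τ => if Z τ then μ τ else 0)]
    refine Finset.sum_congr rfl fun τ _ => ?_
    rw [MulAction.toPerm_apply]
    by_cases h : Z τ
    · rw [if_pos h, if_pos ((hZ _ _).2 h)]
    · rw [if_neg h, if_neg (fun h' => h ((hZ _ _).1 h'))]
  rw [h1, sub_self, mul_zero]

/-- `core` of `E8helper2/ZB/Core.lean` for a chain with invariant boundary -/
theorem ccore (hEX : S_EX) (hHT : S_HT)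
    (bd : ∀ q, Matrix (X q) (X (q + 1)) (ZMod p)) (hbd : ∀ q, bd q * bd (q + 1) = 0)
    (hequi : ∀ q (g : GG p k) τ σ, bd q (g • τ) (g • σ) = bd q τ σ)
    (hsub : ∀ q τ σ, bd q τ σ ≠ 0 → ∀ g : GG p k, g • σ = σ → g • τ = τ)
    (c : X 1 → ZMod p)
    (hc : ∀ (g : GG p k) (τ : X 0), ∑ σ, bd 0 (g • τ) σ * c σ = ∑ σ, bd 0 τ σ * c σ) (N : ℕ)
    (hN : ∀ q, N ≤ q → IsEmpty (X (q + 1))) (b : ℕ → ℕ)
    (hb : ∀ q, b q + (bd (q + 1)).rank + (bd q).rank = Fintype.card (X (q + 1))) :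
    ∃ (K : Type) (_ : Field K) (_ : Algebra (ZMod p) K) (ξ : Fin k → K),
      (∀ W : Submodule (ZMod p) (Fin k → ZMod p),
        (∀ χ ∈ W, ∑ i, algebraMap (ZMod p) K (χ i) * ξ i = 0) →
          finrank (ZMod p) W ≤ ∑ q ∈ Finset.range N, b q) ∧
      ∃ (μ : X 0 → K) (d : X 1 → K), (∀ σ, ¬ cYc p ξ σ → d σ = 0) ∧
        ∀ τ, algebraMap (ZMod p) K (∑ σ, bd 0 τ σ * c σ) =
          eta p (X 0) ξ μ τ + ex K (bd 0) d τ := by
  classical
  choose S T U Φ hsp using fun q => msplit (bd (q + 1)) (bd q) (hbd q) (b q) (hb q)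
  let A := MvPolynomial (Fin k) (ZMod p)
  let ξ : Fin k → A := MvPolynomial.X
  let a : ∀ q, Fin (b q) → A := fun q => ex A (Φ q) (th p (X (q + 1)) ξ q (cLam A ξ S c q))
  let ι := Σ q : Fin N, Fin (b q)
  have hcard : Fintype.card ι = ∑ q ∈ Finset.range N, b q := by
    rw [Fintype.card_sigma]
    simp only [Fintype.card_fin]
    exact Fin.sum_univ_eq_sum_range (fun q => b q) N
  let e : Fin (∑ q ∈ Finset.range N, b q) ≃ ι := (Fintype.equivFinOfCardEq hcard).symm
  obtain ⟨P, hP, hf, hW⟩ := hHT p k _ (fun j => a (e j).1 (e j).2) (by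
    intro j
    let φ : A →ₐ[ZMod p] ZMod p := MvPolynomial.aeval 0
    have hφ : ∀ f : A, MvPolynomial.constantCoeff f = φ f := by
      intro f
      exact (MvPolynomial.aeval_zero f).symm
    rw [hφ]
    have h1 := congrFun (ex_nat φ (Φ (e j).1)
      (th p (X ((e j).1 + 1)) ξ (e j).1 (cLam A ξ S c (e j).1))) (e j).2
    refine h1.trans ?_
    have h2 := th_nat (p := p) (X := X ((e j).1 + 1)) (φ : A →+* ZMod p) ξ (e j).1
      (cLam A ξ S c (e j).1)
    have h3 : (fun i => (φ : A →+* ZMod p) (ξ i)) = 0 := by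
      funext i
      exact MvPolynomial.aeval_X _ i
    rw [h3, th_zero_of_eta _ eta_zero] at h2
    have h4 : (fun x => φ (th p (X ((e j).1 + 1)) ξ (e j).1 (cLam A ξ S c (e j).1) x)) = 0 := h2
    rw [h4, map_zero]
    rfl)
  have key : ∀ x : ι, a x.1 x.2 ∈ P := by
    intro x
    obtain ⟨j, rfl⟩ := e.surjective x
    exact hf j
  let K := FractionRing (A ⧸ P)
  let φ : A →ₐ[ZMod p] K := (IsScalarTower.toAlgHom (ZMod p) (A ⧸ P) K).comp
    (Ideal.Quotient.mkₐ (ZMod p) P)
  have hφ : ∀ f : A, φ f = 0 ↔ f ∈ P := by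
    intro f
    show algebraMap (A ⧸ P) K (Ideal.Quotient.mk P f) = 0 ↔ _
    rw [← Ideal.Quotient.eq_zero_iff_mem, map_eq_zero_iff _ (IsFractionRing.injective (A ⧸ P) K)]
  refine ⟨K, inferInstance, inferInstance, fun i => φ (ξ i), ?_, ?_⟩
  · intro W h
    refine hW W fun χ hχ => ?_
    have h1 := h χ hχ
    rw [← hφ, map_sum, ← h1]
    refine Finset.sum_congr rfl fun i _ => ?_
    rw [map_mul]
    congr 1
  · refine ccontra hEX K (fun i => φ (ξ i)) bd hbd hequi hsub c hc N hN b S T U Φ hsp ?_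
    intro q
    have h1 := ex_nat φ (Φ q) (th p (X (q + 1)) ξ q (cLam A ξ S c q))
    have h2 := th_nat (p := p) (X := X (q + 1)) (φ : A →+* K) ξ q (cLam A ξ S c q)
    have h3 := cLam_nat φ ξ S c q
    have h4 : (fun x => φ (th p (X (q + 1)) ξ q (cLam A ξ S c q) x)) =
        th p (X (q + 1)) (fun i => φ (ξ i)) q (cLam K (fun i => φ (ξ i)) S c q) := by
      rw [← h3]
      exact h2
    rw [h4] at h1
    rw [← h1]
    funext j
    show φ (a q j) = 0
    by_cases hq : q < N
    · rw [hφ]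
      exact key ⟨⟨q, hq⟩, j⟩
    · have hE := hN q (not_lt.1 hq)
      have : b q = 0 := by
        have := hb q
        rw [Fintype.card_eq_zero] at this
        omega
      exact absurd j.2 (by omega)

end main

section fin

variable {p : ℕ} {C : ℕ → Type} [∀ q, Fintype (C q)] [∀ q, DecidableEq (C q)]
  (face : ∀ n, Fin (n + 2) → C (n + 1) → C n)

/-- the boundary matrices -/
def bdc (p : ℕ) (face : ∀ n, Fin (n + 2) → C (n + 1) → C n) (q : ℕ) :
    Matrix (C q) (C (q + 1)) (ZMod p) := fun τ σ => ∑ i : Fin (q + 2),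
      if face q i σ = τ then (-1 : ZMod p) ^ (i : ℕ) else 0

theorem bdc_altd (q : ℕ) : (Matrix.transpose (bdc p face q)).mulVecLin =
    altd (ZMod p) face q := bdm_altd face q

theorem bdc_bdc (hface : ∀ n (i j : Fin (n + 2)) (σ : C (n + 2)), i ≤ j →
      face n i (face (n + 1) j.succ σ) = face n j (face (n + 1) i.castSucc σ)) (q : ℕ) :
    bdc p face q * bdc p face (q + 1) = 0 := bdm_bdm face hface (q + 1)

end fin

theorem cna : S_CNA := by
  intro p k _ C _ _ _ face hface hact x y hx hy c hc N hN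
  classical
  let β : ℕ → ℕ := fun n => finrank (ZMod p)
          (Coh (ZMod p) (fun n => C n → ZMod p) (fun n => altd (ZMod p) face n) n)
  have hd : ∀ n x, altd (ZMod p) face (n + 1) (altd (ZMod p) face n x) = 0 :=
    fun n x => altd_altd face hface n x
  have hrk : ∀ q, (bdc p face q).rank = finrank (ZMod p) (LinearMap.range
      (altd (ZMod p) face q)) := by
    intro q
    rw [← Matrix.rank_transpose, Matrix.rank, bdc_altd]
  have hcard : ∀ q, Fintype.card (C q) = finrank (ZMod p) (C q → ZMod p) := by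
    intro q
    rw [Module.finrank_fintype_fun_eq_card]
  have hcoh : ∀ q, β q + finrank (ZMod p) (LinearMap.range (altd (ZMod p) face q)) +
      rkb (C := fun n => C n → ZMod p) (fun n => altd (ZMod p) face n) q =
      finrank (ZMod p) (C q → ZMod p) := fun q =>
    finrank_coh (C := fun n => C n → ZMod p) (fun n => altd (ZMod p) face n) hd q
  have hβ0 : 1 ≤ β 0 := by
    obtain h | h := Nat.eq_zero_or_pos (β 0)
    · exfalso
      have h1 := hcoh 0
      rw [rkb_zero, h, zero_add, add_zero] at h1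
      have h2 := LinearMap.finrank_range_add_finrank_ker (altd (ZMod p) face 0)
      have h3 : finrank (ZMod p) (LinearMap.ker (altd (ZMod p) face 0)) = 0 := by omega
      rw [Submodule.finrank_eq_zero] at h3
      have h4 : (fun _ => 1 : C 0 → ZMod p) ∈ LinearMap.ker (altd (ZMod p) face 0) := by
        rw [LinearMap.mem_ker]
        funext σ
        rw [altd_apply]
        simp
      rw [h3, Submodule.mem_bot] at h4
      exact one_ne_zero (congrFun h4 x)
    · exact h
  have hN1 : 1 ≤ N := by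
    by_contra hlt
    exact (hN 0 (by omega)).false x
  obtain ⟨N', rfl⟩ : ∃ N', N = N' + 1 := ⟨N - 1, by omega⟩
  have hbv : ∀ τ : C 0, ∑ σ, bdc p face 0 τ σ * c σ =
      (if τ = y then 1 else 0) - (if τ = x then 1 else 0) := hc
  obtain ⟨K, iF, iA, ξ, hW, μ, d, hd0, hid⟩ := ccore (X := C) (k := k)
    Pool.Agent.E8helper86.ZB.ex Pool.Agent.E8helper41.ZB.ht
    (bdc p face) (bdc_bdc face hface)
    (by
      intro q g τ σ
      show (∑ i : Fin (q + 2), if face q i (g • σ) = g • τ then (-1 : ZMod p) ^ (i : ℕ) else 0) =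
        ∑ i : Fin (q + 2), if face q i σ = τ then (-1 : ZMod p) ^ (i : ℕ) else 0
      refine Finset.sum_congr rfl fun i _ => ?_
      rw [hact]
      simp only [smul_left_cancel_iff])
    (by
      intro q τ σ h g hg
      by_contra hne
      apply h
      refine Finset.sum_eq_zero fun i _ => if_neg fun h1 => hne ?_
      rw [← h1, ← hact, hg])
    c
    (by
      intro g τ
      have h1 : ∀ z : C 0, (∀ g : GG p k, g • z = z) → (g • τ = z ↔ τ = z) := by
        intro z hz
        constructor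
        · intro h
          exact smul_left_cancel g (h.trans (hz g).symm)
        · rintro rfl
          exact hz g
      rw [hbv, hbv]
      simp only [h1 x hx, h1 y hy])
    N' (fun q hq => hN (q + 1) (by omega)) (fun q => β (q + 1))
    (by
      intro q
      have h1 := hcoh (q + 1)
      rw [rkb_succ] at h1
      rw [hrk, hrk, hcard]
      exact h1)
  let W : Submodule (ZMod p) (Fin k → ZMod p) :=
    { carrier := {χ | ∑ i, algebraMap (ZMod p) K (χ i) * ξ i = 0}
      zero_mem' := by simp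
      add_mem' := by
        intro a b ha hb
        show ∑ i, algebraMap (ZMod p) K ((a + b) i) * ξ i = 0
        simp only [Pi.add_apply, map_add, add_mul, Finset.sum_add_distrib]
        rw [show ∑ i, algebraMap (ZMod p) K (a i) * ξ i = 0 from ha,
          show ∑ i, algebraMap (ZMod p) K (b i) * ξ i = 0 from hb, add_zero]
      smul_mem' := by
        intro t a ha
        show ∑ i, algebraMap (ZMod p) K ((t • a) i) * ξ i = 0
        simp only [Pi.smul_apply, smul_eq_mul, map_mul, mul_assoc]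
        rw [← Finset.mul_sum, show ∑ i, algebraMap (ZMod p) K (a i) * ξ i = 0 from ha, mul_zero] }
  refine ⟨W, ?_, ?_⟩
  · have h1 := hW W fun χ hχ => hχ
    rw [Finset.sum_range_succ']
    have h2 : ∑ n ∈ Finset.range N', β (n + 1) + β 0 = ∑ n ∈ Finset.range N', finrank (ZMod p)
          (Coh (ZMod p) (fun n => C n → ZMod p) (fun n => altd (ZMod p) face n) (n + 1)) +
        finrank (ZMod p)
          (Coh (ZMod p) (fun n => C n → ZMod p) (fun n => altd (ZMod p) face n) 0) := rfl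
    rw [← h2]
    omega
  · set r : C 0 → C 0 → Prop := fun u v => ∃ e : C 1, face 0 0 e = u ∧ face 0 1 e = v ∧
        ∀ χ : Fin k → ZMod p, (∀ g : GG p k, g • e = e → ∑ i, χ i * g.toAdd i = 0) → χ ∈ W with hr
    have hrY : ∀ e : C 1, cYc p ξ e → r (face 0 0 e) (face 0 1 e) :=
      fun e he => ⟨e, rfl, rfl, fun χ hχ => he χ hχ⟩
    have hrg : ∀ (g : GG p k) u v, r u v → r (g • u) (g • v) := by
      rintro g u v ⟨e, rfl, rfl, he⟩
      rw [← hact, ← hact]
      refine hrY (g • e) (cYc_of_smul ξ g⁻¹ _ ?_)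
      rw [inv_smul_smul]
      exact fun χ hχ => he χ hχ
    have hEg : ∀ (g : GG p k) u v, Relation.EqvGen r u v → Relation.EqvGen r (g • u) (g • v) := by
      intro g u v h
      induction h with
      | rel a b h => exact Relation.EqvGen.rel _ _ (hrg g a b h)
      | refl a => exact Relation.EqvGen.refl _
      | symm a b _ ih => exact Relation.EqvGen.symm _ _ ih
      | trans a b c _ _ ih1 ih2 => exact Relation.EqvGen.trans _ _ _ ih1 ih2
    let Z : C 0 → Prop := fun u => Relation.EqvGen r u y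
    have hZg1 : ∀ (g : GG p k) u, Z u → Z (g • u) := by
      intro g u h
      have h1 := hEg g u y h
      rw [hy g] at h1
      exact h1
    have hZg : ∀ (g : GG p k) u, Z (g • u) ↔ Z u := by
      intro g u
      refine ⟨fun h => ?_, hZg1 g u⟩
      have h1 := hZg1 g⁻¹ _ h
      rwa [inv_smul_smul] at h1
    have hZe : ∀ e : C 1, cYc p ξ e → (Z (face 0 0 e) ↔ Z (face 0 1 e)) := by
      intro e he
      have h1 : Relation.EqvGen r (face 0 0 e) (face 0 1 e) := Relation.EqvGen.rel _ _ (hrY e he)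
      exact ⟨fun h => Relation.EqvGen.trans _ _ _ (Relation.EqvGen.symm _ _ h1) h,
        fun h => Relation.EqvGen.trans _ _ _ h1 h⟩
    show Z x
    by_contra hxZ
    have h1 : ∑ τ ∈ Finset.univ.filter Z, algebraMap (ZMod p) K (∑ σ, bdc p face 0 τ σ * c σ) = 1 := by
      rw [Finset.sum_eq_single y]
      · rw [hbv, if_pos rfl, if_neg, sub_zero, map_one]
        intro hyx
        exact hxZ (hyx ▸ Relation.EqvGen.refl y)
      · intro τ hτ hτy
        rw [hbv, if_neg hτy, if_neg, sub_zero, map_zero]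
        intro hτx
        subst hτx
        exact hxZ (Finset.mem_filter.1 hτ).2
      · intro h
        have hyZ : Z y := Relation.EqvGen.refl y
        exact absurd (Finset.mem_filter.2 ⟨Finset.mem_univ _, hyZ⟩) h
    have h2 : ∑ τ ∈ Finset.univ.filter Z, ex K (bdc p face 0) d τ = 0 := by
      simp only [ex_apply]
      rw [Finset.sum_comm]
      refine Finset.sum_eq_zero fun σ _ => ?_
      by_cases hσ : cYc p ξ σ
      · rw [← Finset.sum_mul, ← map_sum]
        have h3 : ∑ τ ∈ Finset.univ.filter Z, bdc p face 0 τ σ = 0 := by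
          have h4 : ∀ i : Fin 2, ∑ τ ∈ Finset.univ.filter Z,
              (if face 0 i σ = τ then (-1 : ZMod p) ^ (i : ℕ) else 0) =
              if Z (face 0 i σ) then (-1 : ZMod p) ^ (i : ℕ) else 0 := by
            intro i
            rw [Finset.sum_ite_eq]
            simp
          show ∑ τ ∈ Finset.univ.filter Z, ∑ i : Fin 2,
            (if face 0 i σ = τ then (-1 : ZMod p) ^ (i : ℕ) else 0) = 0
          rw [Finset.sum_comm, Fin.sum_univ_two, h4, h4]
          by_cases h5 : Z (face 0 0 σ)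
          · rw [if_pos h5, if_pos ((hZe σ hσ).1 h5)]
            simp
          · rw [if_neg h5, if_neg (fun h => h5 ((hZe σ hσ).2 h)), add_zero]
        rw [h3, map_zero, zero_mul]
      · refine Finset.sum_eq_zero fun τ _ => ?_
        rw [hd0 σ hσ, mul_zero]
    have h3 := cfinish (X := C) ξ Z hZg μ
    simp only [hid] at h1
    rw [Finset.sum_add_distrib, h2, h3, add_zero] at h1
    exact zero_ne_one h1

end Pool.Agent.Helper47.FB
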