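import Pool.Agent.Helper47.FB.Base2
import Pool.Graph.R_pool_sql_team_seeded_b677cdb8.E8helper2.ZB.Pos2

/-!
# Module CNP: from semisimplicial sets to posets (helper2)
-/

set_option autoImplicit false

namespace Pool.Agent.Helper47.FB

open Module Pool.Agent.Helper381 Pool.Agent.E8helper2.ZB

namespace CNPh

/-- a vertex -/
def vt {P : Type} [PartialOrder P] {Q : Set P} (u : P) (hu : u ∈ Q) : Ch Q 0 :=
  ⟨fun _ => u, Subsingleton.strictMono (α := Fin 1) _, fun _ => hu⟩

/-- an edge -/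
def ed {P : Type} [PartialOrder P] {Q : Set P} {u v : P} (hu : u ∈ Q) (hv : v ∈ Q) (h : u < v) :
    Ch Q 1 :=
  ⟨![u, v], by
    intro i j hij
    fin_cases i <;> fin_cases j
    · exact absurd hij (lt_irrefl _)
    · exact h
    · exact absurd hij (by decide)
    · exact absurd hij (lt_irrefl _), by
    intro i
    fin_cases i
    · exact hu
    · exact hv⟩

theorem face0 {P : Type} [PartialOrder P] {Q : Set P} {u v : P} (hu : u ∈ Q) (hv : v ∈ Q)
    (h : u < v) : cface 0 0 (ed hu hv h) = vt v hv := by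
  apply Subtype.ext
  funext i
  fin_cases i
  rfl

theorem face1 {P : Type} [PartialOrder P] {Q : Set P} {u v : P} (hu : u ∈ Q) (hv : v ∈ Q)
    (h : u < v) : cface 0 1 (ed hu hv h) = vt u hu := by
  apply Subtype.ext
  funext i
  fin_cases i
  rfl

/-- the chain of a path -/
theorem path (p : ℕ) {P : Type} [PartialOrder P] {Q : Set P} [Fintype (Ch Q 1)]
    [DecidableEq (Ch Q 0)] {u v : P}
    (h : Relation.EqvGen (fun u v => u ∈ Q ∧ v ∈ Q ∧ u < v) u v) : (u ∈ Q ↔ v ∈ Q) ∧
      ∀ (hu : u ∈ Q) (hv : v ∈ Q), ∃ c : Ch Q 1 → ZMod p, ∀ τ : Ch Q 0,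
        ∑ σ : Ch Q 1, (∑ i : Fin 2, if cface 0 i σ = τ then (-1 : ZMod p) ^ (i : ℕ) else 0) * c σ =
          (if τ = vt v hv then 1 else 0) - (if τ = vt u hu then 1 else 0) := by
  classical
  induction h with
  | rel u v h =>
    obtain ⟨h1, h2, h3⟩ := h
    refine ⟨⟨fun _ => h2, fun _ => h1⟩, fun hu hv => ⟨fun σ => if σ = ed hu hv h3 then 1 else 0, ?_⟩⟩
    intro τ
    rw [Finset.sum_eq_single (ed hu hv h3)]
    · beta_reduce
      rw [if_pos rfl, mul_one, Fin.sum_univ_two, face0, face1]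
      by_cases a1 : τ = vt v hv <;> by_cases a2 : τ = vt u hu
      · simp [← a1, ← a2]
      · rw [if_pos a1.symm, if_neg (Ne.symm a2), if_pos a1, if_neg a2]
        simp
      · rw [if_neg (Ne.symm a1), if_pos a2.symm, if_neg a1, if_pos a2]
        simp
      · rw [if_neg (Ne.symm a1), if_neg (Ne.symm a2), if_neg a1, if_neg a2]
        simp
    · intro σ _ hσ
      beta_reduce
      rw [if_neg hσ, mul_zero]
    · intro hσ
      exact absurd (Finset.mem_univ _) hσ
  | refl u =>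
    refine ⟨Iff.rfl, fun hu hv => ⟨0, fun τ => ?_⟩⟩
    simp
  | symm u v _ ih =>
    refine ⟨ih.1.symm, fun hu hv => ?_⟩
    obtain ⟨c, hc⟩ := ih.2 hv hu
    refine ⟨-c, fun τ => ?_⟩
    have h1 := hc τ
    simp only [Pi.neg_apply, mul_neg, Finset.sum_neg_distrib]
    rw [h1]
    ring
  | trans u v w _ _ ih1 ih2 =>
    refine ⟨ih1.1.trans ih2.1, fun hu hw => ?_⟩
    have hv := ih1.1.1 hu
    obtain ⟨c, hc⟩ := ih1.2 hu hv
    obtain ⟨c', hc'⟩ := ih2.2 hv hw
    refine ⟨c + c', fun τ => ?_⟩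
    simp only [Pi.add_apply, mul_add, Finset.sum_add_distrib]
    rw [hc τ, hc' τ]
    ring

/-- double annihilator -/
theorem dann {p k : ℕ} [Fact p.Prime] (H : Subgroup (GG p k)) (W : Submodule (ZMod p) (Fin k → ZMod p))
    (h : ∀ χ : Fin k → ZMod p, (∀ g ∈ H, ∑ i, χ i * (Multiplicative.toAdd g) i = 0) → χ ∈ W)
    (g : GG p k) (hg : ∀ χ ∈ W, ∑ i, χ i * (Multiplicative.toAdd g) i = 0) : g ∈ H := by
  let H' : Submodule (ZMod p) (Fin k → ZMod p) :=
    AddSubgroup.toZModSubmodule p (Subgroup.toAddSubgroup' H)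
  by_contra hne
  have h1 : Multiplicative.toAdd g ∉ H' := hne
  obtain ⟨f, hf1, hf2⟩ := Submodule.exists_le_ker_of_notMem h1
  have hf : ∀ v : Fin k → ZMod p, f v = ∑ i, f (Pi.single i 1) * v i := by
    intro v
    rw [LinearMap.pi_apply_eq_sum_univ f v]
    refine Finset.sum_congr rfl fun i _ => ?_
    rw [smul_eq_mul, mul_comm]
    congr 2
    funext j
    rw [Pi.single_apply]
    by_cases hij : i = j
    · rw [if_pos hij, if_pos hij.symm]
    · rw [if_neg hij, if_neg (Ne.symm hij)]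
  have h2 : (fun i => f (Pi.single i 1)) ∈ W := h _ fun g' hg' => by
    have h3 : Multiplicative.toAdd g' ∈ H' := hg'
    have h4 : f (Multiplicative.toAdd g') = 0 := hf2 h3
    rw [hf] at h4
    exact h4
  apply hf1
  rw [hf]
  exact hg _ h2

end CNPh

open CNPh

theorem cnp (hCNA : S_CNA) : S_CNP := by
  classical
  intro p _ A _ _ hA P _ _ Q hQ hmono hmem x hx y hy hxf hyf hpath
  obtain ⟨k, ⟨e⟩⟩ := exists_equiv (p := p) A hA
  have hfin : ∀ n, Finite (Ch Q n) := finite_Ch hQ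
  let : ∀ n, Fintype (Ch Q n) := fun n => Fintype.ofFinite _
  let act : ∀ n, MulAction (GG p k) (Ch Q n) := fun n =>
    { smul := fun g c => ⟨fun i => e g • c.1 i, (hmono (e g)).comp c.2.1,
        fun i => hmem _ _ (c.2.2 i)⟩
      one_smul := fun c => Subtype.ext (funext fun i => by
        show e 1 • c.1 i = c.1 i
        rw [map_one, one_smul])
      mul_smul := fun g h c => Subtype.ext (funext fun i => by
        show e (g * h) • c.1 i = e g • e h • c.1 i
        rw [map_mul, mul_smul]) }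
  obtain ⟨c, hc⟩ := (path p hpath).2 hx hy
  obtain ⟨W, hW1, hW2⟩ := hCNA p k (Ch Q) (cface (Q := Q))
    (fun n i j c hij => cface_cface n i j c hij) (fun n i g c => rfl) (vt x hx) (vt y hy)
    (fun g => Subtype.ext (funext fun i => hxf (e g)))
    (fun g => Subtype.ext (funext fun i => hyf (e g))) c hc Q.ncard
    (fun q hq => isEmpty_Ch hQ q hq)
  -- the subgroup
  let pr : (Fin k → ZMod p) →ₗ[ZMod p] Dual (ZMod p) W :=
    W.dualRestrict ∘ₗ ((Pi.basisFun (ZMod p) (Fin k)).constr (ZMod p)).toLinearMap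
  have hpr : ∀ (v : Fin k → ZMod p) (χ : W), pr v χ = ∑ i, χ.1 i * v i := by
    intro v χ
    show ((Pi.basisFun (ZMod p) (Fin k)).constr (ZMod p) v) χ.1 = _
    rw [Basis.constr_apply_fintype]
    refine Finset.sum_congr rfl fun i _ => ?_
    simp
  let φ : A →* Multiplicative (Dual (ZMod p) W) :=
    (AddMonoidHom.toMultiplicative pr.toAddMonoidHom).comp e.symm.toMonoidHom
  have hφ : ∀ a ∈ φ.ker, ∀ χ ∈ W, ∑ i, χ i * (Multiplicative.toAdd (e.symm a)) i = 0 := by
    intro a ha χ hχ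
    have h1 : pr (Multiplicative.toAdd (e.symm a)) = 0 := ha
    rw [← hpr _ ⟨χ, hχ⟩, h1]
    rfl
  refine ⟨φ.ker, ?_, ?_⟩
  · rw [Subgroup.index_ker]
    have h1 : Nat.card φ.range ∣ Nat.card (Multiplicative (Dual (ZMod p) W)) :=
      Subgroup.card_subgroup_dvd_card _
    have h2 : Nat.card (Multiplicative (Dual (ZMod p) W)) = p ^ finrank (ZMod p) W := by
      rw [Nat.card_congr Multiplicative.toAdd, Module.natCard_eq_pow_finrank (K := ZMod p),
        Nat.card_zmod, Subspace.dual_finrank_eq]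
    rw [h2] at h1
    have h3 : finrank (ZMod p) W + 1 ≤ ∑ n ∈ Finset.range Q.ncard,
      finrank (ZMod p) (OrdCoh (ZMod p) Q n) := hW1
    exact h1.trans (pow_dvd_pow p (by omega))
  · have key : ∀ u v : Ch Q 0, Relation.EqvGen (fun u v => ∃ e : Ch Q 1, cface 0 0 e = u ∧
        cface 0 1 e = v ∧ ∀ χ : Fin k → ZMod p, (∀ g : GG p k, g • e = e →
          ∑ i, χ i * (Multiplicative.toAdd g) i = 0) → χ ∈ W) u v →
        Relation.EqvGen (fun u v => u ∈ Q ∧ v ∈ Q ∧ u < v ∧
          ∀ b ∈ φ.ker, b • u = u ∧ b • v = v) (u.1 0) (v.1 0) := by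
      intro u v h
      induction h with
      | rel u v h =>
        obtain ⟨ε, rfl, rfl, h3⟩ := h
        refine Relation.EqvGen.symm _ _ (Relation.EqvGen.rel _ _ ?_)
        refine ⟨ε.2.2 0, ε.2.2 1, ε.2.1 (by decide), fun b hb => ?_⟩
        have h4 : e.symm b ∈ MulAction.stabilizer (GG p k) ε :=
          dann _ W (fun χ hχ => h3 χ fun g hg => hχ g hg) _ (hφ b hb)
        have h5 : e.symm b • ε = ε := h4
        have h6 : ∀ i, e (e.symm b) • ε.1 i = ε.1 i := fun i =>
          congrArg (fun c : Ch Q 1 => c.1 i) h5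
        rw [e.apply_symm_apply] at h6
        exact ⟨h6 0, h6 1⟩
      | refl u => exact Relation.EqvGen.refl _
      | symm u v _ ih => exact Relation.EqvGen.symm _ _ ih
      | trans u v w _ _ ih1 ih2 => exact Relation.EqvGen.trans _ _ _ ih1 ih2
    exact key _ _ hW2

end Pool.Agent.Helper47.FB
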