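import Pool.Agent.Helper47.FB.Base

/-!
# The core: powers of Frobenius groups acting on closed manifolds
-/

set_option autoImplicit false

namespace Pool.Agent.Helper47.FB

open Module Pool.Agent.Helper381 Pool.Agent.H185.ZM Pool.Agent.Helper47.ZQ Matrix
  Pool.Agent.X183.ZM
open scoped Manifold ContDiff Topology

theorem card_map_le {G G' : Type} [Group G] [Group G'] [Finite G] (f : G →* G')
    (H : Subgroup G) : Nat.card f.range ≤ Nat.card (H.map f) * H.index := by
  have h1 : (H.map f.rangeRestrict).index ∣ H.index :=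
    H.index_map_dvd f.rangeRestrict_surjective
  have h2 := (H.map f.rangeRestrict).card_mul_index
  have h3 : H.index ≠ 0 := Subgroup.index_ne_zero_of_finite
  have h4 : Nat.card (H.map f.rangeRestrict) = Nat.card (H.map f) := by
    have h5 : (H.map f.rangeRestrict).map f.range.subtype = H.map f := by
      rw [Subgroup.map_map]
      rfl
    rw [← h5]
    exact (Nat.card_congr (Subgroup.equivMapOfInjective _ _
      f.range.subtype_injective).toEquiv)
  rw [← h2, h4]
  exact Nat.mul_le_mul_left _ (Nat.le_of_dvd (Nat.pos_of_ne_zero h3) h1)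

variable {E : Type} [NormedAddCommGroup E] [NormedSpace ℝ E] [FiniteDimensional ℝ E]
  {M : Type} [TopologicalSpace M] [ChartedSpace E M] [IsManifold 𝓘(ℝ, E) ∞ M]

/-- **Core.** -/
theorem cor (hG : S_GEO) (hR : S_RPW) (hC : S_CMB) [CompactSpace M] [T2Space M]
    [ConnectedSpace M] {p k n : ℕ} [Fact p.Prime] {P : Type} [Group P] [Finite P]
    (j : Multiplicative (Fin n → ZMod p) →* P) (hj : Function.Injective j)
    (π : P →* (Fin n → (ZMod p)ˣ))
    (hπ : ∀ (g : P) (v : Fin n → ZMod p), g * j (Multiplicative.ofAdd v) * g⁻¹ =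
      j (Multiplicative.ofAdd (fun i => (π g i : ZMod p) * v i)))
    (U : Subgroup (ZMod p)ˣ) (hU : Nat.card U = k) (hk : Odd k) (hk1 : 1 < k)
    (hπU : ∀ g i, π g i ∈ U) (N c : ℕ) (hN : k ^ n ≤ Nat.card π.range * N)
    {a : P → M → M} (ha : SmoothAction E a) (hχ : ¬ (p : ℤ) ∣ eulerChar M)
    (hNB : N * (totalBetti (ZMod p) M).toNat < k.minFac ^ (c + 1))
    (hdim : finrank ℝ E + 2 * k * c < 2 * k * n) :
    ∃ v : Fin n → ZMod p, v ≠ 0 ∧ ∀ x, a (j (Multiplicative.ofAdd v)) x = x := by
  classical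
  by_contra hcon
  push Not at hcon
  have hpow : ∀ a : Multiplicative (Fin n → ZMod p), a ^ p = 1 := by
    intro a
    apply Multiplicative.toAdd.injective
    rw [toAdd_pow, toAdd_one]
    funext i
    simp
  obtain ⟨H, V, _, _, _, ρ, hH, hV, hker, htr⟩ := hG E M p P (Multiplicative (Fin n → ZMod p)) j
    hj hpow (fun g v => Multiplicative.ofAdd (fun i => (π g i : ZMod p) * Multiplicative.toAdd v i))
    (fun g v => hπ g (Multiplicative.toAdd v)) a ha hχ
  obtain ⟨S, hS1, hS0, hSn, hSs, hSu⟩ := hR p n V ρ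
  have h1 := hC p k n U hU hk hk1 (H.map π) (by
    rintro _ ⟨h, _, rfl⟩ i
    exact hπU h i) (N * (totalBetti (ZMod p) M).toNat) c (by
      calc k ^ n ≤ Nat.card π.range * N := hN
        _ ≤ (Nat.card (H.map π) * H.index) * N := Nat.mul_le_mul_right _ (card_map_le π H)
        _ ≤ (Nat.card (H.map π) * (totalBetti (ZMod p) M).toNat) * N :=
          Nat.mul_le_mul_right _ (Nat.mul_le_mul_left _ hH)
        _ = _ := by ring) hNB S hS0 hSn (by
      rintro _ ⟨h, hh, rfl⟩ w hw
      exact hSu (π h) (fun v => htr h hh (Multiplicative.ofAdd v)) w hw) (by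
      intro v hv
      by_contra hv0
      obtain ⟨x, hx⟩ := hcon v hv0
      exact hx (hker _ (hSs v hv) x))
  rw [hV] at hS1
  omega

end Pool.Agent.Helper47.FB
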