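import Pool.Agent.Helper47.FB.Cor

/-!
# The elementary abelian group `(z ^ v_i)_i`
-/

set_option autoImplicit false

namespace Pool.Agent.Helper47.FB

open Module Pool.Agent.Helper381 Pool.Agent.H185.ZM Pool.Agent.Helper47.ZQ Matrix
  Pool.Agent.X183.ZM
open scoped Manifold ContDiff Topology

variable {F : Type} [Group F] {p k : ℕ} {z : F} {c : F →* (ZMod p)ˣ}

theorem Frob.pow_cast (h : Frob p k z c) (m : ℕ) : z ^ m = z ^ ((m : ZMod p)).val := by
  have := Fact.mk h.prime
  rw [ZMod.val_natCast, ← h.ord, pow_mod_orderOf]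

theorem Frob.pow_add (h : Frob p k z c) (a b : ZMod p) : z ^ (a + b).val = z ^ a.val * z ^ b.val := by
  have := Fact.mk h.prime
  rw [← _root_.pow_add, h.pow_cast (a.val + b.val)]
  push_cast
  rw [ZMod.natCast_zmod_val, ZMod.natCast_zmod_val]

theorem Frob.pow_inj (h : Frob p k z c) {a b : ZMod p} (hab : z ^ a.val = z ^ b.val) : a = b := by
  have := Fact.mk h.prime
  have h1 := pow_inj_mod.1 hab
  rw [h.ord, Nat.mod_eq_of_lt (ZMod.val_lt a), Nat.mod_eq_of_lt (ZMod.val_lt b)] at h1
  exact ZMod.val_injective p h1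

/-- the embedding of `(ℤ/p) ^ n` -/
def jo (h : Frob p k z c) (n : ℕ) : Multiplicative (Fin n → ZMod p) →* (Fin n → F) where
  toFun v := iv z (Multiplicative.toAdd v)
  map_one' := by
    have := Fact.mk h.prime
    funext i
    show z ^ ((0 : ZMod p)).val = 1
    rw [ZMod.val_zero, pow_zero]
  map_mul' v w := by
    funext i
    exact h.pow_add _ _

theorem jo_apply (h : Frob p k z c) (n : ℕ) (v : Fin n → ZMod p) :
    jo h n (Multiplicative.ofAdd v) = iv z v := rfl

theorem jo_inj (h : Frob p k z c) (n : ℕ) : Function.Injective (jo h n) := by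
  intro v w hvw
  apply Multiplicative.toAdd.injective
  funext i
  exact h.pow_inj (congrFun hvw i)

theorem jo_conj (h : Frob p k z c) {n : ℕ} (g : Fin n → F) (v : Fin n → ZMod p) :
    g * iv z v * g⁻¹ = iv z (fun i => (c (g i) : ZMod p) * v i) := by
  have := Fact.mk h.prime
  funext i
  show g i * z ^ (v i).val * (g i)⁻¹ = z ^ ((c (g i) : ZMod p) * v i).val
  have h1 : g i * z ^ (v i).val * (g i)⁻¹ = (g i * z * (g i)⁻¹) ^ (v i).val := conj_pow.symm
  rw [h1, h.conj, ← pow_mul, h.pow_cast]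
  congr 1
  push_cast
  rw [ZMod.natCast_zmod_val, ZMod.natCast_zmod_val]

theorem card_compLeft [Finite F] (h : Frob p k z c) (n : ℕ) :
    Nat.card (MonoidHom.compLeft c (Fin n)).range = k ^ n := by
  have := Fact.mk h.prime
  have e : (MonoidHom.compLeft c (Fin n)).range ≃ (Fin n → c.range) :=
    { toFun := fun x i => ⟨(x : Fin n → (ZMod p)ˣ) i, by
        obtain ⟨g, hg⟩ := x.2
        exact ⟨g i, congrFun hg i⟩⟩
      invFun := fun y => ⟨fun i => (y i : (ZMod p)ˣ), by
        choose g hg using fun i => (y i).2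
        exact ⟨g, funext hg⟩⟩
      left_inv := fun x => rfl
      right_inv := fun y => rfl }
  rw [Nat.card_congr e, Nat.card_fun, h.card, Nat.card_eq_fintype_card, Fintype.card_fin]

variable {E : Type} [NormedAddCommGroup E] [NormedSpace ℝ E] [FiniteDimensional ℝ E]
  {M : Type} [TopologicalSpace M] [ChartedSpace E M] [IsManifold 𝓘(ℝ, E) ∞ M]

/-- the core for a subgroup `Q` of `F ^ n` -/
theorem sub (hG : S_GEO) (hR : S_RPW) (hC : S_CMB) [CompactSpace M] [T2Space M]
    [ConnectedSpace M] [Finite F] (h : Frob p k z c) {n : ℕ} (Q : Subgroup (Fin n → F))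
    (hQ : ∀ v : Fin n → ZMod p, iv z v ∈ Q) (N C : ℕ)
    (hN : k ^ n ≤ Nat.card (Q.map (MonoidHom.compLeft c (Fin n))) * N)
    {a : Q → M → M} (ha : SmoothAction E a) (hχ : ¬ (p : ℤ) ∣ eulerChar M)
    (hNB : haveI := Fact.mk h.prime; N * (totalBetti (ZMod p) M).toNat < k.minFac ^ (C + 1))
    (hdim : finrank ℝ E + 2 * k * C < 2 * k * n) :
    ∃ v : Fin n → ZMod p, v ≠ 0 ∧ ∀ x, a ⟨iv z v, hQ v⟩ x = x := by
  haveI := Fact.mk h.prime
  let j : Multiplicative (Fin n → ZMod p) →* Q := (jo h n).codRestrict Q fun v => hQ _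
  have hj : Function.Injective j := by
    intro v w hvw
    exact jo_inj h n (congrArg Subtype.val hvw)
  refine cor hG hR hC j hj ((MonoidHom.compLeft c (Fin n)).comp Q.subtype) ?_ c.range h.card h.odd
    h.one_lt (fun g i => ⟨(g : Fin n → F) i, rfl⟩) N C ?_ ha hχ hNB hdim
  · intro g v
    apply Subtype.ext
    exact jo_conj h (g : Fin n → F) v
  · rw [MonoidHom.range_comp, Subgroup.range_subtype]
    exact hN

end Pool.Agent.Helper47.FB
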