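import Pool.Agent.Helper47.FB.Base2
import Pool.Agent.Helper47.FB.Emb

/-!
# The core for arbitrary closed manifolds
-/

set_option autoImplicit false

namespace Pool.Agent.Helper47.FB

open Module Pool.Agent.Helper381 Pool.Agent.H185.ZM Pool.Agent.Helper47.ZQ Matrix
  Pool.Agent.X183.ZM Pool.Agent.E8helper2.ZB
open scoped Manifold ContDiff Topology

variable {E : Type} [NormedAddCommGroup E] [NormedSpace ℝ E] [FiniteDimensional ℝ E]
  {M : Type} [TopologicalSpace M] [ChartedSpace E M] [IsManifold 𝓘(ℝ, E) ∞ M]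

/-- **Core.** If `A` is elementary abelian of rank `n` and `s` acts on it by `v ↦ v ^ m`, `m` of odd
order `k` modulo `p`, and `dim M + 2 k (2 (β - 1)) < 2 k n`, then some `v ≠ 1` acts trivially. -/
theorem co2 (hG : S_GE2) (hR : S_RPW) (hP : S_SPN) [CompactSpace M] [T2Space M]
    [ConnectedSpace M] {p k n m : ℕ} [Fact p.Prime] (hp2 : p ≠ 2) {P A : Type} [Group P] [Finite P]
    [CommGroup A] (j : A →* P) (hj : Function.Injective j) (hA : ∀ a : A, a ^ p = 1)
    (hcard : Nat.card A = p ^ n) (s : P) (hs : ∀ v, s * j v * s⁻¹ = j (v ^ m)) (um : (ZMod p)ˣ)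
    (hum : (um : ZMod p) = m) (hord : orderOf um = k) (hk : Odd k)
    {a : P → M → M} (ha : SmoothAction E a)
    (hdim : finrank ℝ E + 2 * k * (2 * ((totalBetti (ZMod p) M).toNat - 1)) < 2 * k * n) :
    ∃ v : A, v ≠ 1 ∧ ∀ x, a (j v) x = x := by
  classical
  by_contra hcon
  push Not at hcon
  have hfinA : Finite A := Finite.of_injective j hj
  obtain ⟨B, V, _, _, _, ρ, hB, hV, hker, htr⟩ := hG E M p P A j hj hA s m hs a ha
  obtain ⟨r, ⟨e⟩⟩ := exists_equiv (p := p) B (fun b => Subtype.ext (hA b))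
  have hcB : Nat.card B = p ^ r := by
    rw [← Nat.card_congr e.toEquiv, Nat.card_congr Multiplicative.toAdd, Nat.card_fun,
      Nat.card_zmod, Nat.card_fin]
  have hnr : n ≤ r + 2 * ((totalBetti (ZMod p) M).toNat - 1) := by
    have h1 := B.card_mul_index
    have h2 : p ^ n ∣ p ^ (r + 2 * ((totalBetti (ZMod p) M).toNat - 1)) := by
      rw [← hcard, ← h1, hcB, _root_.pow_add]
      exact mul_dvd_mul_left _ hB
    exact (Nat.pow_dvd_pow_iff_le_right (Fact.out : p.Prime).one_lt).1 h2
  obtain ⟨S, hS1, hS0, hSn, hSs, hSu⟩ := hR p r V (ρ.comp e.toMonoidHom)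
  have h1 := hP p r k um hord hk hp2 S hS0 hSn (fun w hw => hSu (fun _ => um) (fun v => by
      have h2 : (Multiplicative.ofAdd (fun i => (um : ZMod p) * v i) :
          Multiplicative (Fin r → ZMod p)) = (Multiplicative.ofAdd v) ^ m := by
        rw [← ofAdd_nsmul]
        congr 1
        funext i
        rw [Pi.smul_apply, nsmul_eq_mul, hum]
      rw [h2]
      show LinearMap.trace ℝ V (ρ (e ((Multiplicative.ofAdd v) ^ m))) =
        LinearMap.trace ℝ V (ρ (e (Multiplicative.ofAdd v)))
      rw [map_pow]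
      exact htr _) w hw) (by
      intro v hv
      have h2 := hSs v hv
      have h3 : ρ (e (Multiplicative.ofAdd v)) = 1 := h2
      by_contra hv0
      have h4 : ((e (Multiplicative.ofAdd v) : B) : A) ≠ 1 := by
        intro h5
        apply hv0
        have h6 : e (Multiplicative.ofAdd v) = 1 := Subtype.ext h5
        have h7 : (Multiplicative.ofAdd v : Multiplicative (Fin r → ZMod p)) = 1 := by
          apply e.injective
          rw [h6, map_one]
        exact h7
      obtain ⟨x, hx⟩ := hcon _ h4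
      exact hx (hker _ h3 x))
  rw [hV] at hS1
  have h2 : 2 * k * n ≤ 2 * k * r + 2 * k * (2 * ((totalBetti (ZMod p) M).toNat - 1)) := by
    rw [← Nat.mul_add]
    exact Nat.mul_le_mul_left _ hnr
  omega

variable {F : Type} [Group F] {p k : ℕ} {z : F} {c : F →* (ZMod p)ˣ}

/-- a generator of the image of `c` -/
theorem Frob.exists_gen (h : Frob p k z c) : ∃ t : F, orderOf (c t) = k := by
  haveI := Fact.mk h.prime
  obtain ⟨g, hg⟩ := IsCyclic.exists_generator (α := c.range)
  obtain ⟨t, ht⟩ := g.2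
  refine ⟨t, ?_⟩
  rw [ht, Subgroup.orderOf_coe, orderOf_eq_card_of_forall_mem_zpowers hg, h.card]

/-- the core for a subgroup `Q` of `F ^ N` -/
theorem sub2 (hG : S_GE2) (hR : S_RPW) (hP : S_SPN) [CompactSpace M] [T2Space M]
    [ConnectedSpace M] [Finite F] (h : Frob p k z c) (hp2 : p ≠ 2) {N n : ℕ}
    (Q : Subgroup (Fin N → F))
    (ι : (Fin n → ZMod p) →+ (Fin N → ZMod p)) (hι : Function.Injective ι)
    (hQ : ∀ v, iv z (ι v) ∈ Q) (t : F) (ht : orderOf (c t) = k) (s : Fin N → F) (hsQ : s ∈ Q)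
    (hs : ∀ v i, (c (s i) : ZMod p) * ι v i = (c t : ZMod p) * ι v i)
    {a : Q → M → M} (ha : SmoothAction E a)
    (hdim : haveI := Fact.mk h.prime
      finrank ℝ E + 2 * k * (2 * ((totalBetti (ZMod p) M).toNat - 1)) < 2 * k * n) :
    ∃ v : Fin n → ZMod p, v ≠ 0 ∧ ∀ x, a ⟨iv z (ι v), hQ v⟩ x = x := by
  haveI := Fact.mk h.prime
  let j : Multiplicative (Fin n → ZMod p) →* Q :=
    ((jo h N).comp (AddMonoidHom.toMultiplicative ι)).codRestrict Q fun v => hQ _
  have hj : Function.Injective j := by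
    intro v w hvw
    have h1 := jo_inj h N (congrArg Subtype.val hvw)
    exact Multiplicative.toAdd.injective (hι h1)
  have hpow : ∀ a : Multiplicative (Fin n → ZMod p), a ^ p = 1 := by
    intro a
    apply Multiplicative.toAdd.injective
    rw [toAdd_pow, toAdd_one]
    funext i
    simp
  have hcard : Nat.card (Multiplicative (Fin n → ZMod p)) = p ^ n := by
    rw [Nat.card_congr Multiplicative.toAdd, Nat.card_fun, Nat.card_zmod, Nat.card_fin]
  obtain ⟨v, hv, hx⟩ := co2 (n := n) (m := (c t : ZMod p).val) hG hR hP hp2 j hj hpow hcard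
    (⟨s, hsQ⟩ : Q) (by
      intro v
      apply Subtype.ext
      show s * iv z (ι (Multiplicative.toAdd v)) * s⁻¹ =
        (jo h N) (Multiplicative.ofAdd (ι (Multiplicative.toAdd (v ^ (c t : ZMod p).val))))
      rw [jo_conj h, jo_apply]
      congr 1
      funext i
      rw [hs, toAdd_pow, map_nsmul, Pi.smul_apply, nsmul_eq_mul, ZMod.natCast_zmod_val])
    (c t) (by rw [ZMod.natCast_zmod_val]) ht h.odd ha hdim
  exact ⟨Multiplicative.toAdd v, fun h0 => hv (Multiplicative.toAdd.injective h0), hx⟩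

end Pool.Agent.Helper47.FB
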