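import Pool.Agent.Helper47.FB.Base

/-!
# Module ELB: the elementary group acts trivially if its congruence part modulo `p` does
-/

set_option autoImplicit false

namespace Pool.Agent.Helper47.FB

open Module Pool.Agent.H185.ZM Pool.Agent.Helper47.ZQ Matrix Pool.Agent.X183.ZM
open scoped Manifold ContDiff

/-- the lifts of a matrix with entries modulo `p` to the block matrix with entries `0, …, p - 1` -/
def elbB (p n k : ℕ) (O : Type) [Ring O] (c : Fin k × Fin k → Multiplicative (ZMod p)) :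
    Matrix (Fin n) (Fin n) O :=
  Matrix.of fun i j => if h : (i : ℕ) < k ∧ k ≤ (j : ℕ) ∧ (j : ℕ) - k < k then
    (((Multiplicative.toAdd (c (⟨i, h.1⟩, ⟨j - k, h.2.2⟩))).val : ℕ) : O) else 0

theorem elbB_bl {O : Type} [Ring O] (p n k : ℕ) (c : Fin k × Fin k → Multiplicative (ZMod p)) :
    IsBl k (elbB p n k O c) := by
  intro i j h
  rw [elbB, Matrix.of_apply] at h
  split_ifs at h with h1
  · exact ⟨h1.1, h1.2.1⟩
  · exact absurd rfl h

theorem elbB_one {O : Type} [Ring O] (p n k : ℕ) : elbB p n k O 1 = 0 := by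
  ext i j
  rw [elbB, Matrix.of_apply]
  split_ifs with h1
  · simp
  · rfl

theorem elbB_mul {O : Type} [Ring O] (p : ℕ) [Fact p.Prime] (n k : ℕ)
    (c d : Fin k × Fin k → Multiplicative (ZMod p)) :
    ∃ C : Matrix (Fin n) (Fin n) O, IsBl k C ∧ (∀ i j, ∃ x, C i j = (p : O) * x) ∧
      elbB p n k O c + elbB p n k O d = elbB p n k O (c * d) + C := by
  refine ⟨elbB p n k O c + elbB p n k O d - elbB p n k O (c * d), ?_, ?_, by abel⟩
  · intro i j h
    by_contra hcon
    apply h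
    have h1 : ∀ c : Fin k × Fin k → Multiplicative (ZMod p), elbB p n k O c i j = 0 := by
      intro c
      by_contra h2
      exact hcon (elbB_bl p n k c i j h2)
    rw [Matrix.sub_apply, Matrix.add_apply, h1, h1, h1]
    simp
  · intro i j
    rw [Matrix.sub_apply, Matrix.add_apply, elbB, elbB, elbB, Matrix.of_apply, Matrix.of_apply,
      Matrix.of_apply]
    split_ifs with h1
    · set x := Multiplicative.toAdd (c (⟨i, h1.1⟩, ⟨j - k, h1.2.2⟩)) with hx
      set y := Multiplicative.toAdd (d (⟨i, h1.1⟩, ⟨j - k, h1.2.2⟩)) with hy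
      refine ⟨(((x.val + y.val) / p : ℕ) : O), ?_⟩
      have h2 : Multiplicative.toAdd ((c * d) (⟨i, h1.1⟩, ⟨j - k, h1.2.2⟩)) = x + y := rfl
      have h3 : x.val + y.val = (x + y).val + p * ((x.val + y.val) / p) := by
        rw [ZMod.val_add, Nat.mod_add_div]
      rw [h2, ← Nat.cast_add, h3, Nat.cast_add, Nat.cast_mul, add_sub_cancel_left, ← h3]
    · exact ⟨0, by simp⟩

theorem elb : S_ELB := by
  intro E _ _ _ M _ _ _ _ _ _ O _ p _ n hp2 hn Γ hΓ α hα hE hχ hdim g hg x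
  have hp : p.Prime := Fact.out
  set N : Subgroup (Matrix (Fin n) (Fin n) O)ˣ := (actKer hα.action).map Γ.subtype with hNd
  have hmem : ∀ g, g ∈ N ↔ ∃ h : g ∈ Γ, ∀ x, α ⟨g, h⟩ x = x := by
    intro g
    constructor
    · rintro ⟨γ, hγ, rfl⟩
      exact ⟨γ.2, hγ⟩
    · rintro ⟨h, h1⟩
      exact ⟨⟨g, h⟩, h1, rfl⟩
  have hEN : ZQ.ENorm N := by
    rintro g ⟨γ, hγ, rfl⟩ i j h x
    have h1 : El i j h x ∈ Γ := hΓ (El_mem h x)
    have h2 : (actKer hα.action).Normal := inferInstance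
    have h3 := h2.conj_mem γ hγ (⟨El i j h x, h1⟩ : Γ)
    exact ⟨_, h3, rfl⟩
  -- the block group
  have hB : ∀ c, UB (elbB p n (n / 2) O c) (elbB_bl p n (n / 2) c) ∈ Γ := fun c =>
    gen' Γ Set.univ (Set.mem_univ _) (fun i j hij y _ => hΓ (El_mem hij y)) _ _ fun _ _ =>
      Set.mem_univ _
  let a : (Fin (n / 2) × Fin (n / 2) → Multiplicative (ZMod p)) → M → M := fun c =>
    α ⟨UB (elbB p n (n / 2) O c) (elbB_bl p n (n / 2) c), hB c⟩
  have ha : SmoothAction E a :=
    { one := fun x => by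
        show α ⟨UB (elbB p n (n / 2) O 1) (elbB_bl p n (n / 2) 1), hB 1⟩ x = x
        have h4 : (⟨UB (elbB p n (n / 2) O 1) (elbB_bl p n (n / 2) 1), hB 1⟩ : Γ) = 1 := by
          apply Subtype.ext
          apply Units.ext
          rw [UB_val, elbB_one]
          simp
        rw [h4]
        exact hα.action.one x
      mul := fun c d x => by
        obtain ⟨C, hC, hC2, hCe⟩ := elbB_mul (O := O) p n (n / 2) c d
        have hCN : UB C hC ∈ N := by
          refine gen' N {y | ∃ x, y = (p : O) * x} ⟨0, by simp⟩ ?_ C hC hC2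
          rintro i j hij y ⟨x, rfl⟩
          exact (hmem _).2 ⟨hΓ (El_mem hij _), fun y => hE i j hij x y⟩
        obtain ⟨hCΓ, hCx⟩ := (hmem _).1 hCN
        have h4 : (⟨UB (elbB p n (n / 2) O c) (elbB_bl p n (n / 2) c), hB c⟩ : Γ) *
            ⟨UB (elbB p n (n / 2) O d) (elbB_bl p n (n / 2) d), hB d⟩ =
            ⟨UB (elbB p n (n / 2) O (c * d)) (elbB_bl p n (n / 2) (c * d)), hB (c * d)⟩ *
              ⟨UB C hC, hCΓ⟩ := by
          apply Subtype.ext
          show UB _ (elbB_bl p n (n / 2) c) * UB _ (elbB_bl p n (n / 2) d) =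
            UB _ (elbB_bl p n (n / 2) (c * d)) * UB C hC
          rw [← UB_add, ← UB_add]
          apply Units.ext
          rw [UB_val, UB_val, hCe]
        show α ⟨UB (elbB p n (n / 2) O (c * d)) (elbB_bl p n (n / 2) (c * d)), hB (c * d)⟩ x =
          α ⟨UB (elbB p n (n / 2) O c) (elbB_bl p n (n / 2) c), hB c⟩
            (α ⟨UB (elbB p n (n / 2) O d) (elbB_bl p n (n / 2) d), hB d⟩ x)
        rw [← hα, h4, hα, hCx]
      smooth := fun c => (α _).contMDiff }
  have hpow : ∀ x : Fin (n / 2) × Fin (n / 2) → Multiplicative (ZMod p), x ^ p = 1 := by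
    intro x
    funext i
    show (x i) ^ p = 1
    rw [← ofAdd_toAdd (x i), ← ofAdd_nsmul, ← ofAdd_zero]
    congr 1
    rw [nsmul_eq_mul, ZMod.natCast_self, zero_mul]
  have hdv := prime_dvd_ker hp hp2 hpow ha
  have hker : actKer ha ≠ ⊥ := by
    intro hbot
    rw [hbot, Subgroup.card_bot] at hdv
    have hc : Nat.card (Fin (n / 2) × Fin (n / 2) → Multiplicative (ZMod p)) =
        p ^ ((n / 2) * (n / 2)) := by
      have h5 : Nat.card (Multiplicative (ZMod p)) = p :=
        (Nat.card_congr Multiplicative.toAdd).trans (Nat.card_zmod p)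
      rw [Nat.card_fun, h5]
      congr 1
      simp
    rw [hc] at hdv
    have h6 : (p : ℤ) ^ (finrank ℝ E / 2) * p ∣
        (p : ℤ) ^ (finrank ℝ E / 2) * Pool.Agent.Helper381.eulerChar M := by
      refine dvd_trans ?_ (by simpa using hdv)
      rw [← pow_succ]
      exact pow_dvd_pow _ hdim
    exact hχ (Int.dvd_of_mul_dvd_mul_left (pow_ne_zero _ (by exact_mod_cast hp.ne_zero)) h6)
  obtain ⟨c, hc, hc2⟩ : ∃ c ∈ actKer ha, c ≠ 1 := by
    by_contra hcon
    push Not at hcon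
    exact hker ((Subgroup.eq_bot_iff_forall _).2 hcon)
  obtain ⟨⟨r, s⟩, hrs⟩ := Function.ne_iff.1 hc2
  have hrs' : Multiplicative.toAdd (c (r, s)) ≠ 0 := fun h => hrs (by
    rw [← ofAdd_toAdd (c (r, s)), h]
    rfl)
  set t : ℕ := ((Multiplicative.toAdd (c (r, s)))⁻¹ : ZMod p).val with ht
  have hc3 : c ^ t ∈ actKer ha := pow_mem hc t
  have hc4 : (Multiplicative.toAdd ((c ^ t) (r, s))).val = 1 := by
    have h1 : Multiplicative.toAdd ((c ^ t) (r, s)) = 1 := by
      show Multiplicative.toAdd ((c (r, s)) ^ t) = 1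
      rw [toAdd_pow, nsmul_eq_mul, ht, ZMod.natCast_zmod_val, inv_mul_cancel₀ hrs']
    rw [h1]
    exact ZMod.val_one p
  have hX : UB (elbB p n (n / 2) O (c ^ t)) (elbB_bl p n (n / 2) (c ^ t)) ∈ N :=
    (hmem _).2 ⟨hB _, hc3⟩
  have hr := r.2
  have hs' := s.2
  have hall := all_of_block (by omega) (by omega) hEN _ (elbB_bl p n (n / 2) (c ^ t)) hX
    (k := ⟨r, by omega⟩) (l := ⟨n / 2 + s, by omega⟩) hr (Nat.le_add_right _ _) (by
      have h8 : (r : ℕ) < n / 2 ∧ n / 2 ≤ n / 2 + (s : ℕ) ∧ n / 2 + (s : ℕ) - n / 2 < n / 2 :=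
        ⟨hr, by omega, by omega⟩
      rw [elbB, Matrix.of_apply]
      rw [dif_pos h8]
      have h9 : (⟨n / 2 + (s : ℕ) - n / 2, h8.2.2⟩ : Fin (n / 2)) = s := by
        apply Fin.ext
        show n / 2 + (s : ℕ) - n / 2 = s
        omega
      show (((Multiplicative.toAdd (((c ^ t : Fin (n / 2) × Fin (n / 2) →
        Multiplicative (ZMod p)))
        (⟨r, h8.1⟩, ⟨n / 2 + (s : ℕ) - n / 2, h8.2.2⟩))).val : ℕ) : O) = 1
      rw [h9]
      rw [show (⟨(r : ℕ), h8.1⟩ : Fin (n / 2)) = r from rfl, hc4]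
      simp)
  have hle : EL n O ≤ N := by
    rw [EL, Subgroup.closure_le]
    rintro _ ⟨i, j, hij, y, rfl⟩
    exact hall i j hij y
  exact ((hmem g).1 (hle hg)).2 x

end Pool.Agent.Helper47.FB
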