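import Pool.Agent.Helper47.FB.Base2
import Pool.Agent.Helper47.FB.Elb

/-!
# Module EL2 (helper23, after Elb): the elementary group acts trivially if its congruence part modulo `p` does,
for arbitrary closed manifolds
-/

set_option autoImplicit false

namespace Pool.Agent.Helper47.FB

open Module Pool.Agent.Helper381 Pool.Agent.H185.ZM Pool.Agent.Helper47.ZQ Matrix Pool.Agent.X183.ZM
open scoped Manifold ContDiff

theorem el2 : S_EL2 := by
  intro E _ _ _ M _ _ _ _ _ _ O _ p _ n hp2 hn Γ hΓ α hα hE hdim g hg x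
  have hp : p.Prime := Fact.out
  set N : Subgroup (Matrix (Fin n) (Fin n) O)ˣ := (actKer hα.action).map Γ.subtype with hNd
  have hmem : ∀ g, g ∈ N ↔ ∃ h : g ∈ Γ, ∀ x, α ⟨g, h⟩ x = x := by
    intro g
    constructor
    · rintro ⟨γ, hγ, rfl⟩
      exact ⟨γ.2, hγ⟩
    · rintro ⟨h, h1⟩
      exact ⟨⟨g, h⟩, h1, rfl⟩
  have hEN : ZQ.ENorm N := by
    rintro g ⟨γ, hγ, rfl⟩ i j h x
    have h1 : El i j h x ∈ Γ := hΓ (El_mem h x)
    have h2 : (actKer hα.action).Normal := inferInstance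
    have h3 := h2.conj_mem γ hγ (⟨El i j h x, h1⟩ : Γ)
    exact ⟨_, h3, rfl⟩
  -- the block group
  have hB : ∀ c, UB (elbB p n (n / 2) O c) (elbB_bl p n (n / 2) c) ∈ Γ := fun c =>
    gen' Γ Set.univ (Set.mem_univ _) (fun i j hij y _ => hΓ (El_mem hij y)) _ _ fun _ _ =>
      Set.mem_univ _
  let a : (Fin (n / 2) × Fin (n / 2) → Multiplicative (ZMod p)) → M → M := fun c =>
    α ⟨UB (elbB p n (n / 2) O c) (elbB_bl p n (n / 2) c), hB c⟩
  have ha : SmoothAction E a :=
    { one := fun x => by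
        show α ⟨UB (elbB p n (n / 2) O 1) (elbB_bl p n (n / 2) 1), hB 1⟩ x = x
        have h4 : (⟨UB (elbB p n (n / 2) O 1) (elbB_bl p n (n / 2) 1), hB 1⟩ : Γ) = 1 := by
          apply Subtype.ext
          apply Units.ext
          rw [UB_val, elbB_one]
          simp
        rw [h4]
        exact hα.action.one x
      mul := fun c d x => by
        obtain ⟨C, hC, hC2, hCe⟩ := elbB_mul (O := O) p n (n / 2) c d
        have hCN : UB C hC ∈ N := by
          refine gen' N {y | ∃ x, y = (p : O) * x} ⟨0, by simp⟩ ?_ C hC hC2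
          rintro i j hij y ⟨x, rfl⟩
          exact (hmem _).2 ⟨hΓ (El_mem hij _), fun y => hE i j hij x y⟩
        obtain ⟨hCΓ, hCx⟩ := (hmem _).1 hCN
        have h4 : (⟨UB (elbB p n (n / 2) O c) (elbB_bl p n (n / 2) c), hB c⟩ : Γ) *
            ⟨UB (elbB p n (n / 2) O d) (elbB_bl p n (n / 2) d), hB d⟩ =
            ⟨UB (elbB p n (n / 2) O (c * d)) (elbB_bl p n (n / 2) (c * d)), hB (c * d)⟩ *
              ⟨UB C hC, hCΓ⟩ := by
          apply Subtype.ext
          show UB _ (elbB_bl p n (n / 2) c) * UB _ (elbB_bl p n (n / 2) d) =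
            UB _ (elbB_bl p n (n / 2) (c * d)) * UB C hC
          rw [← UB_add, ← UB_add]
          apply Units.ext
          rw [UB_val, UB_val, hCe]
        show α ⟨UB (elbB p n (n / 2) O (c * d)) (elbB_bl p n (n / 2) (c * d)), hB (c * d)⟩ x =
          α ⟨UB (elbB p n (n / 2) O c) (elbB_bl p n (n / 2) c), hB c⟩
            (α ⟨UB (elbB p n (n / 2) O d) (elbB_bl p n (n / 2) d), hB d⟩ x)
        rw [← hα, h4, hα, hCx]
      smooth := fun c => (α _).contMDiff }
  have hpow : ∀ x : Fin (n / 2) × Fin (n / 2) → Multiplicative (ZMod p), x ^ p = 1 := by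
    intro x
    funext i
    show (x i) ^ p = 1
    rw [← ofAdd_toAdd (x i), ← ofAdd_nsmul, ← ofAdd_zero]
    congr 1
    rw [nsmul_eq_mul, ZMod.natCast_self, zero_mul]
  obtain ⟨_, hdv⟩ := Pool.Agent.E8helper86.ZB.manU p E M
    (Fin (n / 2) × Fin (n / 2) → Multiplicative (ZMod p)) hpow a ha
  have hker : actKer ha ≠ ⊥ := by
    intro hbot
    rw [hbot, Subgroup.card_bot, one_mul] at hdv
    have hc : Nat.card (Fin (n / 2) × Fin (n / 2) → Multiplicative (ZMod p)) =
        p ^ ((n / 2) * (n / 2)) := by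
      have h5 : Nat.card (Multiplicative (ZMod p)) = p :=
        (Nat.card_congr Multiplicative.toAdd).trans (Nat.card_zmod p)
      rw [Nat.card_fun, h5]
      congr 1
      simp
    have h6 : Pool.Agent.E8helper2.ZB.cst p (finrank ℝ E) *
        p ^ ((Pool.Agent.Helper381.totalBetti (ZMod p) M).toNat - 1) =
          p ^ (finrank ℝ E / 2 + ((Pool.Agent.Helper381.totalBetti (ZMod p) M).toNat - 1)) := by
      unfold Pool.Agent.E8helper2.ZB.cst
      rw [if_neg hp2, ← pow_add]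
    rw [hc, h6] at hdv
    have h7 := (Nat.pow_dvd_pow_iff_le_right hp.one_lt).1 hdv
    have h8 : (totalBetti (ZMod p) M) = Pool.Agent.Helper381.totalBetti (ZMod p) M := rfl
    omega
  obtain ⟨c, hc, hc2⟩ : ∃ c ∈ actKer ha, c ≠ 1 := by
    by_contra hcon
    push Not at hcon
    exact hker ((Subgroup.eq_bot_iff_forall _).2 hcon)
  obtain ⟨⟨r, s⟩, hrs⟩ := Function.ne_iff.1 hc2
  have hrs' : Multiplicative.toAdd (c (r, s)) ≠ 0 := fun h => hrs (by
    rw [← ofAdd_toAdd (c (r, s)), h]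
    rfl)
  set t : ℕ := ((Multiplicative.toAdd (c (r, s)))⁻¹ : ZMod p).val with ht
  have hc3 : c ^ t ∈ actKer ha := pow_mem hc t
  have hc4 : (Multiplicative.toAdd ((c ^ t) (r, s))).val = 1 := by
    have h1 : Multiplicative.toAdd ((c ^ t) (r, s)) = 1 := by
      show Multiplicative.toAdd ((c (r, s)) ^ t) = 1
      rw [toAdd_pow, nsmul_eq_mul, ht, ZMod.natCast_zmod_val, inv_mul_cancel₀ hrs']
    rw [h1]
    exact ZMod.val_one p
  have hX : UB (elbB p n (n / 2) O (c ^ t)) (elbB_bl p n (n / 2) (c ^ t)) ∈ N :=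
    (hmem _).2 ⟨hB _, hc3⟩
  have hr := r.2
  have hs' := s.2
  have hall := all_of_block (by omega) (by omega) hEN _ (elbB_bl p n (n / 2) (c ^ t)) hX
    (k := ⟨r, by omega⟩) (l := ⟨n / 2 + s, by omega⟩) hr (Nat.le_add_right _ _) (by
      have h8 : (r : ℕ) < n / 2 ∧ n / 2 ≤ n / 2 + (s : ℕ) ∧ n / 2 + (s : ℕ) - n / 2 < n / 2 :=
        ⟨hr, by omega, by omega⟩
      rw [elbB, Matrix.of_apply]
      rw [dif_pos h8]
      have h9 : (⟨n / 2 + (s : ℕ) - n / 2, h8.2.2⟩ : Fin (n / 2)) = s := by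
        apply Fin.ext
        show n / 2 + (s : ℕ) - n / 2 = s
        omega
      show (((Multiplicative.toAdd (((c ^ t : Fin (n / 2) × Fin (n / 2) →
        Multiplicative (ZMod p)))
        (⟨r, h8.1⟩, ⟨n / 2 + (s : ℕ) - n / 2, h8.2.2⟩))).val : ℕ) : O) = 1
      rw [h9]
      rw [show (⟨(r : ℕ), h8.1⟩ : Fin (n / 2)) = r from rfl, hc4]
      simp)
  have hle : EL n O ≤ N := by
    rw [EL, Subgroup.closure_le]
    rintro _ ⟨i, j, hij, y, rfl⟩
    exact hall i j hij y
  exact ((hmem g).1 (hle hg)).2 x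

end Pool.Agent.Helper47.FB
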