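import Pool.Agent.Helper47.FB.Base

/-!
# Module EQV: equivariance of the character of the isotropy representation
-/

set_option autoImplicit false

namespace Pool.Agent.Helper47.FB

open Module Pool.Agent.H185.ZM
open scoped Manifold ContDiff Topology

/-- the image of the tangent space under `T q` -/
theorem eqv_TS {E : Type} [NormedAddCommGroup E] [NormedSpace ℝ E] [FiniteDimensional ℝ E]
    {M : Type} [TopologicalSpace M] [ChartedSpace E M] [IsManifold 𝓘(ℝ, E) ∞ M]
    {P : Type} [Group P] {a : P → M → M} {W : Type} [NormedAddCommGroup W]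
    [InnerProductSpace ℝ W] {F : M → W} {T : P → W →L[ℝ] W} (h : EquiEmb E a W F T)
    (ha : SmoothAction E a) (x : M) (q : P) {v : W} (hv : v ∈ TS E F x) :
    T q v ∈ TS E F (a q x) := by
  obtain ⟨u, rfl⟩ := hv
  have h1 := h.D_act ha q x u
  exact ⟨_, h1⟩

theorem eqv_TS' {E : Type} [NormedAddCommGroup E] [NormedSpace ℝ E] [FiniteDimensional ℝ E]
    {M : Type} [TopologicalSpace M] [ChartedSpace E M] [IsManifold 𝓘(ℝ, E) ∞ M]
    {P : Type} [Group P] {a : P → M → M} {W : Type} [NormedAddCommGroup W]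
    [InnerProductSpace ℝ W] {F : M → W} {T : P → W →L[ℝ] W} (h : EquiEmb E a W F T)
    (ha : SmoothAction E a) (x : M) (q : P) {v : W} (hv : v ∈ TS E F (a q x)) :
    T q⁻¹ v ∈ TS E F x := by
  have h1 := eqv_TS h ha (a q x) q⁻¹ hv
  rwa [← ha.mul, inv_mul_cancel, ha.one] at h1

/-- `T q` commutes with the projections -/
theorem eqv_proj {E : Type} [NormedAddCommGroup E] [NormedSpace ℝ E] [FiniteDimensional ℝ E]
    {M : Type} [TopologicalSpace M] [ChartedSpace E M] [IsManifold 𝓘(ℝ, E) ∞ M]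
    {P : Type} [Group P] {a : P → M → M} {W : Type} [NormedAddCommGroup W]
    [InnerProductSpace ℝ W] {F : M → W} {T : P → W →L[ℝ] W} (h : EquiEmb E a W F T)
    (ha : SmoothAction E a) (x : M) (q : P) (w : W) :
    (TS E F (a q x)).starProjection (T q w) = T q ((TS E F x).starProjection w) := by
  apply Submodule.eq_starProjection_of_mem_of_inner_eq_zero
  · exact eqv_TS h ha x q (Submodule.starProjection_apply_mem _ _)
  · intro v hv
    have h3 : T q (T q⁻¹ v) = v := by rw [← h.mul, mul_inv_cancel, h.one]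
    rw [← map_sub, ← h3, h.isom]
    exact Submodule.starProjection_inner_eq_zero _ _ (eqv_TS' h ha x q hv)

/-- the linear equivalence of the tangent spaces given by `T q` -/
noncomputable def eqvE {E : Type} [NormedAddCommGroup E] [NormedSpace ℝ E] [FiniteDimensional ℝ E]
    {M : Type} [TopologicalSpace M] [ChartedSpace E M] [IsManifold 𝓘(ℝ, E) ∞ M]
    {P : Type} [Group P] {a : P → M → M} {W : Type} [NormedAddCommGroup W]
    [InnerProductSpace ℝ W] {F : M → W} {T : P → W →L[ℝ] W} (h : EquiEmb E a W F T)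
    (ha : SmoothAction E a) (x : M) (q : P) : TS E F x ≃ₗ[ℝ] TS E F (a q x) :=
  LinearEquiv.ofLinear
    ((T q : W →ₗ[ℝ] W).restrict (fun _ hv => eqv_TS h ha x q hv))
    ((T q⁻¹ : W →ₗ[ℝ] W).restrict (fun _ hv => eqv_TS' h ha x q hv))
    (by
      ext v
      show T q (T q⁻¹ (v : W)) = v
      rw [← h.mul, mul_inv_cancel, h.one])
    (by
      ext v
      show T q⁻¹ (T q (v : W)) = v
      rw [← h.mul, inv_mul_cancel, h.one])

theorem eqv : S_EQV := by
  intro E _ _ _ M _ _ _ P _ a W _ _ _ F T h ha x q g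
  unfold chr
  rw [← LinearMap.trace_conj' (((TS E F x).orthogonalProjectionOnto : W →ₗ[ℝ] TS E F x) ∘ₗ
    (T g : W →ₗ[ℝ] W) ∘ₗ (TS E F x).subtype) (eqvE h ha x q)]
  congr 1
  ext v
  show ((TS E F (a q x)).starProjection (T (q * g * q⁻¹) (v : W))) =
    T q ((TS E F x).starProjection (T g (T q⁻¹ (v : W))))
  rw [h.mul, h.mul, eqv_proj h ha x q]

end Pool.Agent.Helper47.FB
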