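import Pool.Agent.Helper47.FB.Base

/-!
# FB, module EVP (helper63)
-/

set_option autoImplicit false

namespace Pool.Agent.Helper47.FB

open Matrix Pool.Agent.Helper47.ZQ Pool.Agent.X183.ZM

/-- the diagonal matrices and the elementary matrices -/
theorem evp_fD_El {O : Type} [Ring O] {F : Type} [Group F] (u : F →* O) {n : ℕ} (q : Fin n → F)
    {i j : Fin n} (h : i ≠ j) (x : O) :
    fD u n q * El i j h x = El i j h (u (q i) * x * u (q j)⁻¹) * fD u n q := by
  apply Units.ext
  have hc : ((fD u n q : (Matrix (Fin n) (Fin n) O)ˣ) : Matrix (Fin n) (Fin n) O) =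
      diagonal (fun i => u (q i)) := rfl
  rw [Units.val_mul, Units.val_mul, El_val, El_val, hc, mul_add, add_mul, mul_one,
    one_mul]
  congr 1
  ext a b
  rw [Matrix.diagonal_mul, Matrix.mul_diagonal]
  simp only [Matrix.single_apply]
  split_ifs with h
  · rw [h.1, h.2, mul_assoc, mul_assoc, ← map_mul, inv_mul_cancel, map_one, mul_one]
  · simp

/-- the entries of the elementary matrices in `N` -/
def evpJ {O : Type} [Ring O] {n : ℕ} (N : Subgroup (Matrix (Fin n) (Fin n) O)ˣ) :
    AddSubgroup O where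
  carrier := {x | ∀ (i j : Fin n) (h : i ≠ j), El i j h x ∈ N}
  add_mem' := fun {x y} hx hy i j h => by
    rw [El_add]
    exact mul_mem (hx i j h) (hy i j h)
  zero_mem' := fun i j h => by
    rw [El_zero]
    exact one_mem _
  neg_mem' := fun {x} hx i j h => by
    rw [← El_inv]
    exact inv_mem (hx i j h)

theorem evp_third {n : ℕ} (hn : 3 ≤ n) (k l : Fin n) : ∃ m : Fin n, m ≠ k ∧ m ≠ l := by
  by_contra hcon
  push Not at hcon
  have h3 : (Finset.univ : Finset (Fin n)) ⊆ {k, l} := by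
    intro m _
    by_cases hm : m = k
    · simp [hm]
    · simp [hcon m hm]
  have h4 := Finset.card_le_card h3
  rw [Finset.card_univ, Fintype.card_fin] at h4
  have h5 := Finset.card_le_two (a := k) (b := l)
  omega

theorem evp_mul_right {O : Type} [Ring O] {n : ℕ} (hn : 3 ≤ n)
    {N : Subgroup (Matrix (Fin n) (Fin n) O)ˣ} (hN : ZQ.ENorm N) {x : O} (hx : x ∈ evpJ N) (y : O) :
    x * y ∈ evpJ N := by
  intro k l hkl
  obtain ⟨m, hmk, hml⟩ := evp_third hn k l
  exact comm_l hN hmk.symm hml hkl y (hx _ _ _)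

theorem evp_mul_left {O : Type} [Ring O] {n : ℕ} (hn : 3 ≤ n)
    {N : Subgroup (Matrix (Fin n) (Fin n) O)ˣ} (hN : ZQ.ENorm N) {x : O} (hx : x ∈ evpJ N) (y : O) :
    y * x ∈ evpJ N := by
  intro k l hkl
  obtain ⟨m, hmk, hml⟩ := evp_third hn k l
  exact comm_r hN hmk.symm hml hkl y (hx _ _ _)

/-- the commutator of `1 + x E_ij` and a diagonal matrix -/
theorem evp_comm {O : Type} [Ring O] {F : Type} [Group F] (u : F →* O) {n : ℕ} (hn : 3 ≤ n)
    {N : Subgroup (Matrix (Fin n) (Fin n) O)ˣ} (hN : ZQ.ENorm N) (q : Fin n → F) (hq : fD u n q ∈ N)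
    {i j : Fin n} (h : i ≠ j) (x : O) : x - u (q i) * x * u (q j)⁻¹ ∈ evpJ N := by
  have e1 := evp_fD_El u q h (-x)
  have e2 : El i j h x * fD u n q * (El i j h x)⁻¹ * (fD u n q)⁻¹ =
      El i j h (x - u (q i) * x * u (q j)⁻¹) := by
    rw [El_inv, mul_assoc (El i j h x), e1, ← mul_assoc, ← El_add, mul_assoc, mul_inv_cancel, mul_one]
    congr 1
    rw [mul_neg, neg_mul, sub_eq_add_neg]
  have e3 : El i j h (x - u (q i) * x * u (q j)⁻¹) ∈ N := by
    rw [← e2]
    exact mul_mem (hN _ hq _ _ _ _) (inv_mem hq)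
  intro k l hkl
  exact spread hn hN h e3 k l hkl

theorem evp_pow {F : Type} [Group F] {p : ℕ} {z : F} (ho : orderOf z = p) {a b : ℕ}
    (h : (a : ZMod p) = b) : z ^ a = z ^ b := by
  rw [pow_eq_pow_iff_modEq, ho]
  exact (ZMod.natCast_eq_natCast_iff _ _ _).1 h

theorem evp : S_EVP := by
  intro O _ F _ _ p k z c hF u hsum n hn N hN v hv hfD i j h x
  have : Fact p.Prime := ⟨hF.prime⟩
  -- the exponents
  have key : ∀ (g : F) (a b : ZMod p), z ^ a.val * g * (z ^ b.val)⁻¹ =
      z ^ (a - c g * b).val * g := by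
    intro g a b
    have h1 : g * z ^ b.val * g⁻¹ = z ^ ((c g : ZMod p).val * b.val) := by
      rw [pow_mul, ← hF.conj g, conj_pow]
    have h2 : z ^ a.val = z ^ (a - c g * b).val * z ^ ((c g : ZMod p).val * b.val) := by
      rw [← pow_add]
      apply evp_pow hF.ord
      push_cast
      simp only [ZMod.natCast_val, ZMod.cast_id', id]
      ring
    rw [h2, ← h1]
    group
  have hJ : ∀ (g : F) (a b : Fin n), a ≠ b → 1 - u z ^ (v a - c g * v b).val ∈ evpJ N := by
    intro g a b hab
    have h1 := evp_comm u hn hN (iv z v) hfD hab (u g)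
    have h2 : u (iv z v a) * u g * u (iv z v b)⁻¹ = u z ^ (v a - c g * v b).val * u g := by
      rw [← map_mul, ← map_mul, ← map_pow, ← map_mul]
      exact congrArg u (key g (v a) (v b))
    rw [h2] at h1
    have h3 := evp_mul_right hn hN h1 (u g⁻¹)
    have h4 : (u g - u z ^ (v a - c g * v b).val * u g) * u g⁻¹ = 1 - u z ^ (v a - c g * v b).val := by
      rw [sub_mul, mul_assoc, ← map_mul, mul_inv_cancel, map_one, mul_one]
    rwa [h4] at h3
  -- a nonzero exponent
  obtain ⟨w, hw, hwJ⟩ : ∃ w : ZMod p, w ≠ 0 ∧ 1 - u z ^ w.val ∈ evpJ N := by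
    obtain ⟨a, ha⟩ : ∃ a, v a ≠ 0 := by
      by_contra hcon
      push Not at hcon
      exact hv (funext hcon)
    obtain ⟨b, hb, -⟩ := evp_third hn a a
    by_cases hab : v a = v b
    · obtain ⟨g, hg⟩ : ∃ g, c g ≠ 1 := by
        by_contra hcon
        push Not at hcon
        have h1 : c.range = ⊥ := by
          rw [eq_bot_iff]
          rintro _ ⟨g, rfl⟩
          exact hcon g
        have h2 := hF.card
        rw [h1, Subgroup.card_bot] at h2
        have := hF.one_lt
        omega
      refine ⟨v a - c g * v b, ?_, hJ g a b hb.symm⟩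
      intro h0
      apply hg
      rw [← hab] at h0
      have h1 : (1 - (c g : ZMod p)) * v a = 0 := by
        rw [sub_mul, one_mul]
        exact h0
      rcases mul_eq_zero.1 h1 with h2 | h2
      · exact Units.ext (sub_eq_zero.1 h2).symm
      · exact absurd h2 ha
    · refine ⟨v a - c 1 * v b, ?_, hJ 1 a b hb.symm⟩
      rw [map_one, Units.val_one, one_mul]
      exact sub_ne_zero.2 hab
  have hall : ∀ m : ℕ, 1 - u z ^ m ∈ evpJ N := by
    intro m
    have h1 : z ^ m = (z ^ w.val) ^ ((m : ZMod p) * w⁻¹).val := by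
      rw [← pow_mul]
      apply evp_pow hF.ord
      push_cast
      simp only [ZMod.natCast_val, ZMod.cast_id', id]
      field_simp
    have h2 : 1 - u z ^ m = (1 - u z ^ w.val) *
        ∑ s ∈ Finset.range ((m : ZMod p) * w⁻¹).val, (u z ^ w.val) ^ s := by
      rw [mul_neg_geom_sum]
      rw [← map_pow, h1, map_pow, map_pow]
    rw [h2]
    exact evp_mul_right hn hN hwJ _
  have hp : (p : O) ∈ evpJ N := by
    have h1 : (p : O) = ∑ m ∈ Finset.range p, (1 - u z ^ m) := by
      rw [Finset.sum_sub_distrib, hsum, sub_zero]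
      simp
    rw [h1]
    exact sum_mem fun m _ => hall m
  exact evp_mul_right hn hN hp x i j h

end Pool.Agent.Helper47.FB
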