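import Pool.Agent.Helper47.FB.Base
import Pool.Graph.R_pool_sql_team_seeded_b677cdb8.E8helper86.ZB.Man

/-!
# The geometric part: few isotropy characters
-/

set_option autoImplicit false

namespace Pool.Agent.Helper47.FB

open Metric Set Module Pool.Agent.Helper381 Pool.Agent.H185.ZM Pool.Agent.Helper47.ZQ Matrix
  Pool.Agent.X183.ZM Pool.Agent.E8helper2.ZB Pool.Agent.E8helper86.ZB
open scoped Manifold ContDiff Topology

section

variable {M : Type} {E : Type} [MetricSpace M] [NormedAddCommGroup E] [NormedSpace ℝ E]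
  {R : ℝ}

/-- a locally constant function on the fixed points takes few values -/
theorem geo_vals (hO : S_ORB) (G : Geo M E R) [CompactSpace M] [Nonempty M] {P : Type} [Group P]
    [Finite P] (b : P →* (M ≃ᵢ M)) (p : ℕ) [Fact p.Prime] {A : Type} [CommGroup A] [Finite A]
    (j : A →* P) (hA : ∀ a : A, a ^ p = 1) {S : Type} (f : M → S) (δ : ℝ) (hδ : 0 < δ)
    (hf : ∀ y y', (∀ v, b (j v) y = y) → (∀ v, b (j v) y' = y') → dist y y' < δ → f y = f y') :
    ∃ Y : Set S, Y.Finite ∧ Y.ncard ≤ (totalBetti (ZMod p) M).toNat ∧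
      ∀ y, (∀ v, b (j v) y = y) → f y ∈ Y := by
  classical
  have hR := G.Rpos
  set ρ := min (R / 4) (δ / 2) with hρ
  have hρ0 : 0 < ρ := lt_min (by linarith) (by linarith)
  have hρR : 4 * ρ ≤ R := by linarith [min_le_left (R / 4) (δ / 2)]
  have hρδ : 2 * ρ ≤ δ := by linarith [min_le_right (R / 4) (δ / 2)]
  obtain ⟨F, hF, hFa⟩ := exists_invariant_net b ρ hρ0
  have hQ := Fam_finite F ρ
  letI act : MulAction A (Set M) :=
    { smul := fun v C => b (j v) '' C
      one_smul := fun C => by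
        show b (j 1) '' C = C
        rw [map_one, map_one]
        exact Set.image_id C
      mul_smul := fun p q C => by
        show b (j (p * q)) '' C = b (j p) '' (b (j q) '' C)
        rw [map_mul, map_mul, Set.image_image]
        rfl }
  have hsm : ∀ v : A, StrictMono (fun C : Set M => v • C) := fun v =>
    (b (j v)).injective.image_strictMono
  have hmem : ∀ (v : A), ∀ C ∈ Fam F ρ, v • C ∈ Fam F ρ := fun v C hC =>
    image_Fam F ρ (b (j v)) (hFa (j v)) hC
  -- total Betti number
  have e1 : ∀ n, finrank (ZMod p) (SingCoh (ZMod p) M n) =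
      finrank (ZMod p) (OrdCoh (ZMod p) (Fam F ρ) n) := by
    intro n
    obtain ⟨e⟩ := G.nerve hρR hF (ZMod p) n
    exact LinearEquiv.finrank_eq e
  have hB := totalBetti_eq (Fam F ρ).ncard (G.betti_finite (ZMod p)).1 (fun n hn => by
    rw [e1]
    exact ordcoh_top hQ (ZMod p) n hn)
  have h3 : (totalBetti (ZMod p) M).toNat =
      ∑ n ∈ Finset.range (Fam F ρ).ncard, finrank (ZMod p) (OrdCoh (ZMod p) (Fam F ρ) n) := by
    rw [hB, ENat.toNat_natCast]
    exact Finset.sum_congr rfl fun n _ => e1 n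
  have hfx : ∀ C : Set M, ∃ y, C ∈ Fam F ρ → y ∈ C ∧
      ∀ g : M ≃ᵢ M, (∀ p, p ∈ F ↔ g p ∈ F) → g '' C = C → g y = y := by
    intro C
    by_cases hC : C ∈ Fam F ρ
    · obtain ⟨y, h1, h2⟩ := G.fam_fixed hρR hC
      exact ⟨y, fun _ => ⟨h1, h2⟩⟩
    · exact ⟨Classical.arbitrary M, fun h => absurd h hC⟩
  choose pt hpt using hfx
  have hptf : ∀ C ∈ Fam F ρ, (∀ v : A, v • C = C) → ∀ v, b (j v) (pt C) = pt C :=
    fun C hC h v => (hpt C hC).2 (b (j v)) (hFa (j v)) (h v)
  have key := hO p A hA (Set M) (Fam F ρ) hQ hsm hmem S (fun C => f (pt C))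
    (fun C hC C' hC' h h' hlt => hf _ _ (hptf C hC h) (hptf C' hC' h')
      (lt_of_lt_of_le (Fam_dist hC' (hlt.le (hpt C hC).1) (hpt C' hC').1) hρδ))
  refine ⟨(fun C => f (pt C)) '' {C | C ∈ Fam F ρ ∧ ∀ a : A, a • C = C},
    (hQ.subset fun _ h => h.1).image _, by rw [h3]; exact key, ?_⟩
  intro y hy
  have hcov := Fam_cover F ρ hF y
  obtain ⟨C₀, hC₀, hyC₀⟩ := hcov
  have hJ : Jm F ρ {y} ∈ Fam F ρ :=
    Jm_mem F ρ (Set.singleton_nonempty y) ⟨C₀, hC₀, Set.singleton_subset_iff.2 hyC₀⟩
  have hyJ : y ∈ Jm F ρ {y} := subset_Jm F ρ _ rfl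
  have hJf : ∀ v : A, v • Jm F ρ {y} = Jm F ρ {y} := by
    intro v
    show b (j v) '' Jm F ρ {y} = Jm F ρ {y}
    rw [image_Jm F ρ (b (j v)) (hFa (j v)), Set.image_singleton, hy v]
  refine ⟨Jm F ρ {y}, ⟨hJ, hJf⟩, ?_⟩
  exact hf _ _ (hptf _ hJ hJf) hy (lt_of_lt_of_le (Fam_dist hJ (hpt _ hJ).1 hyJ) hρδ)

end

/-- the trace of the restriction is the character -/
theorem geo_trace {E : Type} [NormedAddCommGroup E] [NormedSpace ℝ E] [FiniteDimensional ℝ E]
    {M : Type} [TopologicalSpace M] [ChartedSpace E M] [IsManifold 𝓘(ℝ, E) ∞ M] {P : Type}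
    [Group P] {a : P → M → M} {W : Type} [NormedAddCommGroup W] [InnerProductSpace ℝ W]
    {F : M → W} {T : P → W →L[ℝ] W} (h : EquiEmb E a W F T) (ha : SmoothAction E a) {x : M} {g : P}
    (hx : a g x = x) :
    LinearMap.trace ℝ (TS E F x) ((T g : W →ₗ[ℝ] W).restrict (fun _ hw => h.T_mem ha hx hw)) =
      chr E F T x g := by
  unfold chr
  congr 1
  ext w
  have h1 := Submodule.orthogonalProjectionOnto_mem_subspace_eq_self
      (K := TS E F x) ⟨T g w, h.T_mem ha hx w.2⟩
  exact (congrArg Subtype.val h1).symm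

theorem geo (hO : S_ORB) (hL : S_LOC) (hE : S_EQV) : S_GEO := by
  intro E _ _ _ M _ _ _ _ _ _ p hp P A _ _ _ j hj hA φ hφ a ha hχ
  classical
  obtain ⟨W, _, _, _, F, T, hF⟩ := exists_equi ha
  have hfinA : Finite A := Finite.of_injective j hj
  have haA : SmoothAction E (fun v : A => a (j v)) :=
    { one := fun x => by
        show a (j 1) x = x
        rw [map_one]
        exact ha.one x
      mul := fun v w x => by
        show a (j (v * w)) x = a (j v) (a (j w) x)
        rw [map_mul]
        exact ha.mul _ _ x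
      smooth := fun v => ha.smooth (j v) }
  -- a fixed point of `A`
  obtain ⟨x, hx⟩ : ∃ x, ∀ v : A, a (j v) x = x := by
    by_contra hcon
    push Not at hcon
    have h1 : IsPGroup p A := fun v => ⟨1, by rw [pow_one]; exact hA v⟩
    obtain ⟨r, hr⟩ := IsPGroup.iff_card.1 h1
    have h2 := smooth_dvd_euler haA (p ^ (r - 1)) (fun y Q hQ => by
      have h3 : Nat.card Q ∣ p ^ r := hr ▸ Subgroup.card_subgroup_dvd_card Q
      obtain ⟨s, hs, hs2⟩ := (Nat.dvd_prime_pow hp.out).1 h3
      rw [hs2]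
      apply pow_dvd_pow
      by_contra h4
      have h5 : s = r := by omega
      have h6 : Q = ⊤ := by
        apply Subgroup.eq_top_of_card_eq
        rw [hs2, hr, h5]
      obtain ⟨v, hv⟩ := hcon y
      exact hv (hQ v (h6 ▸ Subgroup.mem_top v)))
    have hr0 : r ≠ 0 := by
      rintro rfl
      obtain ⟨v, hv⟩ := hcon (Classical.arbitrary M)
      have h7 : Subsingleton A := by
        rw [pow_zero, Nat.card_eq_one_iff_unique] at hr
        exact hr.1
      apply hv
      rw [Subsingleton.elim v 1, map_one]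
      exact ha.one _
    apply hχ
    rw [hr] at h2
    obtain ⟨t, ht⟩ := h2
    refine ⟨t, ?_⟩
    have hpne : ((p : ℤ) ^ (r - 1)) ≠ 0 := pow_ne_zero _ (by exact_mod_cast hp.out.ne_zero)
    apply mul_left_cancel₀ hpne
    push_cast at ht
    rw [ht, ← mul_assoc, ← pow_succ, Nat.sub_add_cancel (Nat.one_le_iff_ne_zero.2 hr0)]
  -- the character
  let f : M → A → ℝ := fun y v => chr E F T y (j v)
  have hφ1 : ∀ v, φ 1 v = v := fun v => hj (by rw [← hφ, one_mul, inv_one, mul_one])
  have hφm : ∀ q q' v, φ (q * q') v = φ q (φ q' v) := fun q q' v => hj (by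
    rw [← hφ, ← hφ, ← hφ]
    group)
  have hfe : ∀ (y : M) (q : P) (v : A), f (a q y) (φ q v) = f y v := fun y q v => by
    show chr E F T (a q y) (j (φ q v)) = chr E F T y (j v)
    rw [← hφ]
    exact hE E M P a W F T hF ha y q (j v)
  have hfe' : ∀ (y : M) (q : P) (v : A), f (a q y) v = f y (φ q⁻¹ v) := fun y q v => by
    have h1 := hfe y q (φ q⁻¹ v)
    rw [← hφm, mul_inv_cancel, hφ1] at h1
    exact h1
  have hfixq : ∀ (q : P) (v : A), a (j v) (a q x) = a q x := by
    intro q v
    have h1 : j v * q = q * j (φ q⁻¹ v) := by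
      rw [← hφ]
      group
    rw [← ha.mul, h1, ha.mul, hx]
  -- the metric
  let g := hF.metric
  obtain ⟨R, G⟩ := Q145.TN.exists_geo g
  let _ := Q145.TN.mS g
  let b : P →* (M ≃ᵢ M) :=
    { toFun := fun p =>
        { toFun := a p
          invFun := a p⁻¹
          left_inv := fun x => by rw [← ha.mul, inv_mul_cancel, ha.one]
          right_inv := fun x => by rw [← ha.mul, mul_inv_cancel, ha.one]
          isometry_toFun := fun x y => by
            show (Q145.TN.mS g).toPseudoMetricSpace.toPseudoEMetricSpace.edist _ _ =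
              (Q145.TN.mS g).toPseudoMetricSpace.toPseudoEMetricSpace.edist _ _
            rw [Q145.TN.edist_mS, Q145.TN.edist_mS]
            exact hF.dist_eq ha p x y }
      map_one' := by
        ext x
        exact ha.one x
      map_mul' := fun p q => by
        ext x
        exact ha.mul p q x }
  have hne : Nonempty M := inferInstance
  -- uniform local constancy
  have hloc : ∀ y : M, ∃ U : Set M, IsOpen U ∧ y ∈ U ∧ ∀ z ∈ U, ∀ z' ∈ U,
      (∀ v, a (j v) z = z) → (∀ v, a (j v) z' = z') → f z = f z' := by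
    intro y
    by_cases hy : ∀ v, a (j v) y = y
    · have h1 := hL E M P a W F T hF ha (Set.range j) y (by
        rintro _ ⟨v, rfl⟩
        exact hy v)
      obtain ⟨U, hU, hUo, hyU⟩ := _root_.mem_nhds_iff.1 h1
      have h2 : ∀ z ∈ U, (∀ v, a (j v) z = z) → f z = f y := by
        intro z hz hzf
        funext v
        exact hU hz (by
          rintro _ ⟨w, rfl⟩
          exact hzf w) (j v) ⟨v, rfl⟩
      exact ⟨U, hUo, hyU, fun z hz z' hz' h3 h4 => (h2 z hz h3).trans (h2 z' hz' h4).symm⟩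
    · push Not at hy
      obtain ⟨v, hv⟩ := hy
      refine ⟨{z | a (j v) z ≠ z}, ?_, hv, fun z hz z' _ h3 _ => absurd (h3 v) hz⟩
      exact (isClosed_eq (ha.smooth (j v)).continuous continuous_id).isOpen_compl
  choose U hUo hyU hU using hloc
  obtain ⟨δ, hδ, hδU⟩ := lebesgue_number_lemma_of_metric (s := (Set.univ : Set M)) (c := U)
    isCompact_univ hUo (fun y _ => Set.mem_iUnion.2 ⟨y, hyU y⟩)
  have hf : ∀ y y', (∀ v, b (j v) y = y) → (∀ v, b (j v) y' = y') → dist y y' < δ →
      f y = f y' := by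
    intro y y' h1 h2 h3
    obtain ⟨i, hi⟩ := hδU y (Set.mem_univ y)
    exact hU i y (hi (Metric.mem_ball_self hδ)) y' (hi (by rw [Metric.mem_ball, dist_comm]; exact h3))
      h1 h2
  obtain ⟨Y, hYf, hYc, hY⟩ := geo_vals hO G b p j hA f δ hδ hf
  -- the stabilizer of the character
  let H : Subgroup P :=
    { carrier := {q | ∀ v, f x (φ q v) = f x v}
      one_mem' := fun v => by rw [hφ1]
      mul_mem' := fun {q q'} h h' v => by
        have h1 : f x (φ q v) = f x v := h v
        show f x (φ (q * q') v) = f x v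
        rw [hφm]
        exact (h (φ q' v)).trans (h' v)
      inv_mem' := fun {q} h v => by
        have h1 := h (φ q⁻¹ v)
        rw [← hφm, mul_inv_cancel, hφ1] at h1
        exact h1.symm }
  have hHidx : H.index ≤ (totalBetti (ZMod p) M).toNat := by
    refine le_trans ?_ hYc
    have hYF : Finite Y := hYf
    let ψ : P ⧸ H → Y := fun c => ⟨f (a c.out x), hY _ (hfixq _)⟩
    have hψ : Function.Injective ψ := by
      intro c c' hcc
      have h1 : f (a c.out x) = f (a c'.out x) := congrArg Subtype.val hcc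
      rw [← QuotientGroup.out_eq' c, ← QuotientGroup.out_eq' c', QuotientGroup.eq]
      intro v
      -- f x (φ (q⁻¹ q') v) = f x v
      have h2 := congrFun h1 (φ c'.out v)
      rw [hfe, hfe'] at h2
      show f x (φ (c.out⁻¹ * c'.out) v) = f x v
      rw [hφm]
      exact h2
    have h3 := Nat.card_le_card_of_injective ψ hψ
    rw [Nat.card_coe_set_eq] at h3
    exact h3
  let ρ : A →* (TS E F x →ₗ[ℝ] TS E F x) :=
    { toFun := fun v => ((T (j v) : W →ₗ[ℝ] W)).restrict
        (fun w hw => hF.T_mem ha (hx v) hw)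
      map_one' := by
        ext w
        show T (j 1) w = w
        rw [map_one]
        exact hF.one w
      map_mul' := fun v v' => by
        ext w
        show T (j (v * v')) w = T (j v) (T (j v') w)
        rw [map_mul]
        exact hF.mul _ _ w }
  have hρ : ∀ v, LinearMap.trace ℝ (TS E F x) (ρ v) = f x v := fun v => geo_trace hF ha (hx v)
  refine ⟨H, TS E F x, inferInstance, inferInstance, inferInstance, ρ, hHidx, hF.finrank_TS x,
    ?_, ?_⟩
  · intro v hv y
    apply hF.trivial_of_fix ha (hx v)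
    intro w hw
    have h1 : ρ v ⟨w, hw⟩ = ⟨w, hw⟩ := by rw [hv]; rfl
    exact congrArg Subtype.val h1
  · intro h hh v
    rw [hρ, hρ]
    exact hh v

end Pool.Agent.Helper47.FB
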