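import Pool.Agent.Helper47.FB.Base2
import Pool.Agent.Helper47.FB.Geo

/-!
# The geometric part for arbitrary closed manifolds
-/

set_option autoImplicit false

namespace Pool.Agent.Helper47.FB

open Metric Set Module Pool.Agent.Helper381 Pool.Agent.H185.ZM Pool.Agent.Helper47.ZQ Matrix
  Pool.Agent.X183.ZM Pool.Agent.E8helper2.ZB Pool.Agent.E8helper86.ZB
open scoped Manifold ContDiff Topology

section

variable {M : Type} {E : Type} [MetricSpace M] [NormedAddCommGroup E] [NormedSpace ℝ E]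
  {R : ℝ}

/-- the poset is connected if the space is -/
theorem fam_conn [ConnectedSpace M] {F : Finset M} {ρ : ℝ} (hF : ∀ x : M, ∃ p ∈ F, dist p x < ρ)
    {C C' : Set M} (hC : C ∈ Fam F ρ) (hC' : C' ∈ Fam F ρ) :
    Relation.EqvGen (fun u v => u ∈ Fam F ρ ∧ v ∈ Fam F ρ ∧ u < v) C C' := by
  classical
  by_contra hcon
  set r : Set M → Set M → Prop :=
    Relation.EqvGen (fun u v => u ∈ Fam F ρ ∧ v ∈ Fam F ρ ∧ u < v) with hr
  let U : Set M := ⋃₀ {D | D ∈ Fam F ρ ∧ r C D}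
  let V : Set M := ⋃₀ {D | D ∈ Fam F ρ ∧ ¬ r C D}
  have hU : IsOpen U := isOpen_sUnion fun D hD => Fam_open F ρ D hD.1
  have hV : IsOpen V := isOpen_sUnion fun D hD => Fam_open F ρ D hD.1
  have hUV : (Set.univ : Set M) ⊆ U ∪ V := by
    intro z _
    obtain ⟨D, hD, hz⟩ := Fam_cover F ρ hF z
    by_cases h : r C D
    · exact Or.inl ⟨D, ⟨hD, h⟩, hz⟩
    · exact Or.inr ⟨D, ⟨hD, h⟩, hz⟩
  obtain ⟨z1, hz1⟩ := hC.1
  obtain ⟨z2, hz2⟩ := hC'.1
  obtain ⟨z, _, ⟨D, ⟨hD, hD2⟩, hzD⟩, ⟨D', ⟨hD', hD2'⟩, hzD'⟩⟩ :=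
    isPreconnected_univ U V hU hV hUV ⟨z1, trivial, C, ⟨hC, Relation.EqvGen.refl _⟩, hz1⟩
      ⟨z2, trivial, C', ⟨hC', hcon⟩, hz2⟩
  have hJ : Jm F ρ {z} ∈ Fam F ρ :=
    Jm_mem F ρ (Set.singleton_nonempty z) ⟨D, hD, Set.singleton_subset_iff.2 hzD⟩
  have hle : ∀ D₁ ∈ Fam F ρ, z ∈ D₁ → r (Jm F ρ {z}) D₁ := by
    intro D₁ hD₁ hz
    have h1 : Jm F ρ {z} ⊆ D₁ := Jm_le F ρ hD₁ (Set.singleton_subset_iff.2 hz)
    rcases h1.eq_or_ssubset with h2 | h2
    · rw [h2]
      exact Relation.EqvGen.refl _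
    · exact Relation.EqvGen.rel _ _ ⟨hJ, hD₁, h2⟩
  exact hD2' (Relation.EqvGen.trans _ _ _ hD2 (Relation.EqvGen.trans _ _ _
    (Relation.EqvGen.symm _ _ (hle D hD hzD)) (hle D' hD' hzD')))

theorem ge2_geo (hC : S_CNP) (G : Geo M E R) [CompactSpace M] [ConnectedSpace M] {P : Type}
    [Group P] [Finite P] (b : P →* (M ≃ᵢ M)) (p : ℕ) [Fact p.Prime] {A : Type} [CommGroup A]
    [Finite A] (j : A →* P) (hj : Function.Injective j) (hA : ∀ a : A, a ^ p = 1) (s : P) (m : ℕ)
    (hs : ∀ v, s * j v * s⁻¹ = j (v ^ m)) {S : Type} (f : Subgroup A → M → S) (δ : ℝ) (hδ : 0 < δ)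
    (hf : ∀ (B : Subgroup A) (y y' : M), (∀ v ∈ B, b (j v) y = y) → (∀ v ∈ B, b (j v) y' = y') →
      dist y y' < δ → f B y = f B y') :
    ∃ (B : Subgroup A) (x : M), B.index ∣ p ^ (2 * ((totalBetti (ZMod p) M).toNat - 1)) ∧
      (∀ v ∈ B, b (j v) x = x) ∧ f B x = f B (b s x) := by
  classical
  have hR := G.Rpos
  set ρ := min (R / 4) (δ / 2) with hρ
  have hρ0 : 0 < ρ := lt_min (by linarith) (by linarith)
  have hρR : 4 * ρ ≤ R := by linarith [min_le_left (R / 4) (δ / 2)]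
  have hρδ : 2 * ρ ≤ δ := by linarith [min_le_right (R / 4) (δ / 2)]
  obtain ⟨F, hF, hFa⟩ := exists_invariant_net b ρ hρ0
  have hQ := Fam_finite F ρ
  letI act : MulAction A (Set M) :=
    { smul := fun v C => b (j v) '' C
      one_smul := fun C => by
        show b (j 1) '' C = C
        rw [map_one, map_one]
        exact Set.image_id C
      mul_smul := fun p q C => by
        show b (j (p * q)) '' C = b (j p) '' (b (j q) '' C)
        rw [map_mul, map_mul, Set.image_image]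
        rfl }
  have hsm : ∀ v : A, StrictMono (fun C : Set M => v • C) := fun v =>
    (b (j v)).injective.image_strictMono
  have hmem : ∀ (v : A), ∀ C ∈ Fam F ρ, v • C ∈ Fam F ρ := fun v C hC =>
    image_Fam F ρ (b (j v)) (hFa (j v)) hC
  -- total Betti number
  have e1 : ∀ n, finrank (ZMod p) (SingCoh (ZMod p) M n) =
      finrank (ZMod p) (OrdCoh (ZMod p) (Fam F ρ) n) := by
    intro n
    obtain ⟨e⟩ := G.nerve hρR hF (ZMod p) n
    exact LinearEquiv.finrank_eq e
  have hB := totalBetti_eq (Fam F ρ).ncard (G.betti_finite (ZMod p)).1 (fun n hn => by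
    rw [e1]
    exact ordcoh_top hQ (ZMod p) n hn)
  have h3 : (totalBetti (ZMod p) M).toNat =
      ∑ n ∈ Finset.range (Fam F ρ).ncard, finrank (ZMod p) (OrdCoh (ZMod p) (Fam F ρ) n) := by
    rw [hB, ENat.toNat_natCast]
    exact Finset.sum_congr rfl fun n _ => e1 n
  set β := (totalBetti (ZMod p) M).toNat with hβ
  have hfx : ∀ C : Set M, ∃ y, C ∈ Fam F ρ → y ∈ C ∧
      ∀ g : M ≃ᵢ M, (∀ p, p ∈ F ↔ g p ∈ F) → g '' C = C → g y = y := by
    intro C
    by_cases hC : C ∈ Fam F ρ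
    · obtain ⟨y, h1, h2⟩ := G.fam_fixed hρR hC
      exact ⟨y, fun _ => ⟨h1, h2⟩⟩
    · exact ⟨Classical.arbitrary M, fun h => absurd h hC⟩
  choose pt hpt using hfx
  -- a point with a large isotropy group
  obtain ⟨C, hCF, hdvd⟩ := pos p A hA (Set M) (Fam F ρ) hQ (fam_nonempty hF) hsm hmem
  rw [← h3] at hdvd
  set A₁ := MulAction.stabilizer A C with hA₁
  have hidx1 : A₁.index ∣ p ^ (β - 1) := by
    rw [← A₁.card_mul_index] at hdvd
    exact Nat.dvd_of_mul_dvd_mul_left Nat.card_pos hdvd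
  have hA₁C : ∀ v ∈ A₁, b (j v) '' C = C := fun v hv => hv
  have hxfix : ∀ v ∈ A₁, b (j v) (pt C) = pt C := fun v hv =>
    (hpt C hCF).2 (b (j v)) (hFa (j v)) (hA₁C v hv)
  -- `m`-th powers
  have hpow : ∀ v ∈ A₁, ∃ w ∈ A₁, w ^ m = v := by
    let φ : A₁ → A₁ := fun w => w ^ m
    have hφ : Function.Injective φ := by
      intro w w' h
      have h1 : (w : A) ^ m = (w' : A) ^ m := congrArg Subtype.val h
      apply Subtype.ext
      apply hj
      have h2 : s * j w * s⁻¹ = s * j w' * s⁻¹ := by rw [hs, hs, h1]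
      exact mul_left_cancel (mul_right_cancel h2)
    intro v hv
    obtain ⟨w, hw⟩ := (Finite.injective_iff_surjective.1 hφ) ⟨v, hv⟩
    exact ⟨w, w.2, congrArg Subtype.val hw⟩
  have hcomm : ∀ w : A, j (w ^ m) * s = s * j w := by
    intro w
    rw [← hs]
    group
  -- the second point
  have hC'F : b s '' C ∈ Fam F ρ := image_Fam F ρ (b s) (hFa s) hCF
  have hA₁C' : ∀ v ∈ A₁, b (j v) '' (b s '' C) = b s '' C := by
    intro v hv
    obtain ⟨w, hw, rfl⟩ := hpow v hv
    have h1 : b (j (w ^ m)) '' (b s '' C) = b (j (w ^ m) * s) '' C := by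
      rw [map_mul, Set.image_image]
      rfl
    have h2 : b (s * j w) '' C = b s '' (b (j w) '' C) := by
      rw [map_mul, Set.image_image]
      rfl
    rw [h1, hcomm, h2, hA₁C w hw]
  have hsx : ∀ v ∈ A₁, b (j v) (b s (pt C)) = b s (pt C) := by
    intro v hv
    obtain ⟨w, hw, rfl⟩ := hpow v hv
    have h1 : b (j (w ^ m)) (b s (pt C)) = b (j (w ^ m) * s) (pt C) := by
      rw [map_mul]
      rfl
    have h2 : b (s * j w) (pt C) = b s (b (j w) (pt C)) := by
      rw [map_mul]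
      rfl
    rw [h1, hcomm, h2, hxfix w hw]
  letI act₁ : MulAction A₁ (Set M) := inferInstance
  obtain ⟨B₀, hB₀, hB₀2⟩ := hC p A₁ (fun a => Subtype.ext (hA a)) (Set M) (Fam F ρ) hQ
    (fun v => hsm v) (fun v => hmem v) C hCF (b s '' C) hC'F (fun v => hA₁C v v.2)
    (fun v => hA₁C' v v.2) (fam_conn hF hCF hC'F)
  rw [← h3] at hB₀
  refine ⟨B₀.map A₁.subtype, pt C, ?_, ?_, ?_⟩
  · rw [Subgroup.index_map_subtype, two_mul, _root_.pow_add]
    exact mul_dvd_mul hB₀ hidx1
  · rintro _ ⟨v, _, rfl⟩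
    exact hxfix v v.2
  · have hBfix : ∀ D ∈ Fam F ρ, (∀ v ∈ B₀, (v : A) • D = D) →
        ∀ v ∈ B₀.map A₁.subtype, b (j v) (pt D) = pt D := by
      rintro D hD h _ ⟨v, hv, rfl⟩
      exact (hpt D hD).2 (b (j v)) (hFa (j v)) (h v hv)
    have key : ∀ u v : Set M, Relation.EqvGen (fun u v => u ∈ Fam F ρ ∧ v ∈ Fam F ρ ∧ u < v ∧
        ∀ b ∈ B₀, b • u = u ∧ b • v = v) u v →
        f (B₀.map A₁.subtype) (pt u) = f (B₀.map A₁.subtype) (pt v) := by
      intro u v h
      induction h with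
      | rel u v h =>
        obtain ⟨h1, h2, h3, h4⟩ := h
        exact hf _ _ _ (hBfix u h1 fun v hv => (h4 v hv).1) (hBfix v h2 fun w hw => (h4 w hw).2)
          (lt_of_lt_of_le (Fam_dist h2 (h3.le (hpt u h1).1) (hpt v h2).1) hρδ)
      | refl u => rfl
      | symm u v _ ih => exact ih.symm
      | trans u v w _ _ ih1 ih2 => exact ih1.trans ih2
    refine (key _ _ hB₀2).trans ?_
    refine hf _ _ _ ?_ ?_ (lt_of_lt_of_le (Fam_dist hC'F (hpt _ hC'F).1
      (Set.mem_image_of_mem _ (hpt C hCF).1)) hρδ)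
    · rintro _ ⟨v, _, rfl⟩
      exact (hpt _ hC'F).2 (b (j v)) (hFa (j v)) (hA₁C' v v.2)
    · rintro _ ⟨v, _, rfl⟩
      exact hsx v v.2

end

theorem ge2 (hC : S_CNP) (hL : S_LOC) (hE : S_EQV) : S_GE2 := by
  intro E _ _ _ M _ _ _ _ _ _ p hp P A _ _ _ j hj hA s m hs a ha
  classical
  obtain ⟨W, _, _, _, F, T, hF⟩ := exists_equi ha
  have hfinA : Finite A := Finite.of_injective j hj
  -- the metric
  let g := hF.metric
  obtain ⟨R, G⟩ := Q145.TN.exists_geo g
  let _ := Q145.TN.mS g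
  let b : P →* (M ≃ᵢ M) :=
    { toFun := fun p =>
        { toFun := a p
          invFun := a p⁻¹
          left_inv := fun x => by rw [← ha.mul, inv_mul_cancel, ha.one]
          right_inv := fun x => by rw [← ha.mul, mul_inv_cancel, ha.one]
          isometry_toFun := fun x y => by
            show (Q145.TN.mS g).toPseudoMetricSpace.toPseudoEMetricSpace.edist _ _ =
              (Q145.TN.mS g).toPseudoMetricSpace.toPseudoEMetricSpace.edist _ _
            rw [Q145.TN.edist_mS, Q145.TN.edist_mS]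
            exact hF.dist_eq ha p x y }
      map_one' := by
        ext x
        exact ha.one x
      map_mul' := fun p q => by
        ext x
        exact ha.mul p q x }
  -- the characters
  let f : Subgroup A → M → A → ℝ := fun B y v => if v ∈ B then chr E F T y (j v) else 0
  -- uniform local constancy
  have hloc : ∀ (y : M) (B : Subgroup A), ∃ U : Set M, IsOpen U ∧ y ∈ U ∧ ∀ z ∈ U, ∀ z' ∈ U,
      (∀ v ∈ B, a (j v) z = z) → (∀ v ∈ B, a (j v) z' = z') → f B z = f B z' := by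
    intro y B
    by_cases hy : ∀ v ∈ B, a (j v) y = y
    · have h1 := hL E M P a W F T hF ha (j '' (B : Set A)) y (by
        rintro _ ⟨v, hv, rfl⟩
        exact hy v hv)
      obtain ⟨U, hU, hUo, hyU⟩ := _root_.mem_nhds_iff.1 h1
      have h2 : ∀ z ∈ U, (∀ v ∈ B, a (j v) z = z) → f B z = f B y := by
        intro z hz hzf
        funext v
        show (if v ∈ B then chr E F T z (j v) else 0) = (if v ∈ B then chr E F T y (j v) else 0)
        split_ifs with hv
        · exact hU hz (by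
            rintro _ ⟨w, hw, rfl⟩
            exact hzf w hw) (j v) ⟨v, hv, rfl⟩
        · rfl
      exact ⟨U, hUo, hyU, fun z hz z' hz' h3 h4 => (h2 z hz h3).trans (h2 z' hz' h4).symm⟩
    · push Not at hy
      obtain ⟨v, hvB, hv⟩ := hy
      refine ⟨{z | a (j v) z ≠ z}, ?_, hv, fun z hz z' _ h3 _ => absurd (h3 v hvB) hz⟩
      exact (isClosed_eq (ha.smooth (j v)).continuous continuous_id).isOpen_compl
  choose U hUo hyU hU using hloc
  have hfinS : Finite (Subgroup A) := inferInstance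
  obtain ⟨δ, hδ, hδU⟩ := lebesgue_number_lemma_of_metric (s := (Set.univ : Set M))
    (c := fun y => ⋂ B, U y B)
    isCompact_univ (fun y => isOpen_iInter_of_finite fun B => hUo y B)
    (fun y _ => Set.mem_iUnion.2 ⟨y, Set.mem_iInter.2 fun B => hyU y B⟩)
  have hf : ∀ (B : Subgroup A) (y y' : M), (∀ v ∈ B, b (j v) y = y) →
      (∀ v ∈ B, b (j v) y' = y') → dist y y' < δ → f B y = f B y' := by
    intro B y y' h1 h2 h3
    obtain ⟨i, hi⟩ := hδU y (Set.mem_univ y)
    exact hU i B y (Set.mem_iInter.1 (hi (Metric.mem_ball_self hδ)) B) y'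
      (Set.mem_iInter.1 (hi (by rw [Metric.mem_ball, dist_comm]; exact h3)) B) h1 h2
  obtain ⟨B, x, hB, hx, hfx⟩ := ge2_geo hC G b p j hj hA s m hs f δ hδ hf
  have hx' : ∀ v ∈ B, a (j v) x = x := hx
  have hfx' : f B x = f B (a s x) := hfx
  let ρ : B →* (TS E F x →ₗ[ℝ] TS E F x) :=
    { toFun := fun v => ((T (j v) : W →ₗ[ℝ] W)).restrict
        (fun w hw => hF.T_mem ha (hx' v v.2) hw)
      map_one' := by
        ext w
        show T (j ((1 : B) : A)) w = w
        rw [Subgroup.coe_one, map_one]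
        exact hF.one w
      map_mul' := fun v v' => by
        ext w
        show T (j ((v * v' : B) : A)) w = T (j v) (T (j v') w)
        rw [Subgroup.coe_mul, map_mul]
        exact hF.mul _ _ w }
  have hρ : ∀ v : B, LinearMap.trace ℝ (TS E F x) (ρ v) = chr E F T x (j v) :=
    fun v => geo_trace hF ha (hx' v v.2)
  refine ⟨B, TS E F x, inferInstance, inferInstance, inferInstance, ρ, hB, hF.finrank_TS x,
    ?_, ?_⟩
  · intro v hv y
    apply hF.trivial_of_fix ha (hx' v v.2)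
    intro w hw
    have h1 : ρ v ⟨w, hw⟩ = ⟨w, hw⟩ := by rw [hv]; rfl
    exact congrArg Subtype.val h1
  · intro v
    rw [hρ, hρ]
    have h1 : ∀ w ∈ B, chr E F T x (j w) = chr E F T (a s x) (j w) := by
      intro w hw
      have h2 := congrFun hfx' w
      have h3 : (if w ∈ B then chr E F T x (j w) else 0) =
        (if w ∈ B then chr E F T (a s x) (j w) else 0) := h2
      rwa [if_pos hw, if_pos hw] at h3
    have h4 : ((v ^ m : B) : A) = (v : A) ^ m := rfl
    rw [h4, h1 _ (B.pow_mem v.2 m), ← hs]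
    exact hE E M P a W F T hF ha x s (j v)

end Pool.Agent.Helper47.FB
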