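import Pool.Agent.Helper47.FB.Base

/-!
# IDX: a finite group acting on the cosets of a subgroup of index prime to `p`
-/

set_option autoImplicit false

namespace Pool.Agent.Helper47.FB

theorem idx : S_IDX := by
  intro G _ Γ Δ p _ K _ _ φ hφ A _ hpA hnd
  let φ' : K →* Γ := φ.codRestrict Γ hφ
  letI : MulAction K (Γ ⧸ (Δ.subgroupOf Γ)) := MulAction.compHom _ φ'
  have hcard : Nat.card (Γ ⧸ (Δ.subgroupOf Γ)) = Δ.relIndex Γ := rfl
  have hne : Nat.card (Γ ⧸ (Δ.subgroupOf Γ)) ≠ 0 := by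
    rw [hcard]
    intro h
    rw [h] at hnd
    exact hnd (dvd_zero p)
  haveI hfin : Finite (Γ ⧸ (Δ.subgroupOf Γ)) := Nat.finite_of_card_ne_zero hne
  have hnd' : ¬ p ∣ Nat.card (Γ ⧸ (Δ.subgroupOf Γ)) := by
    rw [hcard]
    exact hnd
  obtain ⟨x, hx⟩ := hpA.nonempty_fixed_point_of_prime_not_dvd_card (Γ ⧸ (Δ.subgroupOf Γ)) hnd'
  obtain ⟨γ, rfl⟩ := QuotientGroup.mk_surjective x
  refine ⟨(γ : G), γ.2, MulAction.stabilizer K (QuotientGroup.mk γ : Γ ⧸ (Δ.subgroupOf Γ)),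
    ?_, ?_, ?_⟩
  · intro a ha
    exact hx ⟨a, ha⟩
  · rw [MulAction.index_stabilizer]
    rw [← hcard]
    exact Nat.card_le_card_of_injective _ (Subtype.val_injective)
  · intro q hq
    have h1 : (QuotientGroup.mk (φ' q * γ) : Γ ⧸ (Δ.subgroupOf Γ)) = QuotientGroup.mk γ := hq
    have h2 := QuotientGroup.eq.mp h1.symm
    have h3 : γ⁻¹ * (φ' q * γ) ∈ Δ.subgroupOf Γ := h2
    rw [Subgroup.mem_subgroupOf] at h3
    simpa [φ', mul_assoc] using h3

end Pool.Agent.Helper47.FB
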