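import Pool.Agent.Helper47.FB.Base

/-!
# Module LOC: the character of the isotropy representation is locally constant on the fixed set
-/

set_option autoImplicit false

namespace Pool.Agent.Helper47.FB

open Module Pool.Agent.H185.ZM
open scoped Manifold ContDiff Topology

/-- the tangent spaces near `x` are contained in the ranges of the derivatives of the
parametrization at `x` -/
theorem loc_range {E : Type} [NormedAddCommGroup E] [NormedSpace ℝ E] [FiniteDimensional ℝ E]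
    {M : Type} [TopologicalSpace M] [ChartedSpace E M] [IsManifold 𝓘(ℝ, E) ∞ M]
    {W : Type} [NormedAddCommGroup W] [InnerProductSpace ℝ W] {F : M → W}
    (hF : ContMDiff 𝓘(ℝ, E) 𝓘(ℝ, W) ∞ F) (x y : M) (hy : y ∈ (chartAt E x).source) (v : E) :
    ∃ w : E, DF E F y v =
      fderiv ℝ (F ∘ (extChartAt 𝓘(ℝ, E) x).symm) (extChartAt 𝓘(ℝ, E) x y) w := by
  have hy' : y ∈ (extChartAt 𝓘(ℝ, E) x).source := by
    rw [extChartAt_source]; exact hy
  have h1 : MDifferentiableAt 𝓘(ℝ, E) 𝓘(ℝ, E) (extChartAt 𝓘(ℝ, E) x) y :=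
    (contMDiffAt_extChartAt' (n := ∞) hy).mdifferentiableAt (by simp)
  have h2 : ContDiffAt ℝ ∞ (F ∘ (extChartAt 𝓘(ℝ, E) x).symm) (extChartAt 𝓘(ℝ, E) x y) :=
    Pool.Agent.H839R2.Geo.contDiffAt_chart hF x ((extChartAt 𝓘(ℝ, E) x).map_source hy')
  have h3 : DifferentiableAt ℝ (F ∘ (extChartAt 𝓘(ℝ, E) x).symm)
      (extChartAt 𝓘(ℝ, E) x y) := h2.differentiableAt (by simp)
  have h4 := h3.hasFDerivAt.hasMFDerivAt.comp y h1.hasMFDerivAt
  have h5 : ((F ∘ (extChartAt 𝓘(ℝ, E) x).symm) ∘ (extChartAt 𝓘(ℝ, E) x)) =ᶠ[𝓝 y] F := by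
    filter_upwards [extChartAt_source_mem_nhds' (I := 𝓘(ℝ, E)) hy'] with z hz
    show F ((extChartAt 𝓘(ℝ, E) x).symm (extChartAt 𝓘(ℝ, E) x z)) = F z
    rw [(extChartAt 𝓘(ℝ, E) x).left_inv hz]
  have h6 := h4.congr_of_eventuallyEq h5.symm
  refine ⟨(mfderiv 𝓘(ℝ, E) 𝓘(ℝ, E) (extChartAt 𝓘(ℝ, E) x) y : E →L[ℝ] E) v, ?_⟩
  exact congrArg (fun A : E →L[ℝ] W => A v) h6.mfderiv

theorem loc_inj {E : Type} [NormedAddCommGroup E] [NormedSpace ℝ E] [FiniteDimensional ℝ E]
    {M : Type} [TopologicalSpace M] [ChartedSpace E M] [IsManifold 𝓘(ℝ, E) ∞ M]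
    {P : Type} [Group P] {a : P → M → M} {W : Type} [NormedAddCommGroup W]
    [InnerProductSpace ℝ W] {F : M → W} {T : P → W →L[ℝ] W} (h : EquiEmb E a W F T) (x : M) :
    ∀ᶠ y in 𝓝 x, ∀ v ∈ TS E F y, (TS E F x).orthogonalProjectionOnto v = 0 → v = 0 := by
  let G : E → W := F ∘ (extChartAt 𝓘(ℝ, E) x).symm
  let pr : W →L[ℝ] TS E F x := (TS E F x).orthogonalProjectionOnto
  have hG : ∀ y ∈ (extChartAt 𝓘(ℝ, E) x).source,
      ContDiffAt ℝ ∞ G (extChartAt 𝓘(ℝ, E) x y) := fun y hy =>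
    Pool.Agent.H839R2.Geo.contDiffAt_chart h.smooth x ((extChartAt 𝓘(ℝ, E) x).map_source hy)
  have hx : x ∈ (extChartAt 𝓘(ℝ, E) x).source := mem_extChartAt_source x
  -- continuity of the derivative
  have hc : ContinuousAt (fun z => pr.comp (fderiv ℝ G z)) (extChartAt 𝓘(ℝ, E) x x) := by
    have h1 : ContDiffAt ℝ 0 (fderiv ℝ G) (extChartAt 𝓘(ℝ, E) x x) :=
      (hG x hx).fderiv_right (m := 0) (by simp)
    exact continuousAt_const.clm_comp h1.continuousAt
  -- injectivity at `x`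
  have hinj : Function.Injective (pr.comp (fderiv ℝ G (extChartAt 𝓘(ℝ, E) x x))) := by
    rw [injective_iff_map_eq_zero]
    intro w hw
    -- the range of the derivative of `G` at `x` is the tangent space
    have h2 : LinearMap.range (DF E F x : E →ₗ[ℝ] W) ≤
        LinearMap.range (fderiv ℝ G (extChartAt 𝓘(ℝ, E) x x) : E →ₗ[ℝ] W) := by
      rintro _ ⟨v, rfl⟩
      obtain ⟨w, hw⟩ := loc_range h.smooth x x (mem_chart_source E x) v
      exact ⟨w, hw.symm⟩
    have h3 : finrank ℝ (LinearMap.range (fderiv ℝ G (extChartAt 𝓘(ℝ, E) x x) : E →ₗ[ℝ] W)) ≤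
        finrank ℝ (LinearMap.range (DF E F x : E →ₗ[ℝ] W)) := by
      have h4 := h.finrank_TS x
      unfold TS at h4
      rw [h4]
      exact LinearMap.finrank_range_le _
    have h5 := Submodule.eq_of_le_of_finrank_le h2 h3
    have h6 : (fderiv ℝ G (extChartAt 𝓘(ℝ, E) x x) w) ∈ TS E F x := by
      unfold TS
      rw [h5]
      exact ⟨w, rfl⟩
    have h7 : (pr (fderiv ℝ G (extChartAt 𝓘(ℝ, E) x x) w) : W) =
        fderiv ℝ G (extChartAt 𝓘(ℝ, E) x x) w :=
      congrArg Subtype.val (Submodule.orthogonalProjectionOnto_mem_subspace_eq_self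
        (K := TS E F x) ⟨_, h6⟩)
    have h8 : fderiv ℝ G (extChartAt 𝓘(ℝ, E) x x) w = 0 := by
      rw [← h7]
      exact congrArg Subtype.val hw
    -- the derivative of `G` is injective
    have h9 : finrank ℝ (LinearMap.range (fderiv ℝ G (extChartAt 𝓘(ℝ, E) x x) : E →ₗ[ℝ] W)) =
        finrank ℝ E := by
      rw [← h5]
      exact h.finrank_TS x
    have h10 := LinearMap.finrank_range_add_finrank_ker
      (fderiv ℝ G (extChartAt 𝓘(ℝ, E) x x) : E →ₗ[ℝ] W)
    have h11 : finrank ℝ (LinearMap.ker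
        (fderiv ℝ G (extChartAt 𝓘(ℝ, E) x x) : E →ₗ[ℝ] W)) = 0 := by omega
    have h12 := Submodule.finrank_eq_zero.1 h11
    exact (LinearMap.ker_eq_bot'.1 h12) w h8
  let L : E ≃ₗ[ℝ] TS E F x := LinearEquiv.ofInjectiveOfFinrankEq
    ((pr.comp (fderiv ℝ G (extChartAt 𝓘(ℝ, E) x x)) : E →L[ℝ] TS E F x) : E →ₗ[ℝ] TS E F x) hinj
    (h.finrank_TS x).symm
  let L' : E ≃L[ℝ] TS E F x := L.toContinuousLinearEquiv
  have hL : (L' : E →L[ℝ] TS E F x) = pr.comp (fderiv ℝ G (extChartAt 𝓘(ℝ, E) x x)) := by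
    ext v
    rfl
  have h13 : ∀ᶠ A in 𝓝 (pr.comp (fderiv ℝ G (extChartAt 𝓘(ℝ, E) x x))),
      ∃ e : E ≃L[ℝ] TS E F x, (e : E →L[ℝ] TS E F x) = A := by
    rw [← hL]
    exact L'.nhds
  have h14 := hc.eventually h13
  have h15 := (continuousAt_extChartAt (I := 𝓘(ℝ, E)) x).eventually h14
  filter_upwards [h15, chart_source_mem_nhds E x] with y hy hys v hv hpv
  obtain ⟨e, he⟩ := hy
  obtain ⟨u, rfl⟩ := hv
  obtain ⟨w, hw⟩ := loc_range h.smooth x y hys u
  have h16 : e w = pr (fderiv ℝ G (extChartAt 𝓘(ℝ, E) x y) w) := by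
    have := congrArg (fun A : E →L[ℝ] TS E F x => A w) he
    exact this
  have h17 : pr (fderiv ℝ G (extChartAt 𝓘(ℝ, E) x y) w) = 0 := by
    have h18 : pr (DF E F y u) = 0 := hpv
    rw [hw] at h18
    exact h18
  rw [h17] at h16
  have h19 : w = 0 := by
    have := e.injective (h16.trans (map_zero e).symm)
    exact this
  show DF E F y u = 0
  rw [hw, h19, map_zero]

theorem loc : S_LOC := by
  intro E _ _ _ M _ _ _ _ P _ a W _ _ _ F T h ha A x hx
  filter_upwards [loc_inj h x] with y hy hfix g hg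
  let f : TS E F y →ₗ[ℝ] TS E F x :=
    ((TS E F x).orthogonalProjectionOnto : W →ₗ[ℝ] TS E F x) ∘ₗ (TS E F y).subtype
  have hf : Function.Injective f := by
    rw [injective_iff_map_eq_zero]
    intro v hv
    exact Subtype.ext (hy v v.2 hv)
  let e : TS E F y ≃ₗ[ℝ] TS E F x := LinearEquiv.ofInjectiveOfFinrankEq f hf
    (by rw [h.finrank_TS, h.finrank_TS])
  have hxg := hx g hg
  have hyg := hfix g hg
  -- the projection commutes with `T g`
  have hcomm : ∀ w : W, (TS E F x).starProjection (T g w) = T g ((TS E F x).starProjection w) := by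
    intro w
    apply Submodule.eq_starProjection_of_mem_of_inner_eq_zero
    · exact h.T_mem ha hxg (Submodule.starProjection_apply_mem _ _)
    · intro v hv
      have h3 : T g (T g⁻¹ v) = v := by rw [← h.mul, mul_inv_cancel, h.one]
      rw [← map_sub, ← h3, h.isom]
      exact Submodule.starProjection_inner_eq_zero _ _ (h.T_mem ha (inv_fix ha hxg) hv)
  unfold chr
  rw [← LinearMap.trace_conj' (((TS E F y).orthogonalProjectionOnto : W →ₗ[ℝ] TS E F y) ∘ₗ
    (T g : W →ₗ[ℝ] W) ∘ₗ (TS E F y).subtype) e]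
  congr 1
  apply LinearMap.ext
  intro v
  obtain ⟨u, rfl⟩ := e.surjective v
  rw [LinearEquiv.conj_apply_apply, LinearEquiv.symm_apply_apply]
  apply Subtype.ext
  have h1 : ((TS E F y).orthogonalProjectionOnto (T g (u : W)) : W) = T g (u : W) :=
    congrArg Subtype.val (Submodule.orthogonalProjectionOnto_mem_subspace_eq_self
      (K := TS E F y) ⟨_, h.T_mem ha hyg u.2⟩)
  have h2 : (TS E F x).starProjection ((TS E F x).starProjection (u : W)) =
      (TS E F x).starProjection (u : W) :=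
    Submodule.starProjection_eq_self_iff.2 (Submodule.starProjection_apply_mem _ _)
  show (TS E F x).starProjection (((TS E F y).orthogonalProjectionOnto (T g (u : W)) : W)) =
    (TS E F x).starProjection (T g ((TS E F x).starProjection (u : W)))
  rw [h1, hcomm, hcomm, h2]

end Pool.Agent.Helper47.FB
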