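import Pool.Agent.Helper47.FB.Emb

/-!
# Lattices containing powers of Frobenius groups
-/

set_option autoImplicit false

namespace Pool.Agent.Helper47.FB

open Module Pool.Agent.Helper381 Pool.Agent.H185.ZM Pool.Agent.Helper47.ZQ Matrix
  Pool.Agent.X183.ZM
open scoped Manifold ContDiff Topology

variable {F : Type} [Group F] {p k : ℕ} {z : F} {c : F →* (ZMod p)ˣ} {O : Type} [Ring O]

theorem Frob.ne_two (h : Frob p k z c) : p ≠ 2 := by
  intro h2
  subst h2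
  have h1 : Nat.card c.range ≤ Nat.card (ZMod 2)ˣ := Subgroup.card_le_card_group _
  have h3 : Nat.card (ZMod 2)ˣ = 1 := by
    rw [Nat.card_eq_fintype_card]
    decide
  rw [h.card, h3] at h1
  exact absurd h.one_lt (not_lt.2 h1)

theorem Frob.exists_ne (h : Frob p k z c) : ∃ g, c g ≠ 1 := by
  by_contra hcon
  push Not at hcon
  have h1 : c.range = ⊥ := by
    rw [eq_bot_iff]
    rintro _ ⟨g, rfl⟩
    exact hcon g
  have h2 := h.card
  rw [h1, Subgroup.card_bot] at h2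
  exact absurd h.one_lt (by omega)

theorem fD_coe (u : F →* O) (n : ℕ) (q : Fin n → F) :
    ((fD u n q : (Matrix (Fin n) (Fin n) O)ˣ) : Matrix (Fin n) (Fin n) O) =
      diagonal (fun i => u (q i)) := rfl

theorem u_inj (h : Frob p k z c) (u : F →* O) (hu : u z ≠ 1) {a b : ZMod p}
    (hab : u (z ^ a.val) = u (z ^ b.val)) : a = b := by
  have := Fact.mk h.prime
  let u' : F →* Oˣ := MonoidHom.toHomUnits u
  have h1 : orderOf (u' z) = p := by
    apply orderOf_eq_prime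
    · rw [← map_pow, ← h.ord, pow_orderOf_eq_one, map_one]
    · intro h2
      exact hu (congrArg Units.val h2)
  have h2 : u' z ^ a.val = u' z ^ b.val := by
    rw [← map_pow, ← map_pow]
    exact Units.ext hab
  have h3 := pow_inj_mod.1 h2
  rw [h1, Nat.mod_eq_of_lt (ZMod.val_lt a), Nat.mod_eq_of_lt (ZMod.val_lt b)] at h3
  exact ZMod.val_injective p h3

theorem not_central (h : Frob p k z c) (u : F →* O) (hu : u z ≠ 1) {n : ℕ} (v : Fin n → ZMod p)
    (hv : v ≠ 0) : fD u n (iv z v) ∉ Subgroup.center (Matrix (Fin n) (Fin n) O)ˣ := by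
  classical
  have := Fact.mk h.prime
  intro hc
  obtain ⟨i, hi⟩ := Function.ne_iff.1 hv
  obtain ⟨g, hg⟩ := h.exists_ne
  have h1 := Subgroup.mem_center_iff.1 hc (fD u n (Pi.mulSingle i g))
  have h2 : fD u n (Pi.mulSingle i g * iv z v * (Pi.mulSingle i g)⁻¹) = fD u n (iv z v) := by
    rw [map_mul, map_mul, h1, map_inv, mul_inv_cancel_right]
  rw [jo_conj h] at h2
  have h3 : (fD u n (iv z (fun j => (c ((Pi.mulSingle i g : Fin n → F) j) : ZMod p) * v j)) :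
      Matrix (Fin n) (Fin n) O) i i = (fD u n (iv z v) : Matrix (Fin n) (Fin n) O) i i := by
    rw [h2]
  rw [fD_coe, fD_coe, diagonal_apply_eq, diagonal_apply_eq] at h3
  have h4 : (c ((Pi.mulSingle i g : Fin n → F) i) : ZMod p) * v i = v i := u_inj h u hu h3
  rw [Pi.mulSingle_eq_same] at h4
  have h5 : ((c g : ZMod p) - 1) * v i = 0 := by rw [sub_mul, h4, one_mul, sub_self]
  rcases mul_eq_zero.1 h5 with h6 | h6
  · exact hg (Units.ext (sub_eq_zero.1 h6))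
  · exact hi h6

variable {E : Type} [NormedAddCommGroup E] [NormedSpace ℝ E] [FiniteDimensional ℝ E]
  {M : Type} [TopologicalSpace M] [ChartedSpace E M] [IsManifold 𝓘(ℝ, E) ∞ M]

/-- groups commensurable with a group which contains the diagonal matrices -/
theorem lat (hG : S_GEO) (hR : S_RPW) (hC : S_CMB) (hI : S_IDX) [CompactSpace M] [T2Space M]
    [ConnectedSpace M] [Finite F] (h : Frob p k z c) (u : F →* O) {n : ℕ}
    (Γ Δ : Subgroup (Matrix (Fin n) (Fin n) O)ˣ) (hΓ : ∀ q, fD u n q ∈ Γ)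
    (hχ : ¬ (p : ℤ) ∣ eulerChar M) (hidx : ¬ p ∣ Δ.relIndex Γ) (C : ℕ)
    (hNB : haveI := Fact.mk h.prime
      Δ.relIndex Γ * (totalBetti (ZMod p) M).toNat < k.minFac ^ (C + 1))
    (hdim : finrank ℝ E + 2 * k * C < 2 * k * n)
    (α : Δ → (M ≃ₘ^∞⟮𝓘(ℝ, E), 𝓘(ℝ, E)⟯ M)) (hα : IsHom α) :
    ∃ v : Fin n → ZMod p, v ≠ 0 ∧ ∃ γ ∈ Γ, ∃ hm : γ⁻¹ * fD u n (iv z v) * γ ∈ Δ,
      ∀ x, α ⟨_, hm⟩ x = x := by
  haveI := Fact.mk h.prime
  have hpA : IsPGroup p (jo h n).range := by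
    rintro ⟨_, v, rfl⟩
    refine ⟨1, Subtype.ext ?_⟩
    rw [pow_one]
    show (jo h n v) ^ p = 1
    rw [← map_pow]
    have : v ^ p = 1 := by
      apply Multiplicative.toAdd.injective
      rw [toAdd_pow, toAdd_one]
      funext i
      simp
    rw [this, map_one]
  have hnA : (jo h n).range.Normal := by
    constructor
    rintro _ ⟨v, rfl⟩ g
    exact ⟨Multiplicative.ofAdd (fun i => (c (g i) : ZMod p) * Multiplicative.toAdd v i),
      (jo_conj h g (Multiplicative.toAdd v)).symm⟩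
  obtain ⟨γ, hγ, Q, hAQ, hQi, hQ⟩ := hI _ Γ Δ p (Fin n → F) (fD u n) hΓ (jo h n).range hnA hpA hidx
  have hivQ : ∀ v : Fin n → ZMod p, iv z v ∈ Q := fun v => hAQ ⟨Multiplicative.ofAdd v, rfl⟩
  let ψ : Q →* Δ :=
    { toFun := fun q => ⟨γ⁻¹ * fD u n q * γ, hQ q q.2⟩
      map_one' := Subtype.ext (by simp)
      map_mul' := fun x y => Subtype.ext (by simp [mul_assoc]) }
  obtain ⟨v, hv, hx⟩ := sub hG hR hC h Q hivQ (Δ.relIndex Γ) C (by
      rw [← card_compLeft h n]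
      exact (card_map_le _ Q).trans (Nat.mul_le_mul_left _ hQi)) (hα.action.comp ψ) hχ hNB hdim
  exact ⟨v, hv, γ, hγ, hQ _ (hivQ v), hx⟩

/-- groups which contain the elementary matrices -/
theorem ele (hG : S_GEO) (hR : S_RPW) (hC : S_CMB) (hW : S_WHT) (hV : S_EVP) (hB : S_ELB)
    [CompactSpace M] [T2Space M] [ConnectedSpace M] [Finite F] (h : Frob p k z c) (u : F →* O)
    (hu : ∑ i ∈ Finset.range p, u z ^ i = 0) {n : ℕ} (hn : 4 ≤ n)
    (hχ : ¬ (p : ℤ) ∣ eulerChar M) (C : ℕ)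
    (hNB : haveI := Fact.mk h.prime; k * (totalBetti (ZMod p) M).toNat < k.minFac ^ (C + 1))
    (hdim : finrank ℝ E + 2 * k * C < 2 * k * n) (hsq : finrank ℝ E / 2 < (n / 2) * (n / 2))
    (Γ : Subgroup (Matrix (Fin n) (Fin n) O)ˣ) (hΓ : EL n O ≤ Γ)
    (α : Γ → (M ≃ₘ^∞⟮𝓘(ℝ, E), 𝓘(ℝ, E)⟯ M)) (hα : IsHom α)
    (g : (Matrix (Fin n) (Fin n) O)ˣ) (hg : g ∈ EL n O) (x : M) : α ⟨g, hΓ hg⟩ x = x := by
  haveI := Fact.mk h.prime
  obtain ⟨w1, w2⟩ := hW O F p k z c h u n (by omega)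
  set N : Subgroup (Matrix (Fin n) (Fin n) O)ˣ := (actKer hα.action).map Γ.subtype with hNd
  have hmem : ∀ g, g ∈ N ↔ ∃ h : g ∈ Γ, ∀ x, α ⟨g, h⟩ x = x := by
    intro g
    constructor
    · rintro ⟨γ, hγ, rfl⟩
      exact ⟨γ.2, hγ⟩
    · rintro ⟨h, h1⟩
      exact ⟨⟨g, h⟩, h1, rfl⟩
  have hEN : ZQ.ENorm N := by
    rintro g ⟨γ, hγ, rfl⟩ i j h x
    have h1 : El i j h x ∈ Γ := hΓ (El_mem h x)
    have h2 : (actKer hα.action).Normal := inferInstance
    have h3 := h2.conj_mem γ hγ (⟨El i j h x, h1⟩ : Γ)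
    exact ⟨_, h3, rfl⟩
  let Q : Subgroup (Fin n → F) := (EL n O).comap (fD u n)
  let ψ : Q →* Γ :=
    { toFun := fun q => ⟨fD u n q, hΓ q.2⟩
      map_one' := Subtype.ext (by simp)
      map_mul' := fun x y => Subtype.ext (by simp) }
  obtain ⟨v, hv, hx⟩ := sub hG hR hC h Q (fun v => w1 v) k C w2 (hα.action.comp ψ) hχ hNB hdim
  have hs : fD u n (iv z v) ∈ N := (hmem _).2 ⟨hΓ (w1 v), hx⟩
  have hev := hV O F p k z c h u hu n (by omega) N hEN v hv hs
  exact hB E M O p n h.ne_two hn Γ hΓ α hα (fun i j hij y w => by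
    obtain ⟨h5, h6⟩ := (hmem _).1 (hev i j hij y)
    exact h6 w) hχ hsq g hg x

end Pool.Agent.Helper47.FB
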