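import Pool.Agent.Helper47.FB.Main
import Pool.Agent.Helper47.FB.Cor2

/-!
# Lattices containing powers of Frobenius groups, arbitrary closed manifolds
-/

set_option autoImplicit false

namespace Pool.Agent.Helper47.FB

open Module Pool.Agent.Helper381 Pool.Agent.H185.ZM Pool.Agent.Helper47.ZQ Matrix
  Pool.Agent.X183.ZM Pool.Agent.E8helper2.ZB
open scoped Manifold ContDiff Topology

variable {F : Type} [Group F] {p k : ℕ} {z : F} {c : F →* (ZMod p)ˣ} {O : Type} [Ring O]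

theorem Frob.lt (h : Frob p k z c) : k < p := by
  haveI := Fact.mk h.prime
  have h1 : Nat.card c.range ≤ Nat.card (ZMod p)ˣ := Subgroup.card_le_card_group _
  rw [h.card, Nat.card_eq_fintype_card, ZMod.card_units] at h1
  have h2 := h.prime.two_le
  omega

/-- append the entry `0` -/
def sno (p n : ℕ) : (Fin n → ZMod p) →+ (Fin (n + 1) → ZMod p) where
  toFun v := fun i => if h : (i : ℕ) < n then v ⟨i, h⟩ else 0
  map_zero' := by
    funext i
    by_cases h : (i : ℕ) < n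
    · simp [h]
    · simp [h]
  map_add' := fun v w => by
    funext i
    by_cases h : (i : ℕ) < n
    · simp [h]
    · simp [h]

theorem sno_inj (p n : ℕ) : Function.Injective (sno p n) := by
  intro v w h
  funext i
  have h1 := congrFun h (i.castSucc)
  have h2 : ((i.castSucc : Fin (n + 1)) : ℕ) < n := i.2
  have h3 : ∀ v : Fin n → ZMod p, sno p n v i.castSucc = v i := by
    intro v
    show (if h : ((i.castSucc : Fin (n + 1)) : ℕ) < n then v ⟨_, h⟩ else 0) = v i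
    rw [dif_pos h2]
    rfl
  rw [h3, h3] at h1
  exact h1

theorem sno_last (p n : ℕ) (v : Fin n → ZMod p) : sno p n v (Fin.last n) = 0 := by
  show (if h : ((Fin.last n : Fin (n + 1)) : ℕ) < n then v ⟨_, h⟩ else 0) = 0
  rw [dif_neg (by simp)]

variable {E : Type} [NormedAddCommGroup E] [NormedSpace ℝ E] [FiniteDimensional ℝ E]
  {M : Type} [TopologicalSpace M] [ChartedSpace E M] [IsManifold 𝓘(ℝ, E) ∞ M]

/-- groups commensurable with a group which contains the diagonal matrices, arbitrary `M` -/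
theorem lat2 (hG : S_GE2) (hR : S_RPW) (hP : S_SPN) (hI : S_IDX) [CompactSpace M] [T2Space M]
    [ConnectedSpace M] [Finite F] (h : Frob p k z c) (u : F →* O) {n : ℕ}
    (Γ Δ : Subgroup (Matrix (Fin n) (Fin n) O)ˣ) (hΓ : ∀ q, fD u n q ∈ Γ)
    (hidx : Δ.relIndex Γ ≠ 0) (hlt : Δ.relIndex Γ < k.minFac)
    (hdim : haveI := Fact.mk h.prime
      finrank ℝ E + 2 * k * (2 * ((totalBetti (ZMod p) M).toNat - 1)) < 2 * k * n)
    (α : Δ → (M ≃ₘ^∞⟮𝓘(ℝ, E), 𝓘(ℝ, E)⟯ M)) (hα : IsHom α) :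
    ∃ v : Fin n → ZMod p, v ≠ 0 ∧ ∃ γ ∈ Γ, ∃ hm : γ⁻¹ * fD u n (iv z v) * γ ∈ Δ,
      ∀ x, α ⟨_, hm⟩ x = x := by
  haveI := Fact.mk h.prime
  have hpA : IsPGroup p (jo h n).range := by
    rintro ⟨_, v, rfl⟩
    refine ⟨1, Subtype.ext ?_⟩
    rw [pow_one]
    show (jo h n v) ^ p = 1
    rw [← map_pow]
    have : v ^ p = 1 := by
      apply Multiplicative.toAdd.injective
      rw [toAdd_pow, toAdd_one]
      funext i
      simp
    rw [this, map_one]
  have hnA : (jo h n).range.Normal := by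
    constructor
    rintro _ ⟨v, rfl⟩ g
    exact ⟨Multiplicative.ofAdd (fun i => (c (g i) : ZMod p) * Multiplicative.toAdd v i),
      (jo_conj h g (Multiplicative.toAdd v)).symm⟩
  have hkp := h.lt
  have hk1 := h.one_lt
  have hmf : k.minFac ≤ k := Nat.minFac_le (by omega)
  have hpidx : ¬ p ∣ Δ.relIndex Γ := fun hd => by
    have := Nat.le_of_dvd (Nat.pos_of_ne_zero hidx) hd
    omega
  obtain ⟨γ, hγ, Q, hAQ, hQi, hQ⟩ := hI _ Γ Δ p (Fin n → F) (fD u n) hΓ (jo h n).range hnA hpA hpidx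
  have hivQ : ∀ v : Fin n → ZMod p, iv z v ∈ Q := fun v => hAQ ⟨Multiplicative.ofAdd v, rfl⟩
  obtain ⟨t, ht⟩ := h.exists_gen
  obtain ⟨e, he0, hei, heQ⟩ := Subgroup.exists_pow_mem_of_index_ne_zero
    (H := Q) (Subgroup.index_ne_zero_of_finite) (fun _ : Fin n => t)
  have hco : k.Coprime e := Nat.coprime_of_lt_minFac (by omega) (by omega)
  have hte : orderOf (c (t ^ e)) = k := by
    rw [map_pow, Nat.Coprime.orderOf_pow (by rw [ht]; exact hco), ht]
  let ψ : Q →* Δ :=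
    { toFun := fun q => ⟨γ⁻¹ * fD u n q * γ, hQ q q.2⟩
      map_one' := Subtype.ext (by simp)
      map_mul' := fun x y => Subtype.ext (by simp [mul_assoc]) }
  obtain ⟨v, hv, hx⟩ := sub2 hG hR hP h h.ne_two Q (AddMonoidHom.id _) (fun _ _ h => h)
    (fun v => hivQ v) (t ^ e) hte _ heQ (fun v i => rfl) (hα.action.comp ψ) hdim
  exact ⟨v, hv, γ, hγ, hQ _ (hivQ v), hx⟩

/-- groups which contain the elementary matrices, arbitrary `M` -/
theorem ele2 (hG : S_GE2) (hR : S_RPW) (hP : S_SPN) (hW : S_WHT) (hW2 : S_WH2) (hV : S_EVP)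
    (hB : S_EL2) [CompactSpace M] [T2Space M] [ConnectedSpace M] [Finite F] (h : Frob p k z c)
    (u : F →* O) (hu : ∑ i ∈ Finset.range p, u z ^ i = 0) {n : ℕ} (hn : 4 ≤ n)
    (hdim : haveI := Fact.mk h.prime
      finrank ℝ E + 2 * k * (2 * ((totalBetti (ZMod p) M).toNat - 1)) < 2 * k * (n - 1))
    (hsq : haveI := Fact.mk h.prime
      finrank ℝ E / 2 + ((totalBetti (ZMod p) M).toNat - 1) < (n / 2) * (n / 2))
    (Γ : Subgroup (Matrix (Fin n) (Fin n) O)ˣ) (hΓ : EL n O ≤ Γ)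
    (α : Γ → (M ≃ₘ^∞⟮𝓘(ℝ, E), 𝓘(ℝ, E)⟯ M)) (hα : IsHom α)
    (g : (Matrix (Fin n) (Fin n) O)ˣ) (hg : g ∈ EL n O) (x : M) : α ⟨g, hΓ hg⟩ x = x := by
  haveI := Fact.mk h.prime
  obtain ⟨r, rfl⟩ : ∃ r, n = r + 1 := ⟨n - 1, by omega⟩
  rw [Nat.add_sub_cancel] at hdim
  obtain ⟨w1, w2⟩ := hW O F p k z c h u (r + 1) (by omega)
  set N : Subgroup (Matrix (Fin (r + 1)) (Fin (r + 1)) O)ˣ := (actKer hα.action).map Γ.subtype
    with hNd
  have hmem : ∀ g, g ∈ N ↔ ∃ h : g ∈ Γ, ∀ x, α ⟨g, h⟩ x = x := by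
    intro g
    constructor
    · rintro ⟨γ, hγ, rfl⟩
      exact ⟨γ.2, hγ⟩
    · rintro ⟨h, h1⟩
      exact ⟨⟨g, h⟩, h1, rfl⟩
  have hEN : ZQ.ENorm N := by
    rintro g ⟨γ, hγ, rfl⟩ i j h x
    have h1 : El i j h x ∈ Γ := hΓ (El_mem h x)
    have h2 : (actKer hα.action).Normal := inferInstance
    have h3 := h2.conj_mem γ hγ (⟨El i j h x, h1⟩ : Γ)
    exact ⟨_, h3, rfl⟩
  let Q : Subgroup (Fin (r + 1) → F) := (EL (r + 1) O).comap (fD u (r + 1))
  let ψ : Q →* Γ :=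
    { toFun := fun q => ⟨fD u (r + 1) q, hΓ q.2⟩
      map_one' := Subtype.ext (by simp)
      map_mul' := fun x y => Subtype.ext (by simp) }
  obtain ⟨t, ht⟩ := h.exists_gen
  obtain ⟨v, hv, hx⟩ := sub2 hG hR hP h h.ne_two Q (sno p r) (sno_inj p r)
    (fun v => w1 _) t ht (fun i => if i = Fin.last r then (t ^ r)⁻¹ else t) (hW2 O F u r t)
    (fun v i => by
      by_cases hi : i = Fin.last r
      · rw [hi, sno_last, mul_zero, mul_zero]
      · rw [if_neg hi]) (hα.action.comp ψ) hdim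
  have hs : fD u (r + 1) (iv z (sno p r v)) ∈ N := (hmem _).2 ⟨hΓ (w1 _), hx⟩
  have hv' : sno p r v ≠ 0 := fun h0 => hv (sno_inj p r (by rw [h0, map_zero]))
  have hev := hV O F p k z c h u hu (r + 1) (by omega) N hEN _ hv' hs
  exact hB E M O p (r + 1) h.ne_two hn Γ hΓ α hα (fun i j hij y w => by
    obtain ⟨h5, h6⟩ := (hmem _).1 (hev i j hij y)
    exact h6 w) hsq g hg x

end Pool.Agent.Helper47.FB
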