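import Pool.Agent.Helper47.FB.Base
import Pool.Graph.R_seed8.Helper381.Order

/-! ORB (helper77). -/

set_option autoImplicit false

namespace Pool.Agent.Helper47.FB

open Module Pool.Agent.Helper381

theorem orb_components {k : Type} [Field k] {P : Type} [PartialOrder P] {Q : Set P} (hQf : Q.Finite) {ι : Type}
    [Fintype ι] [DecidableEq ι] (J : ι → P) (hJ : ∀ a, J a ∈ Q)
    (e : ι → P → k) (he : ∀ a, ∀ x ∈ Q, ∀ y ∈ Q, x < y → e a x = e a y)
    (heJ : ∀ a b, e a (J b) = if a = b then 1 else 0) :
    Fintype.card ι ≤ finrank k (OrdCoh k Q 0) := by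
  have h1 : ∀ n, Finite (Ch Q n) := finite_Ch hQf
  let L0 : (ι → k) →ₗ[k] (Ch Q 0 → k) :=
    { toFun := fun v c => ∑ a, v a * e a (c.1 0)
      map_add' := by
        intro v w
        funext c
        simp only [Pi.add_apply, add_mul, Finset.sum_add_distrib]
      map_smul' := by
        intro r v
        funext c
        simp only [Pi.smul_apply, smul_eq_mul, RingHom.id_apply, Finset.mul_sum, mul_assoc] }
  have hL0 : ∀ v, L0 v ∈ LinearMap.ker (altd k (cface (Q := Q)) 0) := by
    intro v
    rw [LinearMap.mem_ker]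
    funext c
    rw [altd_apply, Fin.sum_univ_two]
    have hc : c.1 0 < c.1 1 := c.2.1 (by simp)
    have e1 : ∀ a, e a ((cface 0 0 c).1 0) = e a ((cface 0 1 c).1 0) := by
      intro a
      have : (cface 0 0 c).1 0 = c.1 1 := rfl
      have h2 : (cface 0 1 c).1 0 = c.1 0 := rfl
      rw [this, h2]
      exact (he a _ (c.2.2 0) _ (c.2.2 1) hc).symm
    have e2 : L0 v (cface 0 0 c) = L0 v (cface 0 1 c) := by
      change ∑ a, v a * e a ((cface 0 0 c).1 0) = ∑ a, v a * e a ((cface 0 1 c).1 0)
      simp only [e1]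
    rw [e2]
    simp only [Fin.val_zero, pow_zero, one_mul, Fin.val_one, pow_one, neg_mul, Pi.zero_apply]
    exact add_neg_cancel _
  let L : (ι → k) →ₗ[k] OrdCoh k Q 0 :=
    (Submodule.mkQ _).comp (L0.codRestrict _ hL0)
  have hinj : Function.Injective L := by
    rw [← LinearMap.ker_eq_bot, LinearMap.ker_eq_bot']
    intro v hv
    have h2 := (Submodule.Quotient.mk_eq_zero _).mp hv
    have h3 : L0 v = 0 := h2
    funext b
    have h4 := congrFun h3 (pt0 (J b) (hJ b))
    change ∑ a, v a * e a (J b) = 0 at h4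
    simp only [heJ] at h4
    simpa using h4
  have := LinearMap.finrank_le_finrank_of_injective hinj
  rwa [Module.finrank_fintype_fun_eq_card] at this

/-- the elements fixed by a list of group elements -/
def orbFix {A P : Type} [Group A] [MulAction A P] (Q : Set P) (gs : List A) : Set P :=
  {x | x ∈ Q ∧ ∀ g ∈ gs, g • x = x}

theorem orb_list (h : S_SMP) (p : ℕ) [Fact p.Prime] (A : Type) [CommGroup A]
    (hA : ∀ a : A, a ^ p = 1) (P : Type) [PartialOrder P] [MulAction A P] (Q : Set P) (hQ : Q.Finite)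
    (hm : ∀ a : A, StrictMono (fun x : P => a • x)) (hAQ : ∀ (a : A), ∀ x ∈ Q, a • x ∈ Q) (N : ℕ)
    (hN : Q.ncard ≤ N) (gs : List A) :
    ∑ n ∈ Finset.range N, finrank (ZMod p) (OrdCoh (ZMod p) (orbFix Q gs) n) ≤
      ∑ n ∈ Finset.range N, finrank (ZMod p) (OrdCoh (ZMod p) Q n) := by
  induction gs with
  | nil =>
    have e : orbFix Q ([] : List A) = Q := by
      ext x
      simp [orbFix]
    rw [e]
  | cons g gs ih =>
    refine le_trans ?_ ih
    have e : orbFix Q (g :: gs) = {x | x ∈ orbFix Q gs ∧ (fun x : P => g • x) x = x} := by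
      ext x
      simp only [orbFix, List.mem_cons, forall_eq_or_imp, Set.mem_setOf_eq]
      tauto
    rw [e]
    have hsub : orbFix Q gs ⊆ Q := fun x hx => hx.1
    refine h p P (orbFix Q gs) (hQ.subset hsub) (fun x : P => g • x) (hm g) ?_ ?_ N
      ((Set.ncard_le_ncard hsub hQ).trans hN)
    · intro x
      rw [smul_iterate_apply, hA, one_smul]
    · rintro x ⟨hx1, hx2⟩
      refine ⟨hAQ g x hx1, fun g' hg' => ?_⟩
      show g' • g • x = g • x
      rw [smul_smul, mul_comm, ← smul_smul, hx2 g' hg']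

/-- **ORB** -/
theorem orb (h : S_SMP) : S_ORB := by
  classical
  intro p _ A _ _ hA P _ _ Q hQ hm hAQ S v hv
  have := Fintype.ofFinite A
  have e : orbFix Q (Finset.univ : Finset A).toList = {x | x ∈ Q ∧ ∀ a : A, a • x = x} := by
    ext x
    simp [orbFix]
  have h1 := orb_list h p A hA P Q hQ hm hAQ Q.ncard le_rfl (Finset.univ : Finset A).toList
  rw [e] at h1
  obtain ⟨R, hR⟩ : ∃ R : Set P, R = {x | x ∈ Q ∧ ∀ a : A, a • x = x} := ⟨_, rfl⟩
  rw [← hR] at h1 ⊢
  have hRf : R.Finite := hQ.subset (by rw [hR]; exact fun x hx => hx.1)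
  refine le_trans ?_ h1
  rcases R.eq_empty_or_nonempty with h2 | h2
  · rw [h2, Set.image_empty, Set.ncard_empty]
    exact Nat.zero_le _
  · have hN : 0 < Q.ncard := by
      obtain ⟨x, hx⟩ := h2
      rw [Set.ncard_pos hQ]
      rw [hR] at hx
      exact ⟨x, hx.1⟩
    have h3 : (v '' R).ncard ≤ finrank (ZMod p) (OrdCoh (ZMod p) R 0) := by
      have hfin : (v '' R).Finite := hRf.image v
      have : Fintype (v '' R) := hfin.fintype
      have hJ : ∀ s : v '' R, ∃ x, x ∈ R ∧ v x = s := fun s => s.2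
      choose J hJ1 hJ2 using hJ
      have h4 := orb_components (k := ZMod p) hRf J hJ1 (fun s x => if v x = s then 1 else 0) (by
        intro a x hx y hy hxy
        rw [hR] at hx hy
        have h5 := hv x hx.1 y hy.1 hx.2 hy.2 hxy
        show (if v x = a then (1 : ZMod p) else 0) = if v y = a then 1 else 0
        rw [h5]) (by
        intro a b
        show (if v (J b) = a then (1 : ZMod p) else 0) = _
        rw [hJ2]
        by_cases hab : a = b
        · rw [if_pos hab, if_pos (by rw [hab])]
        · rw [if_neg hab, if_neg (fun h => hab (Subtype.ext h.symm))])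
      rw [Set.ncard_eq_toFinset_card', Set.toFinset_card]
      exact h4
    refine h3.trans ?_
    exact Finset.single_le_sum (f := fun n => finrank (ZMod p) (OrdCoh (ZMod p) R n))
      (fun _ _ => Nat.zero_le _) (Finset.mem_range.2 hN)

end Pool.Agent.Helper47.FB
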