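import Pool.Agent.Helper47.FB.Base

/-!
# RPW: the weights of a real representation of `(ℤ/p) ^ n` (co-author: helper17)
-/

set_option autoImplicit false
set_option maxHeartbeats 400000

namespace Pool.Agent.Helper47.FB.RPW

open Finset Module Matrix

variable {p : ℕ} [Fact p.Prime] {n : ℕ}

/-- the pairing -/
def dp (w v : Fin n → ZMod p) : ZMod p := ∑ i, w i * v i

lemma dp_add (w v v' : Fin n → ZMod p) : dp w (v + v') = dp w v + dp w v' := by
  unfold dp
  rw [← sum_add_distrib]
  exact sum_congr rfl fun i _ => by rw [Pi.add_apply, mul_add]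

lemma dp_neg_left (w v : Fin n → ZMod p) : dp (-w) v = - dp w v := by
  unfold dp
  rw [← sum_neg_distrib]
  exact sum_congr rfl fun i _ => by rw [Pi.neg_apply, neg_mul]

lemma dp_comm (w v : Fin n → ZMod p) : dp w v = dp v w := by
  unfold dp
  exact sum_congr rfl fun i _ => mul_comm _ _

/-- the additive character -/
noncomputable def ch (x : ZMod p) : ℂ := ZMod.stdAddChar x

lemma ch_add (x y : ZMod p) : ch (x + y) = ch x * ch y := AddChar.map_add_eq_mul _ _ _

lemma ch_zero : ch (0 : ZMod p) = 1 := AddChar.map_zero_eq_one _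

lemma ch_neg_mul (x : ZMod p) : ch (-x) * ch x = 1 := by
  rw [← ch_add, neg_add_cancel, ch_zero]

/-- orthogonality -/
lemma sum_ch (v : Fin n → ZMod p) :
    ∑ w : Fin n → ZMod p, ch (- dp w v) = if v = 0 then (p : ℂ) ^ n else 0 := by
  classical
  split_ifs with hv
  · subst hv
    have h1 : ∀ w : Fin n → ZMod p, ch (- dp w 0) = 1 := by
      intro w
      have : dp w (0 : Fin n → ZMod p) = 0 := by
        unfold dp
        simp
      rw [this, neg_zero, ch_zero]
    rw [sum_congr rfl fun w _ => h1 w]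
    simp [ZMod.card]
  · obtain ⟨i, hi⟩ : ∃ i, v i ≠ 0 := by
      by_contra hcon
      push Not at hcon
      exact hv (funext hcon)
    have hch : ch (- v i) ≠ 1 := by
      intro h
      rw [← ch_zero (p := p)] at h
      have := ZMod.injective_stdAddChar h
      exact hi (neg_eq_zero.1 this)
    have hshift : ∑ w : Fin n → ZMod p, ch (- dp w v) =
        ∑ w : Fin n → ZMod p, ch (- dp (w + Pi.single i 1) v) := by
      rw [← Equiv.sum_comp (Equiv.addRight (Pi.single i (1 : ZMod p) : Fin n → ZMod p))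
        (fun w => ch (- dp w v))]
      exact sum_congr rfl fun w _ => by rw [Equiv.coe_addRight]
    have h2 : ∀ w : Fin n → ZMod p, ch (- dp (w + Pi.single i 1) v) = ch (- v i) * ch (- dp w v) := by
      intro w
      rw [← ch_add]
      congr 1
      rw [dp_comm, dp_add, dp_comm v w]
      have : dp v (Pi.single i 1) = v i := by
        unfold dp
        rw [sum_eq_single i]
        · simp
        · intro j _ hj
          rw [Pi.single_eq_of_ne hj, mul_zero]
        · intro h
          exact absurd (mem_univ _) h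
      rw [this]
      ring
    rw [sum_congr rfl fun w _ => h2 w, ← mul_sum] at hshift
    have h3 : (1 - ch (- v i)) * ∑ w : Fin n → ZMod p, ch (- dp w v) = 0 := by
      linear_combination hshift
    exact (mul_eq_zero.1 h3).resolve_left (sub_ne_zero.2 hch.symm)

section matrices

variable {d : ℕ} (A : (Fin n → ZMod p) → Matrix (Fin d) (Fin d) ℂ)

/-- the projection to the weight space -/
noncomputable def E (w : Fin n → ZMod p) : Matrix (Fin d) (Fin d) ℂ :=
  ((p : ℂ) ^ n)⁻¹ • ∑ v, ch (- dp w v) • A v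

lemma pn_ne : ((p : ℂ) ^ n) ≠ 0 := pow_ne_zero _ (by exact_mod_cast (Fact.out : p.Prime).ne_zero)

variable {A}

lemma A_mul_E (hA : ∀ v v', A (v + v') = A v * A v') (w v : Fin n → ZMod p) :
    A v * E A w = ch (dp w v) • E A w := by
  unfold E
  rw [Matrix.mul_smul, Finset.mul_sum, smul_comm (ch (dp w v))]
  congr 1
  rw [Finset.smul_sum, ← Equiv.sum_comp (Equiv.addLeft v) (fun v' => ch (dp w v) • ch (- dp w v') • A v')]
  refine sum_congr rfl fun v' _ => ?_
  rw [Equiv.coe_addLeft, Matrix.mul_smul, ← hA, smul_smul, ← ch_add, dp_add]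
  congr 2
  ring

lemma E_mul_E (hA : ∀ v v', A (v + v') = A v * A v') (w : Fin n → ZMod p) : E A w * E A w = E A w := by
  have h0 : ∀ X : Matrix (Fin d) (Fin d) ℂ, E A w * X =
      ((p : ℂ) ^ n)⁻¹ • ∑ v, ch (- dp w v) • A v * X := by
    intro X
    unfold E
    rw [Matrix.smul_mul, Finset.sum_mul]
  rw [h0]
  have h1 : ∀ v, ch (- dp w v) • A v * E A w = E A w := by
    intro v
    rw [Matrix.smul_mul, A_mul_E hA, smul_smul, ch_neg_mul, one_smul]
  rw [sum_congr rfl fun v _ => h1 v, sum_const, card_univ, Fintype.card_fun, ZMod.card,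
    Fintype.card_fin, ← Nat.cast_smul_eq_nsmul ℂ, smul_smul]
  push_cast
  rw [inv_mul_cancel₀ pn_ne, one_smul]

lemma sum_E (h0 : A 0 = 1) : ∑ w, E A w = 1 := by
  classical
  unfold E
  rw [← smul_sum, sum_comm]
  have h1 : ∀ v : Fin n → ZMod p, ∑ w : Fin n → ZMod p, ch (- dp w v) • A v =
      if v = 0 then ((p : ℂ) ^ n) • A v else 0 := by
    intro v
    rw [← sum_smul, sum_ch]
    split_ifs <;> simp
  rw [sum_congr rfl fun v _ => h1 v, sum_ite_eq' univ (0 : Fin n → ZMod p), if_pos (mem_univ _), h0,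
    smul_smul, inv_mul_cancel₀ pn_ne, one_smul]

/-- the trace of a projection is its rank -/
lemma trace_idem {M : Matrix (Fin d) (Fin d) ℂ} (h : M * M = M) :
    ∃ r : ℕ, M.trace = r ∧ (r = 0 → M = 0) := by
  refine ⟨finrank ℂ (LinearMap.range (Matrix.toLin' M)), ?_, ?_⟩
  · have h1 : IsIdempotentElem (Matrix.toLin' M) := by
      unfold IsIdempotentElem
      rw [Module.End.mul_eq_comp, ← Matrix.toLin'_mul, h]
    have h2 := LinearMap.IsIdempotentElem.isProj_range _ h1
    have h3 := h2.trace
    rw [Matrix.trace_toLin'_eq] at h3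
    exact h3
  · intro hr
    have h1 : LinearMap.range (Matrix.toLin' M) = ⊥ := Submodule.finrank_eq_zero.1 hr
    rw [LinearMap.range_eq_bot] at h1
    exact (map_eq_zero_iff _ Matrix.toLin'.injective).1 h1

end matrices

lemma ch_conj (x : ZMod p) : (starRingEnd ℂ) (ch x) = ch (-x) := (AddChar.map_neg_eq_conj _ _).symm

theorem main : S_RPW := by
  classical
  intro p _ n V _ _ _ ρ
  let b := Module.finBasis ℝ V
  obtain ⟨τ, hτ⟩ : ∃ τ : (Fin n → ZMod p) → ℝ, ∀ v, τ v = LinearMap.trace ℝ V (ρ (Multiplicative.ofAdd v)) :=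
    ⟨_, fun _ => rfl⟩
  obtain ⟨A, hA⟩ : ∃ A : (Fin n → ZMod p) → Matrix (Fin (finrank ℝ V)) (Fin (finrank ℝ V)) ℂ,
      ∀ v, A v = (algebraMap ℝ ℂ).mapMatrix (LinearMap.toMatrix b b (ρ (Multiplicative.ofAdd v))) :=
    ⟨_, fun _ => rfl⟩
  have hA0 : A 0 = 1 := by
    rw [hA, ofAdd_zero, map_one, LinearMap.toMatrix_one, map_one]
  have hAm : ∀ v v', A (v + v') = A v * A v' := by
    intro v v'
    rw [hA, hA, hA, ofAdd_add, map_mul, LinearMap.toMatrix_mul, map_mul]
  have hAt : ∀ v, (A v).trace = ((τ v : ℝ) : ℂ) := by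
    intro v
    rw [hA, hτ, LinearMap.trace_eq_matrix_trace ℝ b, RingHom.mapMatrix_apply, Matrix.trace, Matrix.trace]
    simp
  have hr : ∀ w, ∃ r : ℕ, (E A w).trace = r ∧ (r = 0 → E A w = 0) := fun w => trace_idem (E_mul_E hAm w)
  choose r hr1 hr2 using hr
  have hrf : ∀ w, (r w : ℂ) = ((p : ℂ) ^ n)⁻¹ * ∑ v, ch (- dp w v) * ((τ v : ℝ) : ℂ) := by
    intro w
    rw [← hr1, E, Matrix.trace_smul, Matrix.trace_sum, smul_eq_mul]
    congr 1
    refine sum_congr rfl fun v _ => ?_
    rw [Matrix.trace_smul, hAt, smul_eq_mul]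
  obtain ⟨S, hS⟩ : ∃ S : Finset (Fin n → ZMod p), S = univ.filter (fun w => w ≠ 0 ∧ r w ≠ 0) := ⟨_, rfl⟩
  have hmem : ∀ w, w ∈ S ↔ w ≠ 0 ∧ r w ≠ 0 := by
    intro w
    rw [hS, mem_filter]
    simp
  refine ⟨S, ?_, ?_, ?_, ?_, ?_⟩
  · have h1 : (∑ w, r w) = finrank ℝ V := by
      have h2 : ((∑ w, r w : ℕ) : ℂ) = (finrank ℝ V : ℕ) := by
        push_cast
        rw [← sum_congr rfl fun w _ => hr1 w, ← Matrix.trace_sum, sum_E hA0, Matrix.trace_one,
          Fintype.card_fin]
      exact_mod_cast h2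
    calc S.card = ∑ w ∈ S, 1 := by simp
      _ ≤ ∑ w ∈ S, r w := sum_le_sum fun w hw => Nat.one_le_iff_ne_zero.2 ((hmem w).1 hw).2
      _ ≤ ∑ w, r w := sum_le_sum_of_subset (subset_univ S)
      _ = _ := h1
  · rw [hmem]
    exact fun h => h.1 rfl
  · intro w hw
    rw [hmem] at hw ⊢
    refine ⟨neg_ne_zero.2 hw.1, ?_⟩
    have h1 : r (-w) = r w := by
      have h2 : ((r (-w) : ℕ) : ℂ) = (r w : ℕ) := by
        have h3 : (starRingEnd ℂ) ((r w : ℕ) : ℂ) = (r w : ℕ) := Complex.conj_natCast _
        rw [← h3, hrf w, hrf (-w), map_mul, map_inv₀, map_pow, Complex.conj_natCast, map_sum]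
        congr 1
        refine sum_congr rfl fun v _ => ?_
        rw [map_mul, Complex.conj_ofReal, ch_conj, neg_neg, dp_neg_left, neg_neg]
      exact_mod_cast h2
    rw [h1]
    exact hw.2
  · intro v hv
    have h1 : A v = 1 := by
      calc A v = A v * ∑ w, E A w := by rw [sum_E hA0, mul_one]
        _ = ∑ w, ch (dp w v) • E A w := by
            rw [Finset.mul_sum]
            exact sum_congr rfl fun w _ => A_mul_E hAm w v
        _ = ∑ w, E A w := by
            refine sum_congr rfl fun w _ => ?_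
            by_cases hw0 : w = 0
            · have : dp w v = 0 := by
                rw [hw0]
                unfold dp
                simp
              rw [this, ch_zero, one_smul]
            · by_cases hrw : r w = 0
              · rw [hr2 w hrw, smul_zero]
              · have : dp w v = 0 := hv w ((hmem w).2 ⟨hw0, hrw⟩)
                rw [this, ch_zero, one_smul]
        _ = 1 := sum_E hA0
    rw [hA, ← map_one (algebraMap ℝ ℂ).mapMatrix] at h1
    have h2 : LinearMap.toMatrix b b (ρ (Multiplicative.ofAdd v)) = 1 := by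
      ext i j
      have h3 := congrFun (congrFun h1 i) j
      rw [RingHom.mapMatrix_apply, RingHom.mapMatrix_apply, Matrix.map_apply, Matrix.map_apply] at h3
      exact (algebraMap ℝ ℂ).injective h3
    rw [← LinearMap.toMatrix_one b] at h2
    exact (LinearMap.toMatrix b b).injective h2
  · intro u hu w hw
    rw [hmem] at hw ⊢
    have hdp : ∀ v : Fin n → ZMod p, dp (fun i => (u i : ZMod p) * w i) v = dp w (fun i => (u i : ZMod p) * v i) := by
      intro v
      unfold dp
      exact sum_congr rfl fun i _ => by ring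
    refine ⟨?_, ?_⟩
    · intro h
      apply hw.1
      funext i
      have h1 := congrFun h i
      exact (mul_eq_zero.1 h1).resolve_left (Units.ne_zero _)
    · have h1 : r (fun i => (u i : ZMod p) * w i) = r w := by
        have h2 : ((r (fun i => (u i : ZMod p) * w i) : ℕ) : ℂ) = (r w : ℕ) := by
          rw [hrf, hrf]
          congr 1
          rw [← Equiv.sum_comp (Equiv.piCongrRight fun i => Units.mulLeft (u i))
            (fun v => ch (- dp w v) * ((τ v : ℝ) : ℂ))]
          refine sum_congr rfl fun v _ => ?_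
          have h3 : (Equiv.piCongrRight fun i => Units.mulLeft (u i)) v = fun i => (u i : ZMod p) * v i := by
            funext i
            simp
          rw [h3, hdp, hτ (fun i => (u i : ZMod p) * v i), hu, ← hτ]
        exact_mod_cast h2
      rw [h1]
      exact hw.2

end Pool.Agent.Helper47.FB.RPW

namespace Pool.Agent.Helper47.FB

theorem rpw : S_RPW := RPW.main

end Pool.Agent.Helper47.FB
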