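import Mathlib

/-! Smith theory for a map of order `p`: algebra (helper77 for helper47). -/

set_option autoImplicit false
set_option linter.unusedSectionVars false

namespace Pool.Agent.Helper47.FB.SmpA

open Module Polynomial

section Alg

variable {p : ℕ} [Fact p.Prime] {Y : Type*} (γ : Y → Y)

/-- pull-back -/
def G (p : ℕ) : Module.End (ZMod p) (Y → ZMod p) := LinearMap.funLeft (ZMod p) (ZMod p) γ

/-- `γ - 1` -/
def T (p : ℕ) : Module.End (ZMod p) (Y → ZMod p) := G γ p - 1

theorem G_pow (j : ℕ) (f : Y → ZMod p) (x : Y) : (G γ p ^ j) f x = f (γ^[j] x) := by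
  induction j generalizing f x with
  | zero => rfl
  | succ j ih =>
    rw [pow_succ, Module.End.mul_apply, ih]
    show f (γ (γ^[j] x)) = _
    rw [Function.iterate_succ_apply']

theorem T_apply (f : Y → ZMod p) (x : Y) : T γ p f x = f (γ x) - f x := rfl

theorem poly1 : ((X : (ZMod p)[X]) - 1) ^ p = X ^ p - 1 := by
  rw [sub_pow_char, one_pow]

theorem poly2 : ((X : (ZMod p)[X]) - 1) ^ (p - 1) = ∑ j ∈ Finset.range p, (X : (ZMod p)[X]) ^ j := by
  have h0 : ((X : (ZMod p)[X]) - 1) ≠ 0 := by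
    have := X_sub_C_ne_zero (R := ZMod p) 1
    rwa [map_one] at this
  apply mul_right_cancel₀ h0
  rw [geom_sum_mul, ← poly1, ← pow_succ, Nat.sub_add_cancel (Fact.out : p.Prime).one_le]

theorem T_p (hγ : ∀ x, γ^[p] x = x) : T γ p ^ p = 0 := by
  have h := congrArg (aeval (G γ p)) (poly1 (p := p))
  rw [map_pow, map_sub, map_sub, map_pow, aeval_X, map_one] at h
  have h2 : G γ p ^ p = 1 := by
    apply LinearMap.ext
    intro f
    funext x
    rw [G_pow, hγ]
    rfl
  rw [h2, sub_self] at h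
  exact h

theorem T_p1 (f : Y → ZMod p) (x : Y) : (T γ p ^ (p - 1)) f x = ∑ j ∈ Finset.range p, f (γ^[j] x) := by
  have h := congrArg (aeval (G γ p)) (poly2 (p := p))
  rw [map_pow, map_sub, aeval_X, map_one, map_sum] at h
  have h2 : (T γ p ^ (p - 1)) = ∑ j ∈ Finset.range p, G γ p ^ j := by
    refine Eq.trans h (Finset.sum_congr rfl fun j _ => ?_)
    rw [map_pow, aeval_X]
  rw [h2, LinearMap.sum_apply, Finset.sum_apply]
  exact Finset.sum_congr rfl fun j _ => G_pow γ j f x

/-- the functions which vanish at the fixed points -/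
def M (p : ℕ) : Submodule (ZMod p) (Y → ZMod p) where
  carrier := {f | ∀ x, γ x = x → f x = 0}
  add_mem' := by
    intro f g hf hg x hx
    simp [hf x hx, hg x hx]
  zero_mem' := fun _ _ => rfl
  smul_mem' := by
    intro c f hf x hx
    simp [hf x hx]

theorem T_mem (f : Y → ZMod p) : T γ p f ∈ M γ p := by
  intro x hx
  rw [T_apply, hx, sub_self]

theorem T_pow_mem {j : ℕ} (hj : 1 ≤ j) (f : Y → ZMod p) : (T γ p ^ j) f ∈ M γ p := by
  obtain ⟨i, rfl⟩ := Nat.exists_eq_add_of_le' hj
  rw [pow_succ', Module.End.mul_apply]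
  exact T_mem γ _

/-- the functions supported at the fixed points are killed by `T` -/
theorem T_fix (hγ : ∀ x, γ^[p] x = x) {f : Y → ZMod p} (hf : ∀ x, γ x ≠ x → f x = 0) : T γ p f = 0 := by
  funext x
  rw [T_apply]
  by_cases h : γ x = x
  · rw [h, sub_self]
    rfl
  · have h1 : γ (γ x) ≠ γ x := by
      intro h2
      apply h
      have h3 : ∀ j, γ^[j] (γ x) = γ x := fun j => Function.iterate_fixed h2 j
      have h4 := h3 (p - 1)
      rw [← Function.iterate_succ_apply, Nat.succ_eq_add_one, Nat.sub_add_cancel (Fact.out : p.Prime).one_le, hγ] at h4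
      exact h4.symm
    rw [hf x h, hf _ h1, sub_self]
    rfl

/-- a nonfixed point has `p` distinct images -/
theorem inj_orbit (hγ : ∀ x, γ^[p] x = x) {x : Y} (hx : γ x ≠ x) {i j : ℕ} (hi : i < p) (hj : j < p)
    (h : γ^[i] x = γ^[j] x) : i = j := by
  have h1 : Function.minimalPeriod γ x ∣ p := (Function.IsPeriodicPt.minimalPeriod_dvd (hγ x))
  rcases (Nat.dvd_prime (Fact.out : p.Prime)).1 h1 with h2 | h2
  · exact absurd (Function.minimalPeriod_eq_one_iff_isFixedPt.1 h2) hx
  · have h3 := Function.iterate_injOn_Iio_minimalPeriod (f := γ) (x := x)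
    rw [h2] at h3
    exact h3 hi hj h

/-- the orbits -/
def orb (hγ : ∀ x, γ^[p] x = x) : Setoid Y where
  r x y := ∃ j < p, γ^[j] x = y
  iseqv := by
    have hpos : 0 < p := (Fact.out : p.Prime).pos
    have hmod : ∀ (n : ℕ) (x : Y), γ^[n % p] x = γ^[n] x := fun n x =>
      Function.IsPeriodicPt.iterate_mod_apply (hγ x) n
    refine ⟨fun x => ⟨0, hpos, rfl⟩, ?_, ?_⟩
    · rintro x _ ⟨j, hj, rfl⟩
      refine ⟨(p - j) % p, Nat.mod_lt _ hpos, ?_⟩
      rw [hmod, ← Function.iterate_add_apply, Nat.sub_add_cancel hj.le, hγ]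
    · rintro x _ _ ⟨j, hj, rfl⟩ ⟨i, hi, rfl⟩
      refine ⟨(i + j) % p, Nat.mod_lt _ hpos, ?_⟩
      rw [hmod, Function.iterate_add_apply]

open Classical in
/-- invariant functions vanishing at the fixed points are norms -/
theorem norm_surj (hγ : ∀ x, γ^[p] x = x) {f : Y → ZMod p} (hf : T γ p f = 0) (hf0 : f ∈ M γ p) :
    ∃ g, (T γ p ^ (p - 1)) g = f := by
  have hinv : ∀ (j : ℕ) x, f (γ^[j] x) = f x := by
    intro j x
    induction j with
    | zero => rfl
    | succ j ih =>
      have h1 := congrFun hf (γ^[j] x)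
      rw [T_apply, Pi.zero_apply, sub_eq_zero] at h1
      rw [Function.iterate_succ_apply', h1, ih]
  let Q := Quotient (orb γ hγ)
  obtain ⟨r, hr⟩ : ∃ r : Y → Y, r = fun x => (Quotient.mk (orb γ hγ) x).out := ⟨_, rfl⟩
  have hr1 : ∀ x, ∃ j < p, γ^[j] x = r x := by
    intro x
    have h1 : (orb γ hγ).r (r x) x := by
      rw [hr]
      exact Quotient.exact (Quotient.out_eq (Quotient.mk (orb γ hγ) x))
    exact (orb γ hγ).symm h1
  have hr2 : ∀ (j : ℕ) x, r (γ^[j] x) = r x := by
    intro j x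
    rw [hr]
    have : Quotient.mk (orb γ hγ) (γ^[j] x) = Quotient.mk (orb γ hγ) x := by
      apply Quotient.sound
      apply (orb γ hγ).symm
      exact ⟨j % p, Nat.mod_lt _ (Fact.out : p.Prime).pos, Function.IsPeriodicPt.iterate_mod_apply (hγ x) j⟩
    show (Quotient.mk (orb γ hγ) (γ^[j] x)).out = (Quotient.mk (orb γ hγ) x).out
    rw [this]
  refine ⟨fun x => if r x = x then f x else 0, ?_⟩
  funext x
  rw [T_p1]
  by_cases hx : γ x = x
  · have h1 : ∀ j, γ^[j] x = x := fun j => Function.iterate_fixed hx j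
    rw [hf0 x hx]
    refine Finset.sum_eq_zero fun j _ => ?_
    rw [h1, hf0 x hx, ite_self]
  · obtain ⟨j, hj, hjr⟩ := hr1 x
    rw [Finset.sum_eq_single j]
    · rw [if_pos (by rw [hr2, hjr]), hinv]
    · intro i hi hij
      rw [if_neg]
      rw [hr2, ← hjr]
      intro h
      exact hij (inj_orbit γ hγ hx (Finset.mem_range.1 hi) hj h.symm)
    · intro h
      exact absurd (Finset.mem_range.2 hj) h

/-- the kernel of `T ^ j` -/
theorem ker_T (hγ : ∀ x, γ^[p] x = x) : ∀ j : ℕ, 1 ≤ j → j < p → ∀ f ∈ M γ p, (T γ p ^ j) f = 0 →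
    ∃ g, (T γ p ^ (p - j)) g = f := by
  intro j hj
  induction j, hj using Nat.le_induction with
  | base =>
    intro _ f hf h
    rw [pow_one] at h
    exact norm_surj γ hγ h hf
  | succ j hj ih =>
    intro hjp f hf h
    obtain ⟨g, hg⟩ := norm_surj γ hγ (f := (T γ p ^ j) f) (by
      rw [pow_succ', Module.End.mul_apply] at h
      exact h) (T_pow_mem γ hj f)
    have h1 : (T γ p ^ j) (f - (T γ p ^ (p - 1 - j)) g) = 0 := by
      rw [map_sub, ← Module.End.mul_apply, ← pow_add, ← hg, show j + (p - 1 - j) = p - 1 by omega, sub_self]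
    have h2 : f - (T γ p ^ (p - 1 - j)) g ∈ M γ p :=
      Submodule.sub_mem _ hf (T_pow_mem γ (by omega) g)
    obtain ⟨g', hg'⟩ := ih (by omega) _ h2 h1
    refine ⟨g + T γ p g', ?_⟩
    rw [map_add, ← Module.End.mul_apply, ← pow_succ, show p - (j + 1) = p - 1 - j by omega,
      show p - 1 - j + 1 = p - j by omega, hg']
    abel

end Alg

end Pool.Agent.Helper47.FB.SmpA
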