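import Pool.Graph.R_seed8.Helper381.Order
import Pool.Agent.Helper47.FB.SmpA

/-! Smith inequality for a map of order `p` on a finite semisimplicial set (helper77 for helper47). -/

set_option autoImplicit false
set_option linter.unusedSectionVars false

namespace Pool.Agent.Helper47.FB.SmpB

open Module Pool.Agent.Helper381 Pool.Agent.Helper47.FB.SmpA

section Smith

variable {p : ℕ} [Fact p.Prime]
variable {S : ℕ → Type} (face : ∀ n, Fin (n + 2) → S (n + 1) → S n) [∀ n, Finite (S n)]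
  (γ : ∀ n, S n → S n)
  {F : ℕ → Type} (faceF : ∀ n, Fin (n + 2) → F (n + 1) → F n) [∀ n, Finite (F n)]
  (ι : ∀ n, F n → S n)

/-- the image of `T ^ i` -/
def A (p : ℕ) [Fact p.Prime] (i n : ℕ) : Submodule (ZMod p) (S n → ZMod p) :=
  LinearMap.range (T (γ n) p ^ i)

theorem d_T (hγf : ∀ n i σ, γ n (face n i σ) = face n i (γ (n + 1) σ)) (n : ℕ) (f : S n → ZMod p) :
    altd (ZMod p) face n (T (γ n) p f) = T (γ (n + 1)) p (altd (ZMod p) face n f) := by
  funext σ
  rw [T_apply, altd_apply, altd_apply, altd_apply, ← Finset.sum_sub_distrib]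
  refine Finset.sum_congr rfl fun i _ => ?_
  rw [T_apply, hγf]
  ring

theorem d_T_pow (hγf : ∀ n i σ, γ n (face n i σ) = face n i (γ (n + 1) σ)) (n i : ℕ)
    (f : S n → ZMod p) :
    altd (ZMod p) face n ((T (γ n) p ^ i) f) = (T (γ (n + 1)) p ^ i) (altd (ZMod p) face n f) := by
  induction i with
  | zero => rfl
  | succ i ih => rw [pow_succ', pow_succ', Module.End.mul_apply, Module.End.mul_apply, d_T face γ hγf, ih]

theorem d_A (hγf : ∀ n i σ, γ n (face n i σ) = face n i (γ (n + 1) σ)) (i n : ℕ) :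
    ∀ f ∈ A γ p i n, altd (ZMod p) face n f ∈ A γ p i (n + 1) := by
  rintro _ ⟨g, rfl⟩
  exact ⟨_, (d_T_pow face γ hγf n i g).symm⟩

/-- one step -/
theorem step (i j : ℕ) (hi : 1 ≤ i) (hj : 1 ≤ j) (hij : i + j = p)
    (hface : ∀ n (i j : Fin (n + 2)) (σ : S (n + 2)), i ≤ j →
      face n i (face (n + 1) j.succ σ) = face n j (face (n + 1) i.castSucc σ))
    (hfaceF : ∀ n (i j : Fin (n + 2)) (σ : F (n + 2)), i ≤ j →
      faceF n i (faceF (n + 1) j.succ σ) = faceF n j (faceF (n + 1) i.castSucc σ))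
    (hγγ : ∀ n σ, (γ n)^[p] σ = σ)
    (hγf : ∀ n i σ, γ n (face n i σ) = face n i (γ (n + 1) σ))
    (hι : ∀ n, Function.Injective (ι n))
    (hιf : ∀ n i x, ι n (faceF n i x) = face n i (ι (n + 1) x))
    (hfix : ∀ n σ, γ n σ = σ ↔ ∃ x, ι n x = σ) (n : ℕ) :
    finrank (ZMod p) (Coh (ZMod p) (fun n => F n → ZMod p) (fun n => altd (ZMod p) faceF n) n) +
      finrank (ZMod p) (Coh (ZMod p) (fun n => A γ p j n)
        (fun n => (altd (ZMod p) face n).restrict (d_A face γ hγf j n)) n) ≤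
    finrank (ZMod p) (Coh (ZMod p) (fun n => S n → ZMod p) (fun n => altd (ZMod p) face n) n) +
      finrank (ZMod p) (Coh (ZMod p) (fun n => A γ p i n)
        (fun n => (altd (ZMod p) face n).restrict (d_A face γ hγf i n)) (n + 1)) := by
  classical
  let dS := fun n => altd (ZMod p) face n
  let dF := fun n => altd (ZMod p) faceF n
  let dI : ∀ n, A γ p i n →ₗ[ZMod p] A γ p i (n + 1) := fun n => (dS n).restrict (d_A face γ hγf i n)
  let dJ : ∀ n, A γ p j n →ₗ[ZMod p] A γ p j (n + 1) := fun n => (dS n).restrict (d_A face γ hγf j n)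
  have hdS : ∀ n x, dS (n + 1) (dS n x) = 0 := fun n x => altd_altd face hface n x
  have hdF : ∀ n x, dF (n + 1) (dF n x) = 0 := fun n x => altd_altd faceF hfaceF n x
  have hdJ : ∀ n x, dJ (n + 1) (dJ n x) = 0 := by
    intro n x
    apply Subtype.ext
    exact hdS n x.1
  let sm : ∀ n, (S n → ZMod p) →ₗ[ZMod p] A γ p j n := fun n =>
    (T (γ n) p ^ j).rangeRestrict
  let rs : ∀ n, (S n → ZMod p) →ₗ[ZMod p] (F n → ZMod p) := fun n =>
    LinearMap.funLeft (ZMod p) (ZMod p) (ι n)
  have hsm : ∀ n f, ((sm n f : A γ p j n) : S n → ZMod p) = (T (γ n) p ^ j) f := fun n f => rfl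
  have hrs : ∀ n f x, rs n f x = f (ι n x) := fun n f x => rfl
  have les : ∀ n, finrank (ZMod p) (Coh (ZMod p) (fun n => A γ p j n × (F n → ZMod p))
      (fun n => (dJ n).prodMap (dF n)) n) ≤
      finrank (ZMod p) (Coh (ZMod p) (fun n => S n → ZMod p) dS n) +
      finrank (ZMod p) (Coh (ZMod p) (fun n => A γ p i n) dI (n + 1)) := by
    intro n
    apply les_ineq dI dS (fun n => (dJ n).prodMap (dF n)) (fun n => (A γ p i n).subtype)
      (fun n => (sm n).prod (rs n))
    · intro n; exact Subtype.val_injective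
    · -- surjective
      rintro n ⟨⟨_, f', rfl⟩, h⟩
      have hfx : ∀ σ, γ n σ = σ → ∃ x, ι n x = σ := fun σ => (hfix n σ).mp
      let f : S n → ZMod p := fun σ =>
        if hσ : γ n σ = σ then h (hfx σ hσ).choose else f' σ
      have hf1 : ∀ x, f (ι n x) = h x := by
        intro x
        have hσ : γ n (ι n x) = ι n x := (hfix n _).mpr ⟨x, rfl⟩
        have : f (ι n x) = h (hfx _ hσ).choose := dif_pos hσ
        rw [this]
        congr 1
        exact hι n (hfx _ hσ).choose_spec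
      have hf2 : T (γ n) p (f - f') = 0 := by
        apply T_fix (γ n) (hγγ n)
        intro σ hσ
        have e1 : f σ = f' σ := dif_neg hσ
        rw [Pi.sub_apply, e1, sub_self]
      refine ⟨f, ?_⟩
      apply Prod.ext
      · apply Subtype.ext
        show (T (γ n) p ^ j) f = (T (γ n) p ^ j) f'
        obtain ⟨i', rfl⟩ := Nat.exists_eq_add_of_le' hj
        rw [← sub_eq_zero, ← map_sub, pow_succ, Module.End.mul_apply, hf2, map_zero]
      · funext x
        exact hf1 x
    · -- kernel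
      intro n f hf
      have h1 : (T (γ n) p ^ j) f = 0 :=
        congrArg (fun q : A γ p j n × (F n → ZMod p) => (q.1 : S n → ZMod p)) hf
      have h2 : ∀ x, f (ι n x) = 0 := by
        intro x
        exact congrArg (fun q : A γ p j n × (F n → ZMod p) => q.2 x) hf
      obtain ⟨g, hg⟩ := ker_T (γ n) (hγγ n) j hj (by omega) f (by
        intro σ hσ
        obtain ⟨x, rfl⟩ := (hfix n σ).mp hσ
        exact h2 x) h1
      refine ⟨⟨f, g, ?_⟩, rfl⟩
      rw [show i = p - j by omega]
      exact hg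
    · -- β α = 0
      rintro n ⟨_, g, rfl⟩
      apply Prod.ext
      · apply Subtype.ext
        show (T (γ n) p ^ j) ((T (γ n) p ^ i) g) = 0
        rw [← Module.End.mul_apply, ← pow_add, add_comm j i, hij, T_p (γ n) (hγγ n)]
        rfl
      · funext x
        exact T_pow_mem (γ n) hi g _ ((hfix n _).mpr ⟨x, rfl⟩)
    · -- α commutes
      intro n a
      rfl
    · -- β commutes
      intro n f
      apply Prod.ext
      · apply Subtype.ext
        exact d_T_pow face γ hγf n j f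
      · funext x
        change altd (ZMod p) faceF n (fun x => f (ι n x)) x = altd (ZMod p) face n f (ι (n + 1) x)
        rw [altd_apply, altd_apply]
        refine Finset.sum_congr rfl fun i _ => ?_
        rw [hιf]
    · exact hdS
  have h1 := les n
  rw [finrank_coh_prod dJ dF hdJ hdF] at h1
  have h2 : finrank (ZMod p) (Coh (ZMod p) (fun n => F n → ZMod p) dF n) +
      finrank (ZMod p) (Coh (ZMod p) (fun n => A γ p j n) dJ n) ≤
      finrank (ZMod p) (Coh (ZMod p) (fun n => S n → ZMod p) dS n) +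
      finrank (ZMod p) (Coh (ZMod p) (fun n => A γ p i n) dI (n + 1)) := by
    omega
  exact h2

theorem smith_ineq_p
    (hface : ∀ n (i j : Fin (n + 2)) (σ : S (n + 2)), i ≤ j →
      face n i (face (n + 1) j.succ σ) = face n j (face (n + 1) i.castSucc σ))
    (hfaceF : ∀ n (i j : Fin (n + 2)) (σ : F (n + 2)), i ≤ j →
      faceF n i (faceF (n + 1) j.succ σ) = faceF n j (faceF (n + 1) i.castSucc σ))
    (hγγ : ∀ n σ, (γ n)^[p] σ = σ)
    (hγf : ∀ n i σ, γ n (face n i σ) = face n i (γ (n + 1) σ))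
    (hι : ∀ n, Function.Injective (ι n))
    (hιf : ∀ n i x, ι n (faceF n i x) = face n i (ι (n + 1) x))
    (hfix : ∀ n σ, γ n σ = σ ↔ ∃ x, ι n x = σ)
    (N : ℕ) (hN : ∀ n, N ≤ n → IsEmpty (S n)) :
    ∑ n ∈ Finset.range N,
      finrank (ZMod p) (Coh (ZMod p) (fun n => F n → ZMod p) (fun n => altd (ZMod p) faceF n) n) ≤
    ∑ n ∈ Finset.range N,
      finrank (ZMod p) (Coh (ZMod p) (fun n => S n → ZMod p) (fun n => altd (ZMod p) face n) n) := by
  have hp2 : 2 ≤ p := (Fact.out : p.Prime).two_le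
  obtain ⟨hD, hhD⟩ : ∃ hD : ℕ → ℕ, hD = fun n =>
    finrank (ZMod p) (Coh (ZMod p) (fun n => F n → ZMod p) (fun n => altd (ZMod p) faceF n) n) := ⟨_, rfl⟩
  obtain ⟨hC, hhC⟩ : ∃ hC : ℕ → ℕ, hC = fun n =>
    finrank (ZMod p) (Coh (ZMod p) (fun n => S n → ZMod p) (fun n => altd (ZMod p) face n) n) := ⟨_, rfl⟩
  obtain ⟨a, ha⟩ : ∃ a : ℕ → ℕ → ℕ, a = fun i n =>
    finrank (ZMod p) (Coh (ZMod p) (fun n => A γ p i n)
        (fun n => (altd (ZMod p) face n).restrict (d_A face γ hγf i n)) n) := ⟨_, rfl⟩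
  have k1 : ∀ n, hD n + a (p - 1) n ≤ hC n + a 1 (n + 1) := by
    intro n
    rw [hhD, hhC, ha]
    exact step face γ faceF ι 1 (p - 1) le_rfl (by omega) (by omega) hface hfaceF hγγ hγf hι hιf hfix n
  have k2 : ∀ n, hD n + a 1 n ≤ hC n + a (p - 1) (n + 1) := by
    intro n
    rw [hhD, hhC, ha]
    exact step face γ faceF ι (p - 1) 1 (by omega) le_rfl (by omega) hface hfaceF hγγ hγf hι hιf hfix n
  have h0 : ∀ i, a i N = 0 := by
    intro i
    rw [ha]
    apply finrank_coh_top
    have := hN N le_rfl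
    have : Subsingleton (A γ p i N) := by
      constructor
      intro a b
      apply Subtype.ext
      funext σ
      exact (IsEmpty.false σ).elim
    exact Module.finrank_zero_of_subsingleton
  have hsum : ∀ M : ℕ, 2 * ∑ n ∈ Finset.range M, hD n + (a 1 0 + a (p - 1) 0) ≤
      2 * ∑ n ∈ Finset.range M, hC n + (a 1 M + a (p - 1) M) := by
    intro M
    induction M with
    | zero => simp
    | succ M ih =>
      rw [Finset.sum_range_succ, Finset.sum_range_succ]
      have := k1 M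
      have := k2 M
      omega
  have h9 := hsum N
  rw [h0, h0] at h9
  have h10 : ∑ n ∈ Finset.range N, hD n ≤ ∑ n ∈ Finset.range N, hC n := by omega
  rw [hhD, hhC] at h10
  exact h10

end Smith

/-- **SMP** -/
theorem smp : ∀ (p : ℕ) [Fact p.Prime] (P : Type) [PartialOrder P] (Q : Set P), Q.Finite →
  ∀ g : P → P, StrictMono g → (∀ x, g^[p] x = x) → (∀ x ∈ Q, g x ∈ Q) → ∀ N, Q.ncard ≤ N →
    ∑ n ∈ Finset.range N, finrank (ZMod p) (OrdCoh (ZMod p) {x | x ∈ Q ∧ g x = x} n) ≤
      ∑ n ∈ Finset.range N, finrank (ZMod p) (OrdCoh (ZMod p) Q n) := by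
  intro p _ P _ Q hQf g hg hgg hQ N hN
  have h1 : ∀ n, Finite (Ch Q n) := finite_Ch hQf
  have h2 : ∀ n, Finite (Ch {x | x ∈ Q ∧ g x = x} n) := finite_Ch (hQf.subset fun _ h => h.1)
  refine smith_ineq_p (S := fun n => Ch Q n) (cface (Q := Q)) (gCh g hg hQ)
    (F := fun n => Ch {x | x ∈ Q ∧ g x = x} n) (cface (Q := {x | x ∈ Q ∧ g x = x}))
    (iCh fun _ h => h.1) ?_ ?_ ?_ ?_ ?_ ?_ ?_ N ?_
  · intro n i j σ h; exact cface_cface n i j σ h
  · intro n i j σ h; exact cface_cface n i j σ h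
  · intro n c
    have h3 : ∀ (m : ℕ) (i : Fin (n + 1)), ((gCh g hg hQ n)^[m] c).1 i = g^[m] (c.1 i) := by
      intro m i
      induction m with
      | zero => rfl
      | succ m ih =>
        rw [Function.iterate_succ_apply', Function.iterate_succ_apply', ← ih]
        rfl
    apply Subtype.ext
    funext i
    rw [h3, hgg]
  · intro n i c; rfl
  · intro n c c' h
    apply Subtype.ext
    have h' : (iCh (fun _ h => h.1) n c : Ch Q n).1 = (iCh (fun _ h => h.1) n c' : Ch Q n).1 :=
      congrArg Subtype.val h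
    exact h'
  · intro n i x; rfl
  · intro n c; exact gCh_fix g hg hQ n c
  · intro n hn; exact isEmpty_Ch hQf n (hN.trans hn)

end Pool.Agent.Helper47.FB.SmpB
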