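import Pool.Agent.Helper47.FB.Base
import Pool.Agent.Helper47.FB.SmpB

/-! SMP: the Smith inequality for a map of order `p` of a finite poset (helper77). -/

set_option autoImplicit false

namespace Pool.Agent.Helper47.FB

theorem smp : S_SMP := fun p _ P _ Q hQ g h1 h2 h3 N hN => SmpB.smp p P Q hQ g h1 h2 h3 N hN

end Pool.Agent.Helper47.FB
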