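import Pool.Agent.Helper47.FB.Base2

/-!
# Module SPN: symmetric spanning sets (helper2)
-/

set_option autoImplicit false

namespace Pool.Agent.Helper47.FB.SPNh

open Module

theorem spn (p : ℕ) [Fact p.Prime] (n k : ℕ) (m : (ZMod p)ˣ) (hm : orderOf m = k) (hk : Odd k)
    (hp : p ≠ 2) (S : Finset (Fin n → ZMod p)) (h0 : 0 ∉ S) (hneg : ∀ w ∈ S, -w ∈ S)
    (hmul : ∀ w ∈ S, (fun i => (m : ZMod p) * w i) ∈ S)
    (hsp : ∀ v : Fin n → ZMod p, (∀ w ∈ S, ∑ i, w i * v i = 0) → v = 0) : 2 * k * n ≤ S.card := by
  classical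
  have hpr : p.Prime := Fact.out
  -- the set spans
  have hspan : Submodule.span (ZMod p) (S : Set (Fin n → ZMod p)) = ⊤ := by
    by_contra hne
    obtain ⟨f, hf0, hf⟩ := Submodule.exists_le_ker_of_lt_top _ (lt_top_iff_ne_top.2 hne)
    have h1 : (fun i => f (Pi.single i 1)) = 0 := by
      apply hsp
      intro w hw
      have h2 : f w = 0 := hf (Submodule.subset_span hw)
      rw [LinearMap.pi_apply_eq_sum_univ f w] at h2
      rw [← h2]
      refine Finset.sum_congr rfl fun i _ => ?_
      rw [smul_eq_mul]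
      congr 2
      funext j
      rw [Pi.single_apply]
      by_cases hij : i = j
      · rw [if_pos hij, if_pos hij.symm]
      · rw [if_neg hij, if_neg (Ne.symm hij)]
    apply hf0
    refine LinearMap.pi_ext' fun i => ?_
    ext
    simpa using congrFun h1 i
  obtain ⟨b, hbS, hb1, hb2⟩ := exists_linearIndependent (ZMod p) (S : Set (Fin n → ZMod p))
  have hbf : b.Finite := S.finite_toSet.subset hbS
  have : Fintype b := hbf.fintype
  have hcb : Fintype.card b = n := by
    have h1 := finrank_span_eq_card hb2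
    rw [Subtype.range_coe_subtype, Set.ofPred_mem_eq, hb1, hspan, finrank_top,
      Module.finrank_fin_fun] at h1
    exact h1.symm
  -- scalars
  have hpow : ∀ u ∈ Subgroup.zpowers m, ∀ w ∈ S, (fun i => (u : ZMod p) * w i) ∈ S := by
    have hn : ∀ (j : ℕ), ∀ w ∈ S, (fun i => ((m ^ j : (ZMod p)ˣ) : ZMod p) * w i) ∈ S := by
      intro j
      induction j with
      | zero => intro w hw; simpa using hw
      | succ j ih =>
        intro w hw
        have h1 := hmul _ (ih w hw)
        have h2 : (fun i => ((m ^ (j + 1) : (ZMod p)ˣ) : ZMod p) * w i) =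
            fun i => (m : ZMod p) * (((m ^ j : (ZMod p)ˣ) : ZMod p) * w i) := by
          funext i
          push_cast
          ring
        rw [h2]
        exact h1
    intro u hu w hw
    obtain ⟨j, rfl⟩ := (mem_powers_iff_mem_zpowers.2 hu)
    exact hn j w hw
  have hk0 : 0 < k := hk.pos
  have hcz : Fintype.card (Subgroup.zpowers m) = k := by
    rw [← hm, Fintype.card_zpowers]
  have hneg1 : (-1 : (ZMod p)ˣ) ∉ Subgroup.zpowers m := by
    intro h
    have h1 : orderOf (-1 : (ZMod p)ˣ) ∣ k := by
      rw [← hm]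
      obtain ⟨j, hj⟩ := mem_powers_iff_mem_zpowers.2 h
      rw [← hj]
      exact orderOf_pow_dvd j
    have h2 : (-1 : (ZMod p)ˣ) ^ k = 1 := orderOf_dvd_iff_pow_eq_one.1 h1
    rw [hk.neg_one_pow] at h2
    have h3 : (-1 : ZMod p) = 1 := by
      have := congrArg (fun u : (ZMod p)ˣ => (u : ZMod p)) h2
      simpa using this
    have : Fact (2 < p) := ⟨lt_of_le_of_ne hpr.two_le (Ne.symm hp)⟩
    exact ZMod.neg_one_ne_one h3
  -- the injection
  let sg : Bool → (ZMod p)ˣ := fun s => if s then 1 else -1
  have hsgS : ∀ (s : Bool) (w : Fin n → ZMod p), w ∈ S → (fun i => (sg s : ZMod p) * w i) ∈ S := by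
    intro s w hw
    cases s
    · have h1 := hneg w hw
      have h2 : (fun i => (sg false : ZMod p) * w i) = -w := by
        funext i
        simp [sg]
      rw [h2]
      exact h1
    · have h2 : (fun i => (sg true : ZMod p) * w i) = w := by
        funext i
        simp [sg]
      rw [h2]
      exact hw
  let Φ : b × (Bool × Subgroup.zpowers m) → S := fun t =>
    ⟨fun i => (sg t.2.1 : ZMod p) * ((t.2.2 : (ZMod p)ˣ) * (t.1 : Fin n → ZMod p) i),
      hsgS _ _ (hpow _ t.2.2.2 _ (hbS t.1.2))⟩
  have hΦ : Function.Injective Φ := by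
    rintro ⟨w, s, u⟩ ⟨w', s', u'⟩ h
    have h1 : ((sg s * u : (ZMod p)ˣ) : ZMod p) • (w : Fin n → ZMod p) =
        ((sg s' * u' : (ZMod p)ˣ) : ZMod p) • (w' : Fin n → ZMod p) := by
      have := congrArg Subtype.val h
      funext i
      have h2 := congrFun this i
      simp only [Φ] at h2
      simp only [Pi.smul_apply, smul_eq_mul, Units.val_mul]
      rw [mul_assoc, mul_assoc]
      exact h2
    have hww : w = w' := by
      by_contra hne
      have h3 := (linearIndependent_iff'.1 hb2) {w, w'} (fun x => if x = w then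
        ((sg s * u : (ZMod p)ˣ) : ZMod p) else -((sg s' * u' : (ZMod p)ˣ) : ZMod p)) (by
          rw [Finset.sum_pair hne, if_pos rfl, if_neg (Ne.symm hne), h1, neg_smul, add_neg_cancel])
        w (by simp)
      rw [if_pos rfl] at h3
      exact (Units.ne_zero _) h3
    subst hww
    have hw0 : (w : Fin n → ZMod p) ≠ 0 := fun h => h0 (h ▸ hbS w.2)
    have h4 : sg s * (u : (ZMod p)ˣ) = sg s' * u' := by
      have := smul_left_injective (ZMod p) hw0 h1
      exact Units.ext this
    have h5 : s = s' := by
      by_contra hne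
      apply hneg1
      have h6 : (-1 : (ZMod p)ˣ) = u * (u' : (ZMod p)ˣ)⁻¹ ∨ (-1 : (ZMod p)ˣ) = u' * (u : (ZMod p)ˣ)⁻¹ := by
        cases s <;> cases s'
        · exact absurd rfl hne
        · right
          have : (-1 : (ZMod p)ˣ) * u = 1 * u' := by simpa [sg] using h4
          rw [one_mul] at this
          rw [← this, mul_inv_cancel_right]
        · left
          have : (1 : (ZMod p)ˣ) * u = -1 * u' := by simpa [sg] using h4
          rw [one_mul] at this
          rw [this, mul_inv_cancel_right]
        · exact absurd rfl hne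
      rcases h6 with h6 | h6
      · rw [h6]
        exact mul_mem u.2 (inv_mem u'.2)
      · rw [h6]
        exact mul_mem u'.2 (inv_mem u.2)
    subst h5
    have h6 : u = u' := Subtype.ext (mul_left_cancel h4)
    rw [h6]
  have hle := Fintype.card_le_of_injective Φ hΦ
  rw [Fintype.card_prod, Fintype.card_prod, Fintype.card_bool, hcb, hcz, Fintype.card_coe] at hle
  calc 2 * k * n = n * (2 * k) := by ring
    _ ≤ S.card := hle

end Pool.Agent.Helper47.FB.SPNh

namespace Pool.Agent.Helper47.FB

/-- **SPN.** -/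
theorem spn : S_SPN := fun p _ n k m hm hk hp S h0 hneg hmul hsp =>
  SPNh.spn p n k m hm hk hp S h0 hneg hmul hsp

end Pool.Agent.Helper47.FB
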