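import Pool.Agent.Helper47.FB.Base

/-!
# Module WHT: the group `E_n(O)` contains `(z ^ v_i)_i` and many other elements of `F ^ n`
-/

set_option autoImplicit false

namespace Pool.Agent.Helper47.FB

open Matrix Pool.Agent.X183.ZM Pool.Agent.Helper47.ZQ

theorem wht_coe {O : Type} [Ring O] {F : Type} [Group F] (u : F →* O) (n : ℕ) (q : Fin n → F) :
    ((fD u n q : (Matrix (Fin n) (Fin n) O)ˣ) : Matrix (Fin n) (Fin n) O) =
      diagonal (fun i => u (q i)) := rfl

/-- Whitehead's lemma: `diag(w at i, w⁻¹ at j)` is in the elementary group -/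
theorem wht_wh {O : Type} [Ring O] {F : Type} [Group F] (u : F →* O) {n : ℕ} {i j : Fin n}
    (h : i ≠ j) (g : F) : fD u n (Pi.mulSingle i g * Pi.mulSingle j g⁻¹) ∈ EL n O := by
  have h1 : u g * u g⁻¹ = 1 := by rw [← map_mul, mul_inv_cancel, map_one]
  have h2 : u g⁻¹ * u g = 1 := by rw [← map_mul, inv_mul_cancel, map_one]
  have key : fD u n (Pi.mulSingle i g * Pi.mulSingle j g⁻¹) =
      (El i j h (u g) * El j i h.symm (-(u g⁻¹)) * El i j h (u g)) *
      (El i j h (-1) * El j i h.symm (-(-1)) * El i j h (-1)) := by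
    apply Units.ext
    rw [Units.val_mul, wh1 h h1 h2, wh1 h (by simp) (by simp), wh2 h, wht_coe]
    ext a b
    rcases eq_or_ne a b with rfl | hab
    · rw [diagonal_apply_eq]
      rcases eq_or_ne a i with rfl | hai
      · simp [Matrix.single_apply, h, h.symm]
      · rcases eq_or_ne a j with rfl | haj
        · simp [Matrix.single_apply, h, h.symm]
        · simp [Matrix.single_apply, hai, haj, hai.symm, haj.symm]
    · rw [diagonal_apply_ne _ hab]
      have e1 : ∀ (k : Fin n) (x : O), single k k x a b = 0 := by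
        intro k x
        rw [Matrix.single_apply, if_neg]
        rintro ⟨rfl, rfl⟩
        exact hab rfl
      simp [e1, Matrix.one_apply_ne hab]
  rw [key]
  exact mul_mem (mul_mem (mul_mem (El_mem _ _) (El_mem _ _)) (El_mem _ _))
    (mul_mem (mul_mem (El_mem _ _) (El_mem _ _)) (El_mem _ _))

/-- commutators at one place -/
theorem wht_comm {F : Type} [Group F] {n : ℕ} {H : Subgroup (Fin n → F)} {i j : Fin n}
    (hij : i ≠ j) (hH : ∀ g, Pi.mulSingle i g * Pi.mulSingle j g⁻¹ ∈ H) (g h : F) :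
    (Pi.mulSingle i (g * h * g⁻¹ * h⁻¹) : Fin n → F) ∈ H := by
  have e : (Pi.mulSingle i (g * h * g⁻¹ * h⁻¹) : Fin n → F) =
      (Pi.mulSingle i g * Pi.mulSingle j g⁻¹) * (Pi.mulSingle i h * Pi.mulSingle j h⁻¹) *
        (Pi.mulSingle i (h * g)⁻¹ * Pi.mulSingle j ((h * g)⁻¹)⁻¹) := by
    funext k
    simp only [Pi.mul_apply]
    rcases eq_or_ne k i with rfl | h1
    · rw [Pi.mulSingle_eq_same, Pi.mulSingle_eq_same, Pi.mulSingle_eq_same,
        Pi.mulSingle_eq_same, Pi.mulSingle_eq_of_ne hij, Pi.mulSingle_eq_of_ne hij,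
        Pi.mulSingle_eq_of_ne hij]
      group
    · rcases eq_or_ne k j with rfl | h2
      · rw [Pi.mulSingle_eq_same, Pi.mulSingle_eq_same, Pi.mulSingle_eq_same,
          Pi.mulSingle_eq_of_ne h1, Pi.mulSingle_eq_of_ne h1, Pi.mulSingle_eq_of_ne h1,
          Pi.mulSingle_eq_of_ne h1]
        group
      · rw [Pi.mulSingle_eq_of_ne h1, Pi.mulSingle_eq_of_ne h1, Pi.mulSingle_eq_of_ne h1,
          Pi.mulSingle_eq_of_ne h1, Pi.mulSingle_eq_of_ne h2, Pi.mulSingle_eq_of_ne h2,
          Pi.mulSingle_eq_of_ne h2]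
        simp
  rw [e]
  exact mul_mem (mul_mem (hH _) (hH _)) (hH _)

/-- counting in a power of a commutative group -/
theorem wht_card {U : Type} [CommGroup U] [Finite U] (R : Subgroup U) {n : ℕ} (i0 : Fin n)
    (K : Subgroup (Fin n → U))
    (hK : ∀ i, i ≠ i0 → ∀ r ∈ R, Pi.mulSingle i r * Pi.mulSingle i0 r⁻¹ ∈ K) :
    Nat.card R ^ n ≤ Nat.card K * Nat.card R := by
  classical
  have hmem : ∀ q : Fin n → R, (fun i => (q i : U)) * Pi.mulSingle i0 (∏ i, (q i : U))⁻¹ ∈ K := by
    intro q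
    have e : (fun i => (q i : U)) * Pi.mulSingle i0 (∏ i, (q i : U))⁻¹ =
        ∏ i, (Pi.mulSingle i (q i : U) * Pi.mulSingle i0 (q i : U)⁻¹ : Fin n → U) := by
      rw [Finset.prod_mul_distrib]
      congr 1
      · exact (Finset.univ_prod_mulSingle (fun i => (q i : U))).symm
      · rw [← Finset.prod_inv_distrib]
        exact map_prod (MonoidHom.mulSingle (fun _ : Fin n => U) i0) (fun i => (q i : U)⁻¹)
          Finset.univ
    rw [e]
    refine prod_mem fun i _ => ?_
    rcases eq_or_ne i i0 with rfl | hi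
    · rw [← Pi.mulSingle_mul, mul_inv_cancel, Pi.mulSingle_one]
      exact one_mem K
    · exact hK i hi _ (q i).2
  let g : (Fin n → R) → K × R := fun q => (⟨_, hmem q⟩, ∏ i, q i)
  have hg : Function.Injective g := by
    intro q q' h
    have h1 : (fun i => (q i : U)) * Pi.mulSingle i0 (∏ i, (q i : U))⁻¹ =
        (fun i => (q' i : U)) * Pi.mulSingle i0 (∏ i, (q' i : U))⁻¹ :=
      congrArg (fun t : K × R => (t.1 : Fin n → U)) h
    have h2 : (∏ i, q i) = ∏ i, q' i := congrArg Prod.snd h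
    have h3 : (∏ i, (q i : U)) = ∏ i, (q' i : U) := by
      have := congrArg (fun t : R => (t : U)) h2
      simpa using this
    rw [h3] at h1
    have h4 := mul_right_cancel h1
    funext i
    exact Subtype.ext (congrFun h4 i)
  have h5 := Nat.card_le_card_of_injective g hg
  rw [Nat.card_prod] at h5
  refine le_trans (le_of_eq ?_) h5
  rw [Nat.card_pi]
  simp

theorem wht : S_WHT := by
  classical
  intro O _ F _ _ p k z c hF u n hn
  haveI : Fact p.Prime := ⟨hF.prime⟩
  have hne : ∀ i : Fin n, ∃ j : Fin n, i ≠ j := by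
    intro i
    haveI : Nontrivial (Fin n) := Fin.nontrivial_iff_two_le.2 hn
    obtain ⟨j, hj⟩ := exists_ne i
    exact ⟨j, hj.symm⟩
  have hwh : ∀ i j : Fin n, i ≠ j → ∀ g : F,
      Pi.mulSingle i g * Pi.mulSingle j g⁻¹ ∈ (EL n O).comap (fD u n) := by
    intro i j hij g
    exact wht_wh u hij g
  constructor
  · -- an element with nontrivial character
    have hg : ∃ g, c g ≠ 1 := by
      by_contra hcon
      push Not at hcon
      have h1 : c.range = ⊥ := by
        rw [eq_bot_iff]
        rintro _ ⟨g, rfl⟩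
        exact Subgroup.mem_bot.2 (hcon g)
      have h2 := hF.card
      rw [h1, Subgroup.card_bot] at h2
      have := hF.one_lt
      omega
    obtain ⟨g, hg⟩ := hg
    have hv1 : (c g : ZMod p).val ≠ 1 := by
      intro h
      apply hg
      apply Units.ext
      have : ((c g : ZMod p).val : ZMod p) = ((1 : ℕ) : ZMod p) := by rw [h]
      rw [ZMod.natCast_val, ZMod.cast_id] at this
      simpa using this
    have hv0 : (c g : ZMod p).val ≠ 0 := by
      intro h
      rw [ZMod.val_eq_zero] at h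
      exact (c g).ne_zero h
    have hvp : (c g : ZMod p).val < p := ZMod.val_lt _
    have hcop : Nat.Coprime ((c g : ZMod p).val - 1) (orderOf z) := by
      rw [hF.ord, Nat.coprime_comm]
      refine (hF.prime.coprime_iff_not_dvd).2 fun hd => ?_
      have := Nat.le_of_dvd (by omega) hd
      omega
    obtain ⟨m, hm⟩ := exists_pow_eq_self_of_coprime hcop
    have hz : ∀ i : Fin n, (Pi.mulSingle i z : Fin n → F) ∈ (EL n O).comap (fD u n) := by
      intro i
      obtain ⟨j, hij⟩ := hne i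
      have h1 := wht_comm hij (hwh i j hij) g z
      have h2 : g * z * g⁻¹ * z⁻¹ = z ^ ((c g : ZMod p).val - 1) := by
        rw [hF.conj g, pow_sub z (by omega : 1 ≤ (c g : ZMod p).val), pow_one]
      rw [h2] at h1
      have h3 := pow_mem h1 m
      rwa [← Pi.mulSingle_pow, hm] at h3
    intro v
    have h4 : iv z v ∈ (EL n O).comap (fD u n) := by
      apply Subgroup.pi_mem_of_mulSingle_mem
      intro i
      have h5 := pow_mem (hz i) (v i).val
      rw [← Pi.mulSingle_pow] at h5
      exact h5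
    exact h4
  · rw [← hF.card]
    have hn0 : 0 < n := by omega
    refine wht_card c.range ⟨0, hn0⟩ _ ?_
    rintro i hi _ ⟨g, rfl⟩
    refine ⟨Pi.mulSingle i g * Pi.mulSingle ⟨0, hn0⟩ g⁻¹, hwh i _ hi g, ?_⟩
    funext t
    show c ((Pi.mulSingle i g * Pi.mulSingle ⟨0, hn0⟩ g⁻¹ : Fin n → F) t) = _
    rw [Pi.mul_apply, map_mul, Pi.mul_apply]
    congr 1
    · rcases eq_or_ne t i with rfl | ht
      · rw [Pi.mulSingle_eq_same, Pi.mulSingle_eq_same]
      · rw [Pi.mulSingle_eq_of_ne ht, Pi.mulSingle_eq_of_ne ht, map_one]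
    · rcases eq_or_ne t ⟨0, hn0⟩ with rfl | ht
      · rw [Pi.mulSingle_eq_same, Pi.mulSingle_eq_same, map_inv]
      · rw [Pi.mulSingle_eq_of_ne ht, Pi.mulSingle_eq_of_ne ht, map_one]

end Pool.Agent.Helper47.FB
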