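import Pool.Agent.Helper47.FB.Base2
import Pool.Agent.Helper47.FB.Wht

/-!
# Module WH2: the element `(t, …, t, t ^ (-(n - 1)))` is in `E_n(O)`
-/

set_option autoImplicit false

namespace Pool.Agent.Helper47.FB

open Matrix Pool.Agent.X183.ZM Pool.Agent.Helper47.ZQ

theorem wh2 : S_WH2 := by
  classical
  intro O _ F _ u n t
  have key : ∀ s : Finset (Fin (n + 1)), Fin.last n ∉ s →
      (fun i => if i = Fin.last n then (t ^ s.card)⁻¹ else if i ∈ s then t else 1 :
        Fin (n + 1) → F) ∈ (EL (n + 1) O).comap (fD u (n + 1)) := by
    intro s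
    induction s using Finset.induction_on with
    | empty =>
      intro _
      have e : (fun i => if i = Fin.last n then (t ^ (∅ : Finset (Fin (n + 1))).card)⁻¹ else
          if i ∈ (∅ : Finset (Fin (n + 1))) then t else 1 : Fin (n + 1) → F) = 1 := by
        funext i
        simp
      rw [e]
      exact one_mem _
    | insert a s ha ih =>
      intro hl
      rw [Finset.mem_insert, not_or] at hl
      have h1 := ih hl.2
      have h2 : Pi.mulSingle a t * Pi.mulSingle (Fin.last n) t⁻¹ ∈
          (EL (n + 1) O).comap (fD u (n + 1)) := wht_wh u (Ne.symm hl.1) t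
      have h3 := mul_mem h2 h1
      convert h3 using 1
      funext i
      rw [Pi.mul_apply, Pi.mul_apply, Finset.card_insert_of_notMem ha]
      by_cases hi : i = Fin.last n
      · rw [if_pos hi, if_pos hi, hi, Pi.mulSingle_eq_same, Pi.mulSingle_eq_of_ne hl.1, one_mul,
          pow_succ, _root_.mul_inv_rev]
      · rw [if_neg hi, if_neg hi, Pi.mulSingle_eq_of_ne hi, mul_one]
        by_cases hia : i = a
        · have : i ∉ s := by rw [hia]; exact ha
          rw [if_pos (Finset.mem_insert.2 (Or.inl hia)), if_neg this, mul_one, hia,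
            Pi.mulSingle_eq_same]
        · rw [Pi.mulSingle_eq_of_ne hia, one_mul]
          by_cases his : i ∈ s
          · rw [if_pos his, if_pos (Finset.mem_insert_of_mem his)]
          · rw [if_neg his, if_neg]
            rw [Finset.mem_insert, not_or]
            exact ⟨hia, his⟩
  have h := key (Finset.univ.erase (Fin.last n)) (Finset.notMem_erase _ _)
  have hc : (Finset.univ.erase (Fin.last n)).card = n := by
    rw [Finset.card_erase_of_mem (Finset.mem_univ _), Finset.card_univ, Fintype.card_fin]
    rfl
  rw [hc] at h
  have e : (fun i => if i = Fin.last n then (t ^ n)⁻¹ else t : Fin (n + 1) → F) =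
      (fun i => if i = Fin.last n then (t ^ n)⁻¹ else
        if i ∈ Finset.univ.erase (Fin.last n) then t else 1) := by
    funext i
    by_cases hi : i = Fin.last n
    · rw [if_pos hi, if_pos hi]
    · rw [if_neg hi, if_neg hi, if_pos (Finset.mem_erase.2 ⟨hi, Finset.mem_univ _⟩)]
  rw [e]
  exact h

end Pool.Agent.Helper47.FB
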